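import Mathlib

/-!
# The loop exploration of random stirring in slices: basics
-/

set_option autoImplicit false

namespace Pool.Agent.H961.T1

open Finset Equiv

variable {V : Type}

/-- The product of the first `i` slices (periodic with period `K`). -/
def P (K : ℕ) (η : ℕ → Perm V) : ℕ → Perm V
  | 0 => 1
  | i + 1 => η (i % K) * P K η i

/-- The position after `j` steps of the loop which starts at `o`. -/
def ps (K : ℕ) (η : ℕ → Perm V) (o : V) (j : ℕ) : V := P K η j o

theorem P_zero (K : ℕ) (η : ℕ → Perm V) : P K η 0 = 1 := rfl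

theorem P_succ (K : ℕ) (η : ℕ → Perm V) (i : ℕ) : P K η (i + 1) = η (i % K) * P K η i := rfl

theorem ps_zero (K : ℕ) (η : ℕ → Perm V) (o : V) : ps K η o 0 = o := rfl

theorem ps_succ (K : ℕ) (η : ℕ → Perm V) (o : V) (j : ℕ) :
    ps K η o (j + 1) = η (j % K) (ps K η o j) := rfl

theorem P_add (K : ℕ) (η : ℕ → Perm V) (j m : ℕ) (hm : K ∣ m) :
    P K η (j + m) = P K η j * P K η m := by
  induction j with
  | zero => simp [P_zero]
  | succ j ih =>
    have h : (j + m) % K = j % K := by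
      obtain ⟨c, rfl⟩ := hm
      simp
    rw [show j + 1 + m = (j + m) + 1 by ring, P_succ, ih, P_succ, h, mul_assoc]

theorem P_mul (K : ℕ) (η : ℕ → Perm V) (n : ℕ) : P K η (n * K) = P K η K ^ n := by
  induction n with
  | zero => simp [P_zero]
  | succ n ih =>
    rw [show (n + 1) * K = n * K + K by ring, P_add K η _ K (dvd_refl K), ih, pow_succ]

/-- The walk in the slices `ζ` which starts at the vertex `v` at slice `k`: position after `i`
steps. -/
def wk (K : ℕ) (ζ : ℕ → Perm V) (v : V) (k : ℕ) : ℕ → V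
  | 0 => v
  | i + 1 => ζ ((k + i) % K) (wk K ζ v k i)

theorem wk_eq (K : ℕ) (ζ : ℕ → Perm V) (v : V) (k i : ℕ) :
    wk K ζ v k i = P K ζ (k + i) ((P K ζ k)⁻¹ v) := by
  induction i with
  | zero => simp [wk]
  | succ i ih =>
    rw [wk, ih, ← add_assoc, P_succ]
    rfl

theorem wk_K (K : ℕ) (ζ : ℕ → Perm V) (v : V) (k : ℕ) :
    (P K ζ k)⁻¹ (wk K ζ v k K) = P K ζ K ((P K ζ k)⁻¹ v) := by
  rw [wk_eq, P_add K ζ k K (dvd_refl K)]
  simp

theorem wk_inj (K : ℕ) (ζ : ℕ → Perm V) (v v' : V) (k i : ℕ)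
    (h : wk K ζ v k i = wk K ζ v' k i) : v = v' := by
  rw [wk_eq, wk_eq] at h
  simpa using h

/-- The vertex `v` at slice `k` is visited before time `j`. -/
def Vs (K : ℕ) (η : ℕ → Perm V) (o : V) (j : ℕ) (v : V) (k : ℕ) : Prop :=
  ∃ i < j, i % K = k ∧ ps K η o i = v

/-- The loop is not closed at the times `1, ..., j`. -/
def Al (K : ℕ) (η : ℕ → Perm V) (o : V) (j : ℕ) : Prop :=
  ∀ i, 0 < i → i ≤ j → K ∣ i → ps K η o i ≠ o

theorem Al.mono {K : ℕ} {η : ℕ → Perm V} {o : V} {i j : ℕ} (h : Al K η o j) (hij : i ≤ j) :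
    Al K η o i := fun l hl hli hK => h l hl (hli.trans hij) hK

theorem Al.ne {K : ℕ} {η : ℕ → Perm V} {o : V} {j : ℕ} (h : Al K η o j) {i i' : ℕ}
    (hi : i < i') (hi' : i' ≤ j) (hk : i % K = i' % K) : ps K η o i ≠ ps K η o i' := by
  intro he
  obtain ⟨m, rfl⟩ := Nat.exists_eq_add_of_lt hi
  have hd : K ∣ m + 1 := by
    have : (i + (m + 1)) ≡ i [MOD K] := by
      rw [Nat.ModEq, ← add_assoc]; exact hk.symm
    have h2 : (m + 1) ≡ 0 [MOD K] := by
      have h3 : i + (m + 1) ≡ i + 0 [MOD K] := by simpa using this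
      exact Nat.ModEq.add_left_cancel' i h3
    exact (Nat.modEq_zero_iff_dvd).1 h2
  have h4 : ps K η o (i + (m + 1)) = P K η i (ps K η o (m + 1)) := by
    unfold ps
    rw [P_add K η i (m + 1) hd]
    rfl
  rw [add_assoc] at he
  rw [h4] at he
  have h5 : o = ps K η o (m + 1) := (P K η i).injective he
  exact h (m + 1) (by omega) (by omega) hd h5.symm

/-- `T` is the length of the loop. -/
structure IsT (K : ℕ) (η : ℕ → Perm V) (o : V) (T : ℕ) : Prop where
  pos : 0 < T
  dvd : K ∣ T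
  close : ps K η o T = o
  al : ∀ i, 0 < i → i < T → K ∣ i → ps K η o i ≠ o

theorem IsT.alive {K : ℕ} {η : ℕ → Perm V} {o : V} {T j : ℕ} (h : IsT K η o T) (hj : j < T) :
    Al K η o j := fun i hi hij hK => h.al i hi (by omega) hK

theorem IsT.ne {K : ℕ} {η : ℕ → Perm V} {o : V} {T : ℕ} (h : IsT K η o T) {i i' : ℕ}
    (hi : i < T) (hi' : i' < T) (hk : i % K = i' % K) (he : ps K η o i = ps K η o i') : i = i' := by
  rcases lt_trichotomy i i' with hlt | heq | hgt
  · exact absurd he ((h.alive hi').ne hlt le_rfl hk)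
  · exact heq
  · exact absurd he.symm ((h.alive hi).ne hgt le_rfl hk.symm)

theorem al_iff {K : ℕ} {η : ℕ → Perm V} {o : V} {T j : ℕ} (h : IsT K η o T) :
    Al K η o j ↔ j < T := by
  constructor
  · intro ha
    by_contra hj
    exact ha T h.pos (by omega) h.dvd h.close
  · intro hj
    exact h.alive hj

end Pool.Agent.H961.T1
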