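import Pool.Agent.H961.T1.A9

/-!
# Compensation along the loop
-/

set_option autoImplicit false
set_option linter.unusedSectionVars false

namespace Pool.Agent.H961.T1

open Finset Equiv

variable {V : Type} [Fintype V] [DecidableEq V]

/-- the cycle length -/
noncomputable def Cn (K : ℕ) (η : ℕ → Perm V) (o : V) : ℕ :=
  Function.minimalPeriod (P K η K) o

/-- the length of the loop -/
noncomputable def Tn (K : ℕ) (η : ℕ → Perm V) (o : V) : ℕ := Cn K η o * K

theorem ps_mul (K : ℕ) (η : ℕ → Perm V) (o : V) (i : ℕ) :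
    ps K η o (i * K) = (P K η K)^[i] o := by
  unfold ps
  rw [P_mul, Perm.iterate_eq_pow]

theorem Cn_pos (K : ℕ) (η : ℕ → Perm V) (o : V) : 0 < Cn K η o := by
  unfold Cn
  apply Function.minimalPeriod_pos_of_mem_periodicPts
  refine ⟨orderOf (P K η K), orderOf_pos _, ?_⟩
  rw [Function.IsPeriodicPt, Function.IsFixedPt, Perm.iterate_eq_pow, pow_orderOf_eq_one]
  rfl

theorem isT_Tn {K : ℕ} (hK : 0 < K) (η : ℕ → Perm V) (o : V) : IsT K η o (Tn K η o) := by
  refine ⟨Nat.mul_pos (Cn_pos K η o) hK, Dvd.intro_left _ rfl, ?_, ?_⟩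
  · unfold Tn
    rw [ps_mul]
    exact Function.iterate_minimalPeriod
  · rintro i h0 hi ⟨m, rfl⟩
    rw [mul_comm, ps_mul]
    intro he
    have hm0 : 0 < m := by
      rcases Nat.eq_zero_or_pos m with h | h
      · subst h; simp at h0
      · exact h
    have h1 : Function.minimalPeriod (P K η K) o ≤ m :=
      Function.IsPeriodicPt.minimalPeriod_le hm0 he
    have h2 : Tn K η o ≤ K * m := by
      unfold Tn Cn
      rw [mul_comm]
      exact Nat.mul_le_mul_left K h1
    omega

theorem Cn_le {K : ℕ} (hK : 0 < K) (η : ℕ → Perm V) (o : V) : Cn K η o ≤ Fintype.card V := by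
  have hT := isT_Tn hK η o
  rw [← card_univ (α := V)]
  have h4 : ((range (Cn K η o)).image fun i => ps K η o (i * K)).card = Cn K η o := by
    rw [card_image_of_injOn, card_range]
    intro i hi i' hi' he
    rw [coe_range, Set.mem_Iio] at hi hi'
    have h5 : i * K = i' * K := by
      apply hT.ne _ _ _ he
      · exact Nat.mul_lt_mul_of_pos_right hi hK
      · exact Nat.mul_lt_mul_of_pos_right hi' hK
      · simp
    exact Nat.eq_of_mul_eq_mul_right hK h5
  rw [← h4]
  exact card_le_card (subset_univ _)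

theorem Tn_le {K : ℕ} (hK : 0 < K) (η : ℕ → Perm V) (o : V) :
    Tn K η o ≤ Fintype.card V * K := Nat.mul_le_mul_right K (Cn_le hK η o)

open Classical in
/-- sum over the jumps across new bars -/
noncomputable def TR (K : ℕ) (o : V) (F : (ℕ → Perm V) → ℕ → V → ℝ) (η : ℕ → Perm V) : ℝ :=
  ∑ j ∈ range (Tn K η o), if FJ K η o j then F η j (ps K η o (j + 1)) else 0

/-- sum over the fresh neighbours -/
noncomputable def FS (S : Finset (Perm V)) (K : ℕ) (o : V) (F : (ℕ → Perm V) → ℕ → V → ℝ)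
    (η : ℕ → Perm V) : ℝ :=
  ∑ j ∈ range (Tn K η o), ∑ z ∈ FRs S K η o j, F η j z

theorem sum_alive {K : ℕ} (hK : 0 < K) (η : ℕ → Perm V) (o : V) (g : ℕ → ℝ)
    (h0 : ∀ j, ¬ Al K η o j → g j = 0) :
    ∑ j ∈ range (Fintype.card V * K), g j = ∑ j ∈ range (Tn K η o), g j := by
  symm
  apply sum_subset
  · intro j hj
    rw [mem_range] at hj ⊢
    exact lt_of_lt_of_le hj (Tn_le hK η o)
  · intro j _ hj
    apply h0
    rw [mem_range] at hj
    rw [al_iff (isT_Tn hK η o)]
    exact hj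

open Classical in
theorem TR_eq {K : ℕ} (hK : 0 < K) {S : Finset (Perm V)} (hSS : SwS S) {o : V}
    {η : ℕ → Perm V} (hη : Okη S K η) (F : (ℕ → Perm V) → ℕ → V → ℝ) :
    ∑ j ∈ range (Fintype.card V * K), ∑ z, (if Fr S K η o j z ∧
      η (j % K) = swap (ps K η o j) z then F η j z else 0) = TR K o F η := by
  rw [sum_alive hK η o]
  · unfold TR
    refine sum_congr rfl fun j hj => ?_
    rw [mem_range] at hj
    have ha : Al K η o j := (isT_Tn hK η o).alive hj
    split_ifs with h
    · rw [sum_eq_single (ps K η o (j + 1))]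
      · rw [if_pos]
        exact ⟨⟨ha, ad_of_jump hK hSS hη h.1, h.2⟩, jump_swap hK (hη.sw hSS) h.1⟩
      · intro z _ hz
        rw [if_neg]
        rintro ⟨_, h2⟩
        apply hz
        rw [ps_succ, h2, swap_apply_left]
      · intro h2; exact absurd (mem_univ _) h2
    · apply sum_eq_zero
      intro z _
      rw [if_neg]
      rintro ⟨h1, h2⟩
      apply h
      have h3 : ps K η o (j + 1) = z := by rw [ps_succ, h2, swap_apply_left]
      unfold FJ
      rw [h3]
      exact ⟨h1.2.1.1.symm, h1.2.2⟩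
  · intro j hj
    apply sum_eq_zero
    intro z _
    rw [if_neg]
    rintro ⟨h1, _⟩
    exact hj h1.1

open Classical in
theorem FS_eq {K : ℕ} (hK : 0 < K) {S : Finset (Perm V)} {o : V}
    {η : ℕ → Perm V} (F : (ℕ → Perm V) → ℕ → V → ℝ) :
    ∑ j ∈ range (Fintype.card V * K), ∑ z, (if Fr S K η o j z then F η j z else 0) =
      FS S K o F η := by
  rw [sum_alive hK η o]
  · unfold FS
    refine sum_congr rfl fun j hj => ?_
    rw [mem_range] at hj
    have ha : Al K η o j := (isT_Tn hK η o).alive hj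
    unfold FRs
    rw [sum_filter]
    refine sum_congr rfl fun z _ => ?_
    congr 1
    unfold Fr
    simp only [ha, true_and]
  · intro j hj
    apply sum_eq_zero
    intro z _
    rw [if_neg]
    intro h1
    exact hj h1.1

section
variable {K : ℕ} (hK : 0 < K) {δ : ℝ} (hδ : 0 ≤ δ) {S : Finset (Perm V)} (hδ1 : δ * S.card ≤ 1)
  (hSS : SwS S) {o : V} {F : (ℕ → Perm V) → ℕ → V → ℝ}

include hK hδ hδ1 hSS

theorem comp_up (hF : Adp S K o F) (hF0 : ∀ η j z, 0 ≤ F η j z) :
    (1 - δ * S.card) * Ex K δ S (TR K o F) ≤ δ * Ex K δ S (FS S K o F) := by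
  classical
  have h1 : Ex K δ S (TR K o F) = ∑ j ∈ range (Fintype.card V * K),
      Ex K δ S (fun η => ∑ z, if Fr S K η o j z ∧ η (j % K) = swap (ps K η o j) z then
        F η j z else 0) := by
    rw [← Ex_sum]
    exact Ex_congr fun η hη => (TR_eq hK hSS hη F).symm
  have h2 : Ex K δ S (FS S K o F) = ∑ j ∈ range (Fintype.card V * K),
      Ex K δ S (fun η => ∑ z, if Fr S K η o j z then F η j z else 0) := by
    rw [← Ex_sum]
    exact Ex_congr fun η _ => (FS_eq hK F).symm
  rw [h1, h2, mul_sum, mul_sum]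
  refine sum_le_sum fun j _ => ?_
  rw [comp_at hK hSS hF j]
  refine mul_le_mul_of_nonneg_left ?_ hδ
  refine Ex_mono hδ hδ1 fun η _ => sum_le_sum fun z _ => ?_
  by_cases h5 : Fr S K η o j z
  · by_cases h4 : η (j % K) = 1
    · have h6 : Fr S K η o j z ∧ η (j % K) = 1 := ⟨h5, h4⟩
      rw [if_pos h6, if_pos h5]
    · have h6 : ¬ (Fr S K η o j z ∧ η (j % K) = 1) := fun h => h4 h.2
      rw [if_neg h6, if_pos h5]; exact hF0 _ _ _
  · have h6 : ¬ (Fr S K η o j z ∧ η (j % K) = 1) := fun h => h5 h.1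
    rw [if_neg h6, if_neg h5]

theorem comp_down (hF : Adp S K o F) (hF0 : ∀ η j z, 0 ≤ F η j z) (hF1 : ∀ η j z, F η j z ≤ 1) :
    δ * (Ex K δ S (FS S K o F) - (Fintype.card V : ℝ) ^ 2 * K * (δ * S.card)) ≤
      (1 - δ * S.card) * Ex K δ S (TR K o F) := by
  classical
  have h1 : Ex K δ S (TR K o F) = ∑ j ∈ range (Fintype.card V * K),
      Ex K δ S (fun η => ∑ z, if Fr S K η o j z ∧ η (j % K) = swap (ps K η o j) z then
        F η j z else 0) := by
    rw [← Ex_sum]
    exact Ex_congr fun η hη => (TR_eq hK hSS hη F).symm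
  have h2 : Ex K δ S (FS S K o F) = ∑ j ∈ range (Fintype.card V * K),
      Ex K δ S (fun η => ∑ z, if Fr S K η o j z then F η j z else 0) := by
    rw [← Ex_sum]
    exact Ex_congr fun η _ => (FS_eq hK F).symm
  have h3 : (Fintype.card V : ℝ) ^ 2 * K * (δ * S.card) =
      ∑ j ∈ range (Fintype.card V * K),
        Ex K δ S (fun η => ∑ _z : V, if η (j % K) = 1 then 0 else 1) := by
    have h4 : ∀ j ∈ range (Fintype.card V * K),
        Ex K δ S (fun η => ∑ _z : V, if η (j % K) = 1 then 0 else 1) =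
        (Fintype.card V : ℝ) * (δ * S.card) := by
      intro j _
      rw [Ex_sum (univ : Finset V) (fun _ η => if η (j % K) = 1 then (0 : ℝ) else 1),
        sum_const, nsmul_eq_mul, card_univ, Ex_slice hSS (Nat.mod_lt _ hK)]
    rw [sum_congr rfl h4, sum_const, card_range, nsmul_eq_mul]
    push_cast
    ring
  rw [h1, h2, h3, mul_sum, ← sum_sub_distrib, mul_sum]
  refine sum_le_sum fun j _ => ?_
  rw [comp_at hK hSS hF j, ← Ex_sub]
  refine mul_le_mul_of_nonneg_left ?_ hδ
  refine Ex_mono hδ hδ1 fun η _ => ?_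
  rw [← sum_sub_distrib]
  refine sum_le_sum fun z _ => ?_
  by_cases h5 : Fr S K η o j z
  · by_cases h4 : η (j % K) = 1
    · have h6 : Fr S K η o j z ∧ η (j % K) = 1 := ⟨h5, h4⟩
      rw [if_pos h6, if_pos h5, if_pos h4, sub_zero]
    · have h6 : ¬ (Fr S K η o j z ∧ η (j % K) = 1) := fun h => h4 h.2
      rw [if_neg h6, if_pos h5, if_neg h4]
      linarith [hF1 η j z]
  · have h6 : ¬ (Fr S K η o j z ∧ η (j % K) = 1) := fun h => h5 h.1
    rw [if_neg h6, if_neg h5]
    split_ifs <;> norm_num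

end

end Pool.Agent.H961.T1
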