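import Pool.Agent.H961.T1.A10

/-!
# The three inequalities in mean
-/

set_option autoImplicit false
set_option linter.unusedSectionVars false
set_option linter.unusedVariables false

namespace Pool.Agent.H961.T1

open Finset Equiv

variable {V : Type} [Fintype V] [DecidableEq V]

/-- `z` is not visited at the times `≤ j` -/
def Nw (K : ℕ) (η : ℕ → Perm V) (o : V) (j : ℕ) (z : V) : Prop := ∀ i ≤ j, ps K η o i ≠ z

theorem bi_iff {K : ℕ} {η : ℕ → Perm V} {o : V} {j : ℕ} :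
    Bi K η o j ↔ FJ K η o j ∧ Nw K η o j (ps K η o (j + 1)) :=
  ⟨fun h => ⟨h.fj, h⟩, fun h => h.2⟩

theorem Sm.nw {K : ℕ} {η η' : ℕ → Perm V} {o : V} {j : ℕ} (h : Sm K η η' o j) (z : V) :
    Nw K η' o j z ↔ Nw K η o j z := by
  unfold Nw
  constructor
  · intro h1 i hi; rw [← h i hi]; exact h1 i hi
  · intro h1 i hi; rw [h i hi]; exact h1 i hi

open Classical in
/-- a weight for jumps to new vertices -/
noncomputable def FN (K : ℕ) (o : V) (g : (ℕ → Perm V) → ℕ → ℝ) :
    (ℕ → Perm V) → ℕ → V → ℝ := fun η j z => if Nw K η o j z then g η j else 0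

theorem TR_FN (K : ℕ) (o : V) (g : (ℕ → Perm V) → ℕ → ℝ) (η : ℕ → Perm V) :
    TR K o (FN K o g) η = ∑ j ∈ JB K η o (Tn K η o), g η j := by
  classical
  unfold TR JB FN
  rw [sum_filter]
  refine sum_congr rfl fun j _ => ?_
  by_cases h : Bi K η o j
  · rw [if_pos h, if_pos h.fj, if_pos (bi_iff.1 h).2]
  · rw [if_neg h]
    split_ifs with h1 h2
    · exact absurd (bi_iff.2 ⟨h1, h2⟩) h
    · rfl
    · rfl

theorem FRs_filter_nw (S : Finset (Perm V)) (K : ℕ) (η : ℕ → Perm V) (o : V) (j : ℕ) :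
    (by classical exact (FRs S K η o j).filter fun z => Nw K η o j z) = NWs S K η o j := by
  classical
  ext z
  simp only [FRs, NWs, mem_filter, mem_univ, true_and, Nw]
  constructor
  · rintro ⟨⟨h1, h2⟩, h3⟩
    exact ⟨h1, h3⟩
  · rintro ⟨h1, h3⟩
    refine ⟨⟨h1, ?_⟩, h3⟩
    rintro ⟨i, hi, _, he⟩
    exact h3 i hi.le he

theorem FS_FN (S : Finset (Perm V)) (K : ℕ) (o : V) (g : (ℕ → Perm V) → ℕ → ℝ)
    (η : ℕ → Perm V) :
    FS S K o (FN K o g) η =
      ∑ j ∈ range (Tn K η o), ((NWs S K η o j).card : ℝ) * g η j := by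
  classical
  unfold FS FN
  refine sum_congr rfl fun j _ => ?_
  rw [← sum_filter, sum_const, nsmul_eq_mul, ← FRs_filter_nw]

theorem adp_FN {S : Finset (Perm V)} {K : ℕ} {o : V} {g : (ℕ → Perm V) → ℕ → ℝ}
    (hg : ∀ η η' j, Sm K η η' o j → g η' j = g η j) : Adp S K o (FN K o g) := by
  intro η j z _ _ h
  have h1 := h.nw z
  unfold FN
  by_cases h2 : Nw K η o j z
  · rw [if_pos h2, if_pos (h1.2 h2), hg _ _ _ h]
  · rw [if_neg h2, if_neg (fun h3 => h2 (h1.1 h3))]

open Classical in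
/-- the weight of a jump to an old vertex of the same piece -/
noncomputable def FP (K : ℕ) (o : V) : (ℕ → Perm V) → ℕ → V → ℝ :=
  fun η j z => if (∃ i ≤ j, ps K η o i = z) ∧ Pe K η o j z then 1 else 0

theorem TR_FP (K : ℕ) (o : V) (η : ℕ → Perm V) :
    TR K o (FP K o) η = (JS K η o (Tn K η o)).card := by
  classical
  unfold TR JS FP Ol
  rw [card_filter, Nat.cast_sum]
  refine sum_congr rfl fun j _ => ?_
  by_cases h : FJ K η o j <;> simp [h]

theorem FS_FP (S : Finset (Perm V)) (K : ℕ) (o : V) (η : ℕ → Perm V) :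
    FS S K o (FP K o) η = ∑ j ∈ range (Tn K η o), ((PDs S K η o j).card : ℝ) := by
  classical
  unfold FS FP
  refine sum_congr rfl fun j _ => ?_
  rw [← sum_filter, sum_const, nsmul_eq_mul, mul_one]
  congr 2
  ext z
  simp only [FRs, PDs, mem_filter, mem_univ, true_and]
  tauto

theorem adp_FP {S : Finset (Perm V)} {K : ℕ} {o : V} : Adp S K o (FP K o) := by
  classical
  intro η j z hF h1 h
  unfold FP
  have h2 : (∃ i ≤ j, ps K (Function.update η (j % K) (swap (ps K η o j) z)) o i = z) ↔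
      ∃ i ≤ j, ps K η o i = z := by
    constructor
    · rintro ⟨i, hi, he⟩; exact ⟨i, hi, by rw [← h i hi]; exact he⟩
    · rintro ⟨i, hi, he⟩; exact ⟨i, hi, by rw [h i hi]; exact he⟩
  have h3 := h.pe (fun k hk => Function.update_of_ne hk _ _) h1 z
  simp only [h2, h3]

theorem TR_one (K : ℕ) (o : V) (η : ℕ → Perm V) :
    TR K o (fun _ _ _ => 1) η = (JB K η o (Tn K η o)).card + (JO K η o (Tn K η o)).card := by
  classical
  unfold TR JB JO
  rw [card_filter, card_filter, Nat.cast_sum, Nat.cast_sum, ← sum_add_distrib]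
  refine sum_congr rfl fun j _ => ?_
  by_cases h : FJ K η o j
  · rw [if_pos h]
    rcases fj_iff.1 h with hb | ho
    · have : ¬ Ol K η o j := fun h2 => not_bi_of_ol h2 hb
      rw [if_pos hb, if_neg this]; norm_num
    · rw [if_pos ho, if_neg (not_bi_of_ol ho)]; norm_num
  · have h1 : ¬ Bi K η o j := fun h2 => h h2.fj
    have h2 : ¬ Ol K η o j := fun h2 => h h2.1
    rw [if_neg h, if_neg h1, if_neg h2]; norm_num

theorem FS_one (S : Finset (Perm V)) (K : ℕ) (o : V) (η : ℕ → Perm V) :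
    FS S K o (fun _ _ _ => 1) η = ∑ j ∈ range (Tn K η o), ((FRs S K η o j).card : ℝ) := by
  unfold FS
  refine sum_congr rfl fun j _ => ?_
  rw [sum_const, nsmul_eq_mul, mul_one]

theorem NWs_le (S : Finset (Perm V)) (K : ℕ) (η : ℕ → Perm V) (o : V) (j Δ : ℕ)
    (hdeg : ∀ x : V, Nat.card {z : V // Ad S x z} ≤ Δ) : (NWs S K η o j).card ≤ Δ := by
  classical
  have h1 := fresh_add_visited (K := K) (η := η) (o := o) S j Δ hdeg
  have h2 : (NWs S K η o j).card ≤ (FRs S K η o j).card := by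
    rw [← FRs_filter_nw]
    exact card_filter_le _ _
  omega

theorem Uv_le (K : ℕ) (η : ℕ → Perm V) (o : V) (j : ℕ) (v : V) : Uv K η o j v ≤ K := by
  classical
  unfold Uv
  refine (card_filter_le _ _).trans ?_
  rw [card_range]

section
variable (K : ℕ) (δ : ℝ) (S : Finset (Perm V)) (o : V)

/-- mean number of births -/
noncomputable def mB : ℝ := Ex K δ S fun η => ((JB K η o (Tn K η o)).card : ℝ)
/-- mean number of jumps to old vertices -/
noncomputable def mX : ℝ := Ex K δ S fun η => ((JO K η o (Tn K η o)).card : ℝ)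
/-- mean number of splits -/
noncomputable def mS : ℝ := Ex K δ S fun η => ((JS K η o (Tn K η o)).card : ℝ)
/-- mean number of merges -/
noncomputable def mM : ℝ := Ex K δ S fun η => ((JM K η o (Tn K η o)).card : ℝ)
/-- mean unvisited time -/
noncomputable def mD : ℝ := Ex K δ S fun η =>
  (∑ v ∈ NV K η o (Tn K η o), (Uv K η o (Tn K η o) v : ℝ)) / K
/-- mean cycle length -/
noncomputable def mC : ℝ := Ex K δ S fun η => (Cn K η o : ℝ)

end

section
variable {K : ℕ} (hK : 0 < K) {δ : ℝ} (hδ : 0 ≤ δ) {S : Finset (Perm V)} (hδ1 : δ * S.card < 1)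
  (hSS : SwS S) {o : V} {Δ : ℕ} (hdeg : ∀ x : V, Nat.card {z : V // Ad S x z} ≤ Δ)

include hK hδ hδ1 hSS

theorem mC_eq : mC K δ S o = 1 + mB K δ S o - mD K δ S o := by
  classical
  have hK' : (0 : ℝ) < K := by exact_mod_cast hK
  have h1 : mC K δ S o = Ex K δ S (fun η => (1 + ((JB K η o (Tn K η o)).card : ℝ)) -
      (∑ v ∈ NV K η o (Tn K η o), (Uv K η o (Tn K η o) v : ℝ)) / K) := by
    unfold mC
    refine Ex_congr fun η hη => ?_
    have h2 := card_unvisited hK (isT_Tn hK η o)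
    have h3 := NV_card (isT_Tn hK η o)
    rw [h3] at h2
    have h4 : (∑ v ∈ NV K η o (Tn K η o), (Uv K η o (Tn K η o) v : ℝ)) + (Cn K η o : ℝ) * K =
        K * (1 + ((JB K η o (Tn K η o)).card : ℝ)) := by
      unfold Tn at h2 ⊢
      exact_mod_cast h2
    field_simp
    linarith
  rw [h1, Ex_sub, Ex_add, Ex_const hSS]
  rfl

theorem mX_eq : mX K δ S o = mS K δ S o + mM K δ S o := by
  unfold mX mS mM
  rw [← Ex_add]
  refine Ex_congr fun η _ => ?_
  have h := JS_add_JM K η o (Tn K η o)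
  exact_mod_cast h.symm

theorem mSM : mS K δ S o - mM K δ S o ≤ mD K δ S o := by
  classical
  have hK' : (0 : ℝ) < K := by exact_mod_cast hK
  unfold mS mM mD
  rw [← Ex_sub]
  refine Ex_mono hδ hδ1.le fun η hη => ?_
  have h1 := balance hK (hη.sw hSS) (isT_Tn hK η o) (c := Cn K η o) rfl
  have h2 := card_unvisited hK (isT_Tn hK η o)
  have h3 := NV_card (isT_Tn hK η o)
  rw [h3] at h2
  have h4 : (∑ v ∈ NV K η o (Tn K η o), (Uv K η o (Tn K η o) v : ℝ)) + (Cn K η o : ℝ) * K =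
      K * (1 + ((JB K η o (Tn K η o)).card : ℝ)) := by
    unfold Tn at h2 ⊢
    exact_mod_cast h2
  have h5 : ((JS K η o (Tn K η o)).card : ℝ) + Cn K η o ≤
      1 + ((JB K η o (Tn K η o)).card : ℝ) + ((JM K η o (Tn K η o)).card : ℝ) := by
    exact_mod_cast h1
  rw [le_div_iff₀ hK']
  nlinarith

theorem mB_nonneg : 0 ≤ mB K δ S o := Ex_nonneg hδ hδ1.le fun _ _ => Nat.cast_nonneg _
theorem mS_nonneg : 0 ≤ mS K δ S o := Ex_nonneg hδ hδ1.le fun _ _ => Nat.cast_nonneg _
theorem mM_nonneg : 0 ≤ mM K δ S o := Ex_nonneg hδ hδ1.le fun _ _ => Nat.cast_nonneg _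
theorem mD_nonneg : 0 ≤ mD K δ S o := Ex_nonneg hδ hδ1.le fun _ _ =>
  div_nonneg (sum_nonneg fun _ _ => Nat.cast_nonneg _) (Nat.cast_nonneg _)

theorem mB_le : mB K δ S o ≤ Fintype.card V := by
  rw [← Ex_const (K := K) (δ := δ) hSS (Fintype.card V : ℝ)]
  refine Ex_mono hδ hδ1.le fun η _ => ?_
  have h3 := NV_card (isT_Tn hK η o)
  have h4 : (NV K η o (Tn K η o)).card ≤ Fintype.card V := card_le_univ _
  exact_mod_cast (by omega : (JB K η o (Tn K η o)).card ≤ Fintype.card V)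

include hdeg

/-- births with earlier siblings -/
theorem mSb : Ex K δ S (fun η => ∑ b ∈ JB K η o (Tn K η o), (Sb K η o b : ℝ)) ≤
    (δ * K / (1 - δ * S.card)) * Δ * mB K δ S o := by
  have h0 : 0 < 1 - δ * S.card := by linarith
  have h1 := comp_up hK hδ hδ1.le hSS (o := o) (F := FN K o fun η j => (Sb K η o j : ℝ))
    (adp_FN fun η η' j h => by rw [h.sb]) (fun η j z => by
      unfold FN; split_ifs
      · exact Nat.cast_nonneg _
      · exact le_rfl)
  have h2 : Ex K δ S (TR K o (FN K o fun η j => (Sb K η o j : ℝ))) =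
      Ex K δ S (fun η => ∑ b ∈ JB K η o (Tn K η o), (Sb K η o b : ℝ)) :=
    Ex_congr fun η _ => TR_FN K o _ η
  have h3 : Ex K δ S (FS S K o (FN K o fun η j => (Sb K η o j : ℝ))) ≤
      (Δ * K) * mB K δ S o := by
    unfold mB
    rw [← Ex_mul]
    refine Ex_mono hδ hδ1.le fun η _ => ?_
    rw [FS_FN]
    have h4 : ∑ j ∈ range (Tn K η o), ((NWs S K η o j).card : ℝ) * (Sb K η o j : ℝ) ≤
        ∑ j ∈ range (Tn K η o), (Δ : ℝ) * (Sb K η o j : ℝ) := by
      refine sum_le_sum fun j _ => mul_le_mul_of_nonneg_right ?_ (Nat.cast_nonneg _)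
      exact_mod_cast NWs_le S K η o j Δ hdeg
    refine h4.trans ?_
    rw [← mul_sum]
    have h5 := sb_sum (η := η) (o := o) hK (isT_Tn hK η o)
    have h6 : ∑ j ∈ range (Tn K η o), (Sb K η o j : ℝ) ≤
        ((JB K η o (Tn K η o)).card : ℝ) * K := by exact_mod_cast h5
    have h7 : (0 : ℝ) ≤ Δ := Nat.cast_nonneg _
    nlinarith
  rw [h2] at h1
  have h8 : (1 - δ * S.card) * Ex K δ S (fun η => ∑ b ∈ JB K η o (Tn K η o), (Sb K η o b : ℝ)) ≤
      δ * ((Δ * K) * mB K δ S o) := h1.trans (mul_le_mul_of_nonneg_left h3 hδ)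
  rw [div_mul_eq_mul_div, div_mul_eq_mul_div, le_div_iff₀ h0]
  linarith

end

end Pool.Agent.H961.T1
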