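import Pool.Agent.H961.T1.A11

/-!
# The three inequalities in mean, second part
-/

set_option autoImplicit false
set_option linter.unusedSectionVars false
set_option linter.unusedVariables false

namespace Pool.Agent.H961.T1

open Finset Equiv

variable {V : Type} [Fintype V] [DecidableEq V]

section
variable {K : ℕ} (hK : 0 < K) {δ : ℝ} (hδ : 0 ≤ δ) {S : Finset (Perm V)} (hδ1 : δ * S.card < 1)
  (hSS : SwS S) {o : V} {Δ : ℕ} (hdeg : ∀ x : V, Nat.card {z : V // Ad S x z} ≤ Δ)
  {τ : ℝ} (hτ : τ = δ * K / (1 - δ * S.card))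

include hK hδ hδ1 hSS hτ hdeg

theorem tau_nonneg : 0 ≤ τ := by
  rw [hτ]
  apply div_nonneg
  · positivity
  · linarith

/-- from `comp_up` in terms of `τ` -/
theorem comp_up' {F : (ℕ → Perm V) → ℕ → V → ℝ}
    (hF : Adp S K o F) (hF0 : ∀ η j z, 0 ≤ F η j z) :
    K * Ex K δ S (TR K o F) ≤ τ * Ex K δ S (FS S K o F) := by
  have h0 : 0 < 1 - δ * S.card := by linarith
  have h1 := comp_up hK hδ hδ1.le hSS hF hF0
  have hK' : (0 : ℝ) < K := by exact_mod_cast hK
  generalize Ex K δ S (TR K o F) = x at *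
  generalize Ex K δ S (FS S K o F) = y at *
  rw [hτ, div_mul_eq_mul_div, le_div_iff₀ h0]
  nlinarith

theorem comp_down' {F : (ℕ → Perm V) → ℕ → V → ℝ}
    (hF : Adp S K o F) (hF0 : ∀ η j z, 0 ≤ F η j z) (hF1 : ∀ η j z, F η j z ≤ 1) :
    τ * (Ex K δ S (FS S K o F) - (Fintype.card V : ℝ) ^ 2 * K * (δ * S.card)) ≤
      K * Ex K δ S (TR K o F) := by
  have h0 : 0 < 1 - δ * S.card := by linarith
  have h1 := comp_down hK hδ hδ1.le hSS hF hF0 hF1
  have hK' : (0 : ℝ) < K := by exact_mod_cast hK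
  generalize Ex K δ S (TR K o F) = x at *
  generalize Ex K δ S (FS S K o F) = y at *
  rw [hτ, div_mul_eq_mul_div, div_le_iff₀ h0]
  nlinarith

theorem fresh_mean {a : ℝ} (ha : 0 < a) : Ex K δ S (FS S K o (fun _ _ _ => 1)) ≤
      K * (Δ * mC K δ S o - mB K δ S o + mD K δ S o + (a * mD K δ S o +
        (1 / (4 * a)) * (mB K δ S o +
        2 * Ex K δ S (fun η => ∑ b ∈ JB K η o (Tn K η o), (Sb K η o b : ℝ))))) := by
  classical
  have hK' : (0 : ℝ) < K := by exact_mod_cast hK
  have h4 : K * (Δ * mC K δ S o - mB K δ S o + mD K δ S o + (a * mD K δ S o +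
      (1 / (4 * a)) * (mB K δ S o +
      2 * Ex K δ S (fun η => ∑ b ∈ JB K η o (Tn K η o), (Sb K η o b : ℝ))))) =
      Ex K δ S (fun η => K * (Δ * (Cn K η o : ℝ) - ((JB K η o (Tn K η o)).card : ℝ) +
        (∑ v ∈ NV K η o (Tn K η o), (Uv K η o (Tn K η o) v : ℝ)) / K +
        (a * ((∑ v ∈ NV K η o (Tn K η o), (Uv K η o (Tn K η o) v : ℝ)) / K) +
        (1 / (4 * a)) * (((JB K η o (Tn K η o)).card : ℝ) +
          2 * ∑ b ∈ JB K η o (Tn K η o), (Sb K η o b : ℝ))))) := by
    unfold mC mB mD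
    rw [Ex_mul, Ex_add, Ex_add, Ex_sub, Ex_mul, Ex_add, Ex_mul, Ex_mul, Ex_add, Ex_mul]
  rw [h4]
  refine Ex_mono hδ hδ1.le fun η hη => ?_
  rw [FS_one]
  have hT := isT_Tn hK η o
  have h5 := visited_neighbours S hK hSS hη hT
  have h6 : ∀ j ∈ range (Tn K η o), ((FRs S K η o j).card : ℝ) + ((NVs S K η o j).card : ℝ) ≤
      Δ := fun j _ => by exact_mod_cast fresh_add_visited (K := K) (η := η) (o := o) S j Δ hdeg
  have h7 := sum_le_sum h6
  rw [sum_add_distrib, sum_const, card_range, nsmul_eq_mul] at h7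
  have h8 := parents (K := K) (η := η) (o := o) (Tn K η o) (fun b hb => JB_parent hb) ha
  have h9 : (K : ℝ) * ((JB K η o (Tn K η o)).card : ℝ) ≤
      ∑ j ∈ range (Tn K η o), ((NVs S K η o j).card : ℝ) +
      ∑ v ∈ NV K η o (Tn K η o), (Uv K η o (Tn K η o) v : ℝ) +
      ∑ b ∈ JB K η o (Tn K η o), (Uv K η o (Tn K η o) (ps K η o b) : ℝ) := by
    exact_mod_cast h5
  have h10 : ((Tn K η o : ℕ) : ℝ) = (Cn K η o : ℝ) * K := by
    unfold Tn; push_cast; ring
  rw [h10] at h7
  generalize ∑ v ∈ NV K η o (Tn K η o), (Uv K η o (Tn K η o) v : ℝ) = u at *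
  generalize ∑ b ∈ JB K η o (Tn K η o), (Uv K η o (Tn K η o) (ps K η o b) : ℝ) = w at *
  generalize ∑ b ∈ JB K η o (Tn K η o), (Sb K η o b : ℝ) = q at *
  generalize ∑ j ∈ range (Tn K η o), ((NVs S K η o j).card : ℝ) = n at *
  generalize ∑ j ∈ range (Tn K η o), ((FRs S K η o j).card : ℝ) = r at *
  generalize ((JB K η o (Tn K η o)).card : ℝ) = b at *
  generalize (Cn K η o : ℝ) = c at *
  have h20 : (K : ℝ) * (Δ * c - b + u / K + (a * (u / K) + (1 / (4 * a)) * (b + 2 * q))) =
      c * K * Δ - K * b + u + (a * u + (K / (4 * a)) * (b + 2 * q)) := by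
    field_simp
  rw [h20]
  linarith

/-- The first inequality: the number of jumps across new bars. -/
theorem first_ineq {a : ℝ} (ha : 0 < a) :
    mB K δ S o + mX K δ S o ≤ τ * Δ * mC K δ S o - τ * mB K δ S o +
      τ * (1 + a) * mD K δ S o + τ * (1 + 2 * (τ * Δ)) * mB K δ S o / (4 * a) := by
  classical
  have hK' : (0 : ℝ) < K := by exact_mod_cast hK
  have hτ0 := tau_nonneg hK hδ hδ1 hSS hdeg hτ
  have h1 := comp_up' hK hδ hδ1 hSS hdeg hτ (o := o) (F := fun _ _ _ => 1)
    (fun _ _ _ _ _ _ => rfl) (fun _ _ _ => zero_le_one)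
  have h2 : Ex K δ S (TR K o (fun _ _ _ => 1)) = mB K δ S o + mX K δ S o := by
    unfold mB mX
    rw [← Ex_add]
    exact Ex_congr fun η _ => TR_one K o η
  have h3 := fresh_mean (o := o) hK hδ hδ1 hSS hdeg hτ ha
  have h13 := mSb (o := o) hK hδ hδ1 hSS hdeg
  rw [← hτ] at h13
  rw [h2] at h1
  generalize Ex K δ S (fun η => ∑ b ∈ JB K η o (Tn K η o), (Sb K η o b : ℝ)) = q at *
  generalize Ex K δ S (FS S K o (fun _ _ _ => 1)) = f at *
  generalize mB K δ S o = B at *
  generalize mX K δ S o = X at *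
  generalize mC K δ S o = C at *
  generalize mD K δ S o = D at *
  have h14 : K * (B + X) ≤ τ * (K * (Δ * C - B + D +
      (a * D + (1 / (4 * a)) * (B + 2 * (τ * Δ * B))))) := by
    refine h1.trans (mul_le_mul_of_nonneg_left (h3.trans ?_) hτ0)
    refine mul_le_mul_of_nonneg_left ?_ hK'.le
    have h15 : 0 ≤ 1 / (4 * a) := by positivity
    have h16 := mul_le_mul_of_nonneg_left h13 h15
    linarith
  have h17 : K * (B + X) ≤ K * (τ * Δ * C - τ * B +
      τ * (1 + a) * D + τ * (1 + 2 * (τ * Δ)) * B / (4 * a)) := by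
    refine h14.trans (le_of_eq ?_)
    field_simp
    ring
  exact le_of_mul_le_mul_left h17 hK'

open Classical in
theorem links_mean : Ex K δ S (fun η => ∑ b ∈ JB K η o (Tn K η o),
        (if Un K η o b then (Uv K η o (b + 1) (ps K η o b) : ℝ) / K else 0)) ≤
      Ex K δ S (fun η => ∑ j ∈ range (Tn K η o), ((PDs S K η o j).card : ℝ)) / K +
        mD K δ S o + mX K δ S o := by
  have hK' : (0 : ℝ) < K := by exact_mod_cast hK
  have h5 : Ex K δ S (fun η => ∑ j ∈ range (Tn K η o), ((PDs S K η o j).card : ℝ)) / K +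
      mD K δ S o + mX K δ S o =
      Ex K δ S (fun η => (1 / K) * ∑ j ∈ range (Tn K η o), ((PDs S K η o j).card : ℝ) +
        (∑ v ∈ NV K η o (Tn K η o), (Uv K η o (Tn K η o) v : ℝ)) / K +
        ((JO K η o (Tn K η o)).card : ℝ)) := by
    unfold mD mX
    rw [Ex_add, Ex_add, Ex_mul]
    ring
  rw [h5]
  refine Ex_mono hδ hδ1.le fun η hη => ?_
  have h6 := links S hK hSS hη (isT_Tn hK η o) (fun b => Un K η o b) (fun b hb => hb)
  have h7 : ∑ b ∈ (JB K η o (Tn K η o)).filter (fun b => Un K η o b),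
      (Uv K η o (b + 1) (ps K η o b) : ℝ) ≤
      ∑ j ∈ range (Tn K η o), ((PDs S K η o j).card : ℝ) +
      ∑ v ∈ NV K η o (Tn K η o), (Uv K η o (Tn K η o) v : ℝ) +
      ((JO K η o (Tn K η o)).card : ℝ) * K := by exact_mod_cast h6
  rw [← sum_filter, ← sum_div, div_le_iff₀ hK']
  refine h7.trans (le_of_eq ?_)
  generalize ∑ j ∈ range (Tn K η o), ((PDs S K η o j).card : ℝ) = p
  generalize ∑ v ∈ NV K η o (Tn K η o), (Uv K η o (Tn K η o) v : ℝ) = q
  generalize ((JO K η o (Tn K η o)).card : ℝ) = r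
  field_simp

open Classical in
theorem cut_births : Ex K δ S (fun η => ∑ b ∈ JB K η o (Tn K η o),
        (if Un K η o b then (0 : ℝ) else 1)) ≤ τ * Δ * mX K δ S o := by
  have hK' : (0 : ℝ) < K := by exact_mod_cast hK
  have hτ0 := tau_nonneg hK hδ hδ1 hSS hdeg hτ
  have h9 := comp_up' hK hδ hδ1 hSS hdeg hτ (o := o)
    (F := FN K o fun η j => if Un K η o j then (0 : ℝ) else 1)
    (adp_FN fun η η' j h => by
      have h10 := h.un
      by_cases h11 : Un K η o j
      · rw [if_pos h11, if_pos (h10.2 h11)]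
      · rw [if_neg h11, if_neg (fun h12 => h11 (h10.1 h12))])
    (fun η j z => by
      unfold FN
      by_cases h12 : Nw K η o j z
      · rw [if_pos h12]
        by_cases h13 : Un K η o j
        · simp [h13]
        · simp [h13]
      · rw [if_neg h12])
  have h10 : Ex K δ S (TR K o (FN K o fun η j => if Un K η o j then (0 : ℝ) else 1)) =
      Ex K δ S (fun η => ∑ b ∈ JB K η o (Tn K η o),
      (if Un K η o b then (0 : ℝ) else 1)) := Ex_congr fun η _ => TR_FN K o _ η
  rw [h10] at h9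
  have h11 : Ex K δ S (FS S K o (FN K o fun η j => if Un K η o j then (0 : ℝ) else 1)) ≤
      (Δ * K) * mX K δ S o := by
    unfold mX
    rw [← Ex_mul]
    refine Ex_mono hδ hδ1.le fun η _ => ?_
    rw [FS_FN]
    have h12 : ∑ j ∈ range (Tn K η o), ((NWs S K η o j).card : ℝ) *
        (if Un K η o j then (0 : ℝ) else 1) ≤
        ∑ j ∈ range (Tn K η o), (Δ : ℝ) * (if Un K η o j then (0 : ℝ) else 1) := by
      refine sum_le_sum fun j _ => mul_le_mul_of_nonneg_right ?_ (by split_ifs <;> norm_num)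
      exact_mod_cast NWs_le S K η o j Δ hdeg
    refine h12.trans ?_
    rw [← mul_sum]
    have h13 := cut_time (η := η) (o := o) hK (isT_Tn hK η o)
    have h14 : ∑ j ∈ range (Tn K η o), (if Un K η o j then (0 : ℝ) else 1) =
        (((range (Tn K η o)).filter fun j => ¬ Un K η o j).card : ℝ) := by
      rw [card_filter, Nat.cast_sum]
      refine sum_congr rfl fun j _ => ?_
      by_cases h : Un K η o j <;> simp [h]
    rw [h14]
    have h15 : (((range (Tn K η o)).filter fun j => ¬ Un K η o j).card : ℝ) ≤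
        ((JO K η o (Tn K η o)).card : ℝ) * K := by exact_mod_cast h13
    have h7 : (0 : ℝ) ≤ Δ := Nat.cast_nonneg _
    refine (mul_le_mul_of_nonneg_left h15 h7).trans (le_of_eq ?_)
    ring
  generalize Ex K δ S (fun η => ∑ b ∈ JB K η o (Tn K η o),
      (if Un K η o b then (0 : ℝ) else 1)) = x at *
  generalize Ex K δ S (FS S K o (FN K o fun η j => if Un K η o j then (0 : ℝ) else 1)) = y at *
  generalize mX K δ S o = X at *
  have h16 : K * x ≤ K * (τ * Δ * X) := by
    refine h9.trans ((mul_le_mul_of_nonneg_left h11 hτ0).trans (le_of_eq ?_))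
    ring
  exact le_of_mul_le_mul_left h16 hK'

theorem cheb_mean : mB K δ S o / 2 - mB K δ S o / (2 * K) -
      τ * ((Fintype.card V : ℝ) ^ 2 * (δ * S.card)) ≤
      Ex K δ S (fun η => ∑ b ∈ JB K η o (Tn K η o), (Uv K η o (b + 1) (ps K η o b) : ℝ) / K) := by
  classical
  have hK' : (0 : ℝ) < K := by exact_mod_cast hK
  have hτ0 := tau_nonneg hK hδ hδ1 hSS hdeg hτ
  have h18 := comp_down' hK hδ hδ1 hSS hdeg hτ (o := o)
    (F := FN K o fun η j => (Uv K η o (j + 1) (ps K η o j) : ℝ) / K)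
    (adp_FN fun η η' j h => by rw [h j le_rfl, h.uv])
    (fun η j z => by
      unfold FN
      by_cases h12 : Nw K η o j z
      · rw [if_pos h12]; positivity
      · rw [if_neg h12])
    (fun η j z => by
      unfold FN
      by_cases h12 : Nw K η o j z
      · rw [if_pos h12, div_le_one hK']
        exact_mod_cast Uv_le K η o (j + 1) (ps K η o j)
      · rw [if_neg h12]; exact zero_le_one)
  have h19 : Ex K δ S (TR K o (FN K o fun η j => (Uv K η o (j + 1) (ps K η o j) : ℝ) / K)) =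
      Ex K δ S (fun η => ∑ b ∈ JB K η o (Tn K η o),
        (Uv K η o (b + 1) (ps K η o b) : ℝ) / K) := Ex_congr fun η _ => TR_FN K o _ η
  rw [h19] at h18
  have h20 := comp_up' hK hδ hδ1 hSS hdeg hτ (o := o)
    (F := FN K o fun _ _ => 1) (adp_FN fun _ _ _ _ => rfl)
    (fun η j z => by
      unfold FN
      by_cases h12 : Nw K η o j z
      · rw [if_pos h12]; exact zero_le_one
      · rw [if_neg h12])
  have h21 : Ex K δ S (TR K o (FN K o fun _ _ => 1)) = mB K δ S o := by
    unfold mB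
    refine Ex_congr fun η _ => ?_
    rw [TR_FN, sum_const, nsmul_eq_mul, mul_one]
  rw [h21] at h20
  have h22 : ((K : ℝ) - 1) * Ex K δ S (FS S K o (FN K o fun _ _ => 1)) ≤
      2 * (K * Ex K δ S (FS S K o
        (FN K o fun η j => (Uv K η o (j + 1) (ps K η o j) : ℝ) / K))) := by
    rw [← Ex_mul, ← Ex_mul, ← Ex_mul]
    refine Ex_mono hδ hδ1.le fun η _ => ?_
    rw [FS_FN, FS_FN]
    have h23 := chebyshev (η := η) (o := o) S hK (isT_Tn hK η o)
    have h24 : (K : ℝ) * ∑ j ∈ range (Tn K η o), ((NWs S K η o j).card : ℝ) *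
        ((Uv K η o (j + 1) (ps K η o j) : ℝ) / K) =
        ∑ j ∈ range (Tn K η o), ((NWs S K η o j).card : ℝ) *
          (Uv K η o (j + 1) (ps K η o j) : ℝ) := by
      rw [mul_sum]
      refine sum_congr rfl fun j _ => ?_
      field_simp
    rw [h24]
    simpa using h23
  have h25 : (1 : ℝ) ≤ K := by exact_mod_cast hK
  generalize Ex K δ S (FS S K o (FN K o fun _ _ => 1)) = E1 at *
  generalize Ex K δ S (FS S K o
        (FN K o fun η j => (Uv K η o (j + 1) (ps K η o j) : ℝ) / K)) = E2 at *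
  generalize Ex K δ S (fun η => ∑ b ∈ JB K η o (Tn K η o),
        (Uv K η o (b + 1) (ps K η o b) : ℝ) / K) = E3 at *
  generalize mB K δ S o = B at *
  generalize (Fintype.card V : ℝ) ^ 2 = v at *
  generalize hk : (K : ℝ) = k at *
  have h26 : (k - 1) * (k * B) ≤ τ * (2 * (k * E2)) := by
    calc (k - 1) * (k * B) ≤ (k - 1) * (τ * E1) :=
          mul_le_mul_of_nonneg_left h20 (by linarith)
      _ = τ * ((k - 1) * E1) := by ring
      _ ≤ τ * (2 * (k * E2)) := mul_le_mul_of_nonneg_left h22 hτ0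
  have h27 : (k - 1) * B ≤ 2 * (τ * E2) := by
    have : k * ((k - 1) * B) ≤ k * (2 * (τ * E2)) := by linarith
    exact le_of_mul_le_mul_left this hK'
  have h28 : (k - 1) * B - 2 * (τ * (v * k * (δ * S.card))) ≤
      2 * (k * E3) := by linarith
  have h29 : (2 * k) * (B / 2 - B / (2 * k) - τ * (v * (δ * S.card))) ≤ (2 * k) * E3 := by
    have h30 : (2 * k) * (B / 2 - B / (2 * k) - τ * (v * (δ * S.card))) = (k - 1) * B -
      2 * (τ * (v * k * (δ * S.card))) := by
      field_simp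
    rw [h30]
    linarith
  exact le_of_mul_le_mul_left h29 (by positivity)

/-- The third inequality: the number of splits. -/
theorem third_ineq : τ * (mB K δ S o / 2 - (1 + τ * Δ) * mX K δ S o - mD K δ S o -
    (mB K δ S o / (2 * K) + (1 + τ) * ((Fintype.card V : ℝ) ^ 2 * (δ * S.card)))) ≤
      mS K δ S o := by
  classical
  have hK' : (0 : ℝ) < K := by exact_mod_cast hK
  have hτ0 := tau_nonneg hK hδ hδ1 hSS hdeg hτ
  -- the pieces
  have h1 := comp_down' hK hδ hδ1 hSS hdeg hτ (o := o) (F := FP K o) adp_FP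
    (fun η j z => by
      unfold FP
      by_cases h12 : (∃ i ≤ j, ps K η o i = z) ∧ Pe K η o j z
      · rw [if_pos h12]; exact zero_le_one
      · rw [if_neg h12])
    (fun η j z => by
      unfold FP
      by_cases h12 : (∃ i ≤ j, ps K η o i = z) ∧ Pe K η o j z
      · rw [if_pos h12]
      · rw [if_neg h12]; exact zero_le_one)
  have h2 : Ex K δ S (TR K o (FP K o)) = mS K δ S o := Ex_congr fun η _ => TR_FP K o η
  have h3 : Ex K δ S (FS S K o (FP K o)) =
      Ex K δ S (fun η => ∑ j ∈ range (Tn K η o), ((PDs S K η o j).card : ℝ)) :=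
    Ex_congr fun η _ => FS_FP S K o η
  rw [h2, h3] at h1
  have h4 := links_mean (o := o) hK hδ hδ1 hSS hdeg hτ
  have h8 := cut_births (o := o) hK hδ hδ1 hSS hdeg hτ
  have h17 := cheb_mean (o := o) hK hδ hδ1 hSS hdeg hτ
  -- split
  have h31 : Ex K δ S (fun η => ∑ b ∈ JB K η o (Tn K η o), (Uv K η o (b + 1) (ps K η o b) : ℝ) / K)
      ≤ Ex K δ S (fun η => ∑ b ∈ JB K η o (Tn K η o),
        (if Un K η o b then (Uv K η o (b + 1) (ps K η o b) : ℝ) / K else 0)) +
        Ex K δ S (fun η => ∑ b ∈ JB K η o (Tn K η o),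
        (if Un K η o b then (0 : ℝ) else 1)) := by
    rw [← Ex_add]
    refine Ex_mono hδ hδ1.le fun η _ => ?_
    rw [← sum_add_distrib]
    refine sum_le_sum fun b _ => ?_
    by_cases h : Un K η o b
    · rw [if_pos h, if_pos h, add_zero]
    · rw [if_neg h, if_neg h, zero_add, div_le_one hK']
      exact_mod_cast Uv_le K η o (b + 1) (ps K η o b)
  generalize Ex K δ S (fun η => ∑ j ∈ range (Tn K η o), ((PDs S K η o j).card : ℝ)) = E4 at *
  generalize Ex K δ S (fun η => ∑ b ∈ JB K η o (Tn K η o),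
    (Uv K η o (b + 1) (ps K η o b) : ℝ) / K) = E5 at *
  generalize Ex K δ S (fun η => ∑ b ∈ JB K η o (Tn K η o),
        (if Un K η o b then (Uv K η o (b + 1) (ps K η o b) : ℝ) / K else 0)) = E6 at *
  generalize Ex K δ S (fun η => ∑ b ∈ JB K η o (Tn K η o),
        (if Un K η o b then (0 : ℝ) else 1)) = E7 at *
  generalize mB K δ S o = B at *
  generalize mX K δ S o = X at *
  generalize mD K δ S o = D at *
  generalize mS K δ S o = Z at *
  generalize (Fintype.card V : ℝ) ^ 2 = v at *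
  generalize hk : (K : ℝ) = k at *
  have h32 : B / 2 - B / (2 * k) - τ * (v * (δ * S.card)) ≤ E4 / k + D + X + τ * Δ * X := by
    linarith
  have h33 : k * (τ * (E4 / k - v * (δ * S.card))) ≤ k * Z := by
    refine le_trans (le_of_eq ?_) h1
    field_simp
  have h34 := le_of_mul_le_mul_left h33 hK'
  refine le_trans (mul_le_mul_of_nonneg_left ?_ hτ0) h34
  linarith

end

end Pool.Agent.H961.T1
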