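import Mathlib

/-!
# The algebra
-/

set_option autoImplicit false

namespace Pool.Agent.H961.T1

theorem alg {τ Δ a μ B X S M D C e : ℝ} (hτ : 0 ≤ τ) (hΔ : 0 ≤ Δ)
    (hX : 0 ≤ X) (hD : 0 ≤ D)
    (h1 : B + X ≤ τ * Δ * C - τ * B + τ * (1 + a) * D + τ * (1 + 2 * (τ * Δ)) * B / (4 * a))
    (hC : C = 1 + B - D) (hXS : X = S + M) (hSM : S - M ≤ D)
    (h3 : τ * (B / 2 - (1 + τ * Δ) * X - D - e) ≤ S) (hμ0 : 0 ≤ μ)
    (hμ1 : μ * (1 + 2 * τ * (1 + τ * Δ)) ≤ 1)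
    (hμ2 : μ * (1 + 2 * τ) ≤ τ * Δ - τ * (1 + a)) :
    B * (1 - τ * Δ + τ - τ * (1 + 2 * (τ * Δ)) / (4 * a) + τ * μ) ≤
      τ * Δ + 2 * τ * μ * e := by
  have h4 : S ≤ (X + D) / 2 := by linarith
  have h5 : τ * (B / 2 - (1 + τ * Δ) * X - D - e) ≤ (X + D) / 2 := h3.trans h4
  have h6 : μ * (τ * B) ≤ μ * (1 + 2 * τ * (1 + τ * Δ)) * X + μ * (1 + 2 * τ) * D +
      2 * τ * μ * e := by
    have := mul_le_mul_of_nonneg_left h5 (by linarith : (0 : ℝ) ≤ 2 * μ)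
    nlinarith
  have h7 : μ * (1 + 2 * τ * (1 + τ * Δ)) * X ≤ 1 * X := mul_le_mul_of_nonneg_right hμ1 hX
  have h8 : μ * (1 + 2 * τ) * D ≤ (τ * Δ - τ * (1 + a)) * D := mul_le_mul_of_nonneg_right hμ2 hD
  have h9 : τ * (1 + 2 * (τ * Δ)) * B / (4 * a) = B * (τ * (1 + 2 * (τ * Δ)) / (4 * a)) := by ring
  rw [h9, hC] at h1
  generalize τ * (1 + 2 * (τ * Δ)) / (4 * a) = q at *
  nlinarith

/-- the choice of the parameters -/
theorem params {t Δ ε : ℝ} (hε0 : 0 < ε) (hε1 : ε ≤ 1) (hΔ : 64 / ε ^ 2 ≤ Δ) (ht0 : 0 ≤ t)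
    (ht : t * (Δ - 2 + ε) ≤ 1) (hy : 3 / 4 ≤ t * Δ) :
    ∃ a μ : ℝ, 0 < a ∧ 0 ≤ μ ∧ μ ≤ 1 ∧ μ * (1 + 2 * t * (1 + t * Δ)) < 1 ∧
      μ * (1 + 2 * t) < t * Δ - t * (1 + a) ∧
      t * ε / 2 ≤ 1 - t * Δ + t - t * (1 + 2 * (t * Δ)) / (4 * a) + t * μ ∧
      0 < t ∧ 2 * (1 + 2 * t) / (t * ε) ≤ 4 * Δ / ε := by
  have hε2 : ε ^ 2 ≤ 1 := by nlinarith
  have hΔ64 : 64 ≤ Δ := by
    refine le_trans ?_ hΔ
    rw [le_div_iff₀ (by positivity)]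
    nlinarith
  have hΔε : 64 ≤ Δ * ε ^ 2 := by
    rwa [div_le_iff₀ (by positivity)] at hΔ
  have hΔε1 : 64 ≤ Δ * ε := by nlinarith
  have ht1 : t * (Δ - 2) ≤ 1 := by nlinarith
  -- `t ≤ ε^2 / 60`
  have ht2 : t * 62 ≤ ε ^ 2 := by
    have h1 : t * (62 / 64 * Δ) ≤ 1 := by nlinarith
    have h2 : t * Δ * ε ^ 2 ≤ 64 / 62 * ε ^ 2 := by nlinarith
    nlinarith
  have ht3 : t * 62 ≤ ε := by nlinarith
  have hy1 : t * Δ ≤ 64 / 62 := by nlinarith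
  have htpos : 0 < t := by
    rcases ht0.lt_or_eq with h | h
    · exact h
    · rw [← h] at hy; norm_num at hy
  refine ⟨ε / 12 * Δ, min 1 (t * Δ) - ε / 4, by positivity, ?_, ?_, ?_, ?_, ?_, htpos, ?_⟩
  · have : (3 : ℝ) / 4 ≤ min 1 (t * Δ) := le_min (by norm_num) hy
    linarith
  · have : min 1 (t * Δ) ≤ 1 := min_le_left _ _
    linarith
  · have h1 : min 1 (t * Δ) ≤ 1 := min_le_left _ _
    have h2 : 2 * t * (1 + t * Δ) ≤ 5 * t := by nlinarith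
    have h0 : (0 : ℝ) ≤ 1 - ε / 4 := by linarith
    calc (min 1 (t * Δ) - ε / 4) * (1 + 2 * t * (1 + t * Δ))
        ≤ (1 - ε / 4) * (1 + 2 * t * (1 + t * Δ)) := by
          apply mul_le_mul_of_nonneg_right (by linarith); positivity
      _ ≤ (1 - ε / 4) * (1 + 5 * t) := mul_le_mul_of_nonneg_left (by linarith) h0
      _ < 1 := by nlinarith
  · have h1 : min 1 (t * Δ) ≤ t * Δ := min_le_right _ _
    calc (min 1 (t * Δ) - ε / 4) * (1 + 2 * t) ≤ (t * Δ - ε / 4) * (1 + 2 * t) :=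
          mul_le_mul_of_nonneg_right (by linarith) (by linarith)
      _ < t * Δ - t * (1 + ε / 12 * Δ) := by
          have h2 : t * (ε / 12 * Δ) ≤ ε / 12 * (64 / 62) := by
            have : t * (ε / 12 * Δ) = ε / 12 * (t * Δ) := by ring
            rw [this]
            exact mul_le_mul_of_nonneg_left hy1 (by positivity)
          have h3 : t * Δ * (2 * t) ≤ (64 / 62) * (2 * t) :=
            mul_le_mul_of_nonneg_right hy1 (by linarith)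
          nlinarith [mul_pos hε0 htpos]
  · have h1 : t * (1 + 2 * (t * Δ)) / (4 * (ε / 12 * Δ)) ≤ t * (ε / 4) := by
      have h2 : 4 * (ε / 12 * Δ) = ε * Δ / 3 := by ring
      rw [h2, div_le_iff₀ (by positivity)]
      have h3 : 1 + 2 * (t * Δ) ≤ 4 := by linarith
      have h4 : (4 : ℝ) ≤ ε / 4 * (ε * Δ / 3) := by nlinarith
      calc t * (1 + 2 * (t * Δ)) ≤ t * 4 := mul_le_mul_of_nonneg_left h3 ht0
        _ ≤ t * (ε / 4 * (ε * Δ / 3)) := mul_le_mul_of_nonneg_left h4 ht0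
        _ = t * (ε / 4) * (ε * Δ / 3) := by ring
    rcases le_total 1 (t * Δ) with h | h
    · rw [min_eq_left h]
      nlinarith
    · rw [min_eq_right h]
      have h5 : 0 ≤ (1 - t * Δ) * (1 - t) := mul_nonneg (by linarith) (by linarith)
      nlinarith
  · rw [div_le_div_iff₀ (by positivity) hε0]
    have h1 : 2 * (1 + 2 * t) ≤ 4 * Δ * t := by nlinarith
    calc 2 * (1 + 2 * t) * ε ≤ (4 * Δ * t) * ε := mul_le_mul_of_nonneg_right h1 hε0.le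
      _ = 4 * Δ * (t * ε) := by ring

end Pool.Agent.H961.T1
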