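import Pool.Agent.H961.T1.A12
import Pool.Agent.H961.T1.A13
import Pool.Graph.R_seed8.Y998.ST.Stir

/-!
# Many slices: the law of stirring
-/

set_option autoImplicit false
set_option linter.unusedSectionVars false

namespace Pool.Agent.H961.T1

open Finset Equiv Filter Topology
open Pool.Agent.Y998.ST (stirLaw stirExp totalRate TT TT_words cycleLen)

variable {V : Type} [Fintype V] [DecidableEq V]

theorem P_ext_le {K : ℕ} (f : Fin (K + 1) → Perm V) {i : ℕ} (hi : i ≤ K) :
    P (K + 1) (ext (K + 1) f) i = P K (ext K (fun i => f i.castSucc)) i := by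
  induction i with
  | zero => rfl
  | succ i ih =>
    rw [P_succ, P_succ, ih (by omega), Nat.mod_eq_of_lt (by omega : i < K + 1),
      Nat.mod_eq_of_lt (by omega : i < K)]
    congr 1
    unfold ext
    rw [dif_pos (by omega : i < K + 1), dif_pos (by omega : i < K)]
    rfl

theorem P_ext_succ {K : ℕ} (f : Fin (K + 1) → Perm V) :
    P (K + 1) (ext (K + 1) f) (K + 1) =
      f (Fin.last K) * P K (ext K (fun i => f i.castSucc)) K := by
  rw [P_succ, P_ext_le f le_rfl, Nat.mod_eq_of_lt (by omega : K < K + 1)]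
  congr 1
  unfold ext
  rw [dif_pos (by omega : K < K + 1)]
  rfl

theorem Ex_succ {K : ℕ} {δ : ℝ} {S : Finset (Perm V)} (G : Perm V → ℝ) :
    Ex (K + 1) δ S (fun η => G (P (K + 1) η (K + 1))) =
      Ex K δ S (fun η => ∑ s, mu δ S s * G (s * P K η K)) := by
  unfold Ex
  rw [← Equiv.sum_comp (Fin.snocEquiv (fun _ : Fin (K + 1) => Perm V)), Fintype.sum_prod_type_right]
  refine sum_congr rfl fun f _ => ?_
  rw [mul_sum]
  refine sum_congr rfl fun s _ => ?_
  show (∏ i, mu δ S ((Fin.snocEquiv (fun _ : Fin (K + 1) => Perm V)) (s, f) i)) *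
    G (P (K + 1) (ext (K + 1) ((Fin.snocEquiv (fun _ : Fin (K + 1) => Perm V)) (s, f))) (K + 1)) = _
  rw [P_ext_succ, Fin.prod_univ_castSucc]
  have h1 : ∀ i : Fin K, (Fin.snocEquiv (fun _ : Fin (K + 1) => Perm V)) (s, f) i.castSucc = f i :=
    fun i => by simp [Fin.snocEquiv]
  have h2 : (Fin.snocEquiv (fun _ : Fin (K + 1) => Perm V)) (s, f) (Fin.last K) = s := by
    simp [Fin.snocEquiv]
  simp only [h1, h2]
  ring

theorem sum_mu_mul {δ : ℝ} {S : Finset (Perm V)} (hSS : SwS S) (H : Perm V → ℝ) :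
    ∑ s, mu δ S s * H s = (1 - δ * S.card) * H 1 + δ * ∑ s ∈ S, H s := by
  have h1 : ∀ s, mu δ S s * H s = (if s = 1 then (1 - δ * S.card) * H s else 0) +
      (if s ∈ S then δ * H s else 0) := by
    intro s
    unfold mu
    by_cases h : s = 1
    · subst h
      simp [one_notMem hSS]
    · simp [h]
  rw [sum_congr rfl fun s _ => h1 s, sum_add_distrib, ← sum_filter, ← sum_filter,
    filter_eq' univ (1 : Perm V), if_pos (mem_univ _), sum_singleton, mul_sum]
  congr 1
  apply sum_congr _ fun _ _ => rfl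
  ext s; simp

/-- The rates of a graph. -/
noncomputable def gRate (G : SimpleGraph V) (x y : V) : ℝ :=
  open Classical in if G.Adj x y then 1 else 0

open Classical in
/-- The transpositions along the edges of a graph. -/
noncomputable def gS (G : SimpleGraph V) : Finset (Perm V) :=
  univ.filter fun s => ∃ x y, G.Adj x y ∧ s = swap x y

theorem swS_gS (G : SimpleGraph V) : SwS (gS G) := by
  classical
  intro s hs
  obtain ⟨x, y, h1, h2⟩ := (mem_filter.1 hs).2
  exact ⟨x, y, h1.ne, h2⟩

theorem swap_eq_swap {x y a b : V} (hxy : x ≠ y) (h : swap x y = swap a b) :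
    (x = a ∧ y = b) ∨ (x = b ∧ y = a) := by
  have h1 : swap a b x = y := by rw [← h, swap_apply_left]
  by_cases h2 : x = a
  · left
    refine ⟨h2, ?_⟩
    rw [← h1, h2, swap_apply_left]
  · by_cases h3 : x = b
    · right
      refine ⟨h3, ?_⟩
      rw [← h1, h3, swap_apply_right]
    · exfalso
      rw [swap_apply_of_ne_of_ne h2 h3] at h1
      exact hxy h1

theorem mem_gS {G : SimpleGraph V} {x y : V} (hxy : x ≠ y) : swap x y ∈ gS G ↔ G.Adj x y := by
  classical
  unfold gS
  rw [mem_filter]
  constructor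
  · rintro ⟨_, a, b, h1, h2⟩
    rcases swap_eq_swap hxy h2 with ⟨rfl, rfl⟩ | ⟨rfl, rfl⟩
    · exact h1
    · exact h1.symm
  · intro h
    exact ⟨mem_univ _, x, y, h, rfl⟩

/-- a sum over the edges -/
theorem sum_gRate (G : SimpleGraph V) (H : Perm V → ℝ) :
    ∑ x, ∑ y, gRate G x y / 2 * H (swap x y) = ∑ s ∈ gS G, H s := by
  classical
  have h1 : ∀ x y, gRate G x y / 2 * H (swap x y) =
      ∑ s ∈ gS G, (if G.Adj x y ∧ swap x y = s then H s / 2 else 0) := by
    intro x y
    by_cases h : G.Adj x y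
    · have h2 : swap x y ∈ gS G := (mem_gS h.ne).2 h
      rw [sum_eq_single_of_mem _ h2]
      · unfold gRate
        rw [if_pos h, if_pos ⟨h, rfl⟩]; ring
      · intro s _ hs
        rw [if_neg]
        rintro ⟨_, h3⟩
        exact hs h3.symm
    · unfold gRate
      rw [if_neg h, sum_eq_zero]
      · ring
      · intro s _
        rw [if_neg]
        rintro ⟨h3, _⟩
        exact h h3
  simp only [h1]
  rw [sum_congr rfl fun x _ => sum_comm, sum_comm]
  refine sum_congr rfl fun s hs => ?_
  obtain ⟨a, b, hab, rfl⟩ := (mem_filter.1 hs).2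
  have h2 : ∀ x y, (if G.Adj x y ∧ swap x y = swap a b then H (swap a b) / 2 else 0) =
      (if x = a then if y = b then H (swap a b) / 2 else 0 else 0) +
      (if x = b then if y = a then H (swap a b) / 2 else 0 else 0) := by
    intro x y
    by_cases h3 : G.Adj x y ∧ swap x y = swap a b
    · rw [if_pos h3]
      rcases swap_eq_swap h3.1.ne h3.2 with ⟨rfl, rfl⟩ | ⟨rfl, rfl⟩
      · simp [h3.1.ne]
      · simp [h3.1.ne]
    · rw [if_neg h3]
      by_cases h4 : x = a
      · subst h4
        by_cases h5 : y = b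
        · subst h5
          exact absurd ⟨hab, rfl⟩ h3
        · simp [h5, hab.ne]
      · by_cases h5 : x = b
        · subst h5
          by_cases h6 : y = a
          · subst h6
            exact absurd ⟨hab.symm, swap_comm _ _⟩ h3
          · simp [h4, h6]
        · simp [h4, h5]
  simp only [h2, sum_add_distrib]
  simp

theorem totalRate_gRate (G : SimpleGraph V) : totalRate (gRate G) = (gS G).card := by
  unfold totalRate
  have := sum_gRate G fun _ => 1
  simp only [mul_one] at this
  rw [this]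
  simp

theorem TT_symm (J : V → V → ℝ) (g h : Perm V) : TT J g h = TT J h g := by
  unfold TT
  refine sum_congr rfl fun x _ => sum_congr rfl fun y _ => ?_
  congr 2
  apply propext
  constructor
  · intro h1; rw [h1, ← mul_assoc, swap_mul_self, one_mul]
  · intro h1; rw [h1, ← mul_assoc, swap_mul_self, one_mul]

theorem TT_pow_symm (J : V → V → ℝ) (n : ℕ) (g h : Perm V) :
    (TT J ^ n) g h = (TT J ^ n) h g := by
  have h1 : (TT J).transpose = TT J := by
    ext a b; exact TT_symm J b a
  have h2 : (TT J ^ n).transpose = TT J ^ n := by rw [Matrix.transpose_pow, h1]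
  calc (TT J ^ n) g h = (TT J ^ n).transpose h g := rfl
    _ = (TT J ^ n) h g := by rw [h2]

/-- the operator of one slice -/
noncomputable def AA (δ : ℝ) (G : SimpleGraph V) : Matrix (Perm V) (Perm V) ℝ :=
  δ • TT (gRate G) + (1 - δ * (gS G).card) • (1 : Matrix (Perm V) (Perm V) ℝ)

theorem AA_mulVec (δ : ℝ) (G : SimpleGraph V) (H : Perm V → ℝ) (g : Perm V) :
    (AA δ G).mulVec H g = ∑ s, mu δ (gS G) s * H (s * g) := by
  rw [sum_mu_mul (swS_gS G) (fun s => H (s * g))]
  unfold AA
  rw [Matrix.add_mulVec, Matrix.smul_mulVec, Matrix.smul_mulVec, Matrix.one_mulVec,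
    Pi.add_apply, Pi.smul_apply, Pi.smul_apply, smul_eq_mul, smul_eq_mul, one_mul, add_comm]
  congr 2
  rw [← sum_gRate G (fun s => H (s * g))]
  unfold Matrix.mulVec dotProduct TT
  simp only [sum_mul]
  rw [sum_comm]
  refine sum_congr rfl fun x _ => ?_
  rw [sum_comm]
  refine sum_congr rfl fun y _ => ?_
  rw [sum_eq_single_of_mem (swap x y * g) (mem_univ _)]
  · simp
  · intro h _ hh
    rw [if_neg hh]; ring

theorem Ex_law (δ : ℝ) (G : SimpleGraph V) : ∀ (K : ℕ) (H : Perm V → ℝ),
    Ex K δ (gS G) (fun η => H (P K η K)) = ((AA δ G) ^ K).mulVec H 1 := by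
  intro K
  induction K with
  | zero =>
    intro H
    unfold Ex
    simp [P_zero]
  | succ K ih =>
    intro H
    rw [Ex_succ]
    have h1 := ih ((AA δ G).mulVec H)
    rw [pow_succ, ← Matrix.mulVec_mulVec, ← h1]
    congr 1
    funext η
    rw [AA_mulVec]

end Pool.Agent.H961.T1
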