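import Pool.Agent.H961.T1.A14

/-!
# The limit of many slices
-/

set_option autoImplicit false
set_option linter.unusedSectionVars false

namespace Pool.Agent.H961.T1

open Finset Equiv Filter Topology
open Pool.Agent.Y998.ST (stirLaw stirExp totalRate TT TT_words cycleLen)

variable {V : Type} [Fintype V] [DecidableEq V]

theorem gRate_nonneg (G : SimpleGraph V) (x y : V) : 0 ≤ gRate G x y := by
  unfold gRate; split_ifs <;> norm_num

theorem TT_pow_nonneg (G : SimpleGraph V) (n : ℕ) (g : Perm V) :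
    0 ≤ (TT (gRate G) ^ n) g 1 := by
  rw [TT_words]
  refine sum_nonneg fun w _ => mul_nonneg (prod_nonneg fun i _ => ?_) ?_
  · have := gRate_nonneg G (w i).1 (w i).2
    linarith
  · split_ifs <;> norm_num

theorem TT_pow_le (G : SimpleGraph V) (n : ℕ) (g : Perm V) :
    (TT (gRate G) ^ n) g 1 ≤ ((gS G).card : ℝ) ^ n := by
  rw [TT_words, ← totalRate_gRate]
  have h1 : (totalRate (gRate G)) ^ n = ∑ w : Fin n → V × V, ∏ i, gRate G (w i).1 (w i).2 / 2 := by
    unfold totalRate
    rw [← Fintype.sum_prod_type' (fun x y => gRate G x y / 2)]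
    rw [← Fin.prod_const n (∑ x : V × V, gRate G x.1 x.2 / 2), Finset.prod_univ_sum]
    simp
  rw [h1]
  refine sum_le_sum fun w _ => ?_
  have h2 : 0 ≤ ∏ i, gRate G (w i).1 (w i).2 / 2 := prod_nonneg fun i _ => by
    have := gRate_nonneg G (w i).1 (w i).2
    linarith
  split_ifs
  · rw [mul_one]
  · rw [mul_zero]; exact h2

theorem AA_pow (δ : ℝ) (G : SimpleGraph V) (K : ℕ) (g h : Perm V) :
    ((AA δ G) ^ K) g h = ∑ n ∈ range (K + 1), (K.choose n : ℝ) * δ ^ n *
      (1 - δ * (gS G).card) ^ (K - n) * (TT (gRate G) ^ n) g h := by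
  unfold AA
  rw [Commute.add_pow]
  · rw [Matrix.sum_apply]
    refine sum_congr rfl fun n _ => ?_
    rw [smul_pow, smul_pow, one_pow, Matrix.smul_mul, Matrix.mul_smul, Matrix.mul_one,
      ← nsmul_eq_mul', Matrix.smul_apply, Matrix.smul_apply, Matrix.smul_apply, nsmul_eq_mul,
      smul_eq_mul, smul_eq_mul]
    ring
  · exact Commute.smul_right (Commute.one_right _) _

theorem law_tendsto (G : SimpleGraph V) {t : ℝ} (ht : 0 ≤ t) (g : Perm V) :
    Tendsto (fun K : ℕ => Ex K (t / K) (gS G) (fun η => if P K η K = g then (1 : ℝ) else 0))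
      atTop (𝓝 (stirLaw (gRate G) t g)) := by
  set m : ℝ := ((gS G).card : ℝ) with hm
  have hm0 : 0 ≤ m := Nat.cast_nonneg _
  have h1 : ∀ K : ℕ, Ex K (t / K) (gS G) (fun η => if P K η K = g then (1 : ℝ) else 0) =
      ∑' n, (K.choose n : ℝ) * (t / K) ^ n * (1 - (t / K) * m) ^ (K - n) *
        (TT (gRate G) ^ n) g 1 := by
    intro K
    rw [Ex_law (t / K) G K (fun s => if s = g then (1 : ℝ) else 0)]
    have h2 : ((AA (t / K) G) ^ K).mulVec (fun s => if s = g then (1 : ℝ) else 0) 1 =
        ((AA (t / K) G) ^ K) 1 g := by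
      unfold Matrix.mulVec dotProduct
      simp
    rw [h2, AA_pow, tsum_eq_sum (s := range (K + 1))]
    · refine sum_congr rfl fun n _ => ?_
      rw [TT_pow_symm (gRate G) n 1 g]
    · intro n hn
      rw [mem_range, not_lt] at hn
      rw [Nat.choose_eq_zero_of_lt (by omega)]
      simp
  have h2 : stirLaw (gRate G) t g = ∑' n : ℕ, (t ^ n / (n.factorial : ℝ)) *
      Real.exp (-(t * m)) * (TT (gRate G) ^ n) g 1 := by
    unfold stirLaw
    refine tsum_congr fun n => ?_
    rw [← TT_words, totalRate_gRate]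
    ring
  rw [h2]
  refine Tendsto.congr (fun K => (h1 K).symm) ?_
  have hK1 : Tendsto (fun K : ℕ => (K : ℝ) * (t / K)) atTop (𝓝 t) := by
    refine Tendsto.congr' ?_ (tendsto_const_nhds (x := t))
    filter_upwards [eventually_ge_atTop 1] with K hK
    have : (K : ℝ) ≠ 0 := by positivity
    field_simp
  have hK2 : Tendsto (fun K : ℕ => (K : ℝ) * (t / K * m)) atTop (𝓝 (t * m)) := by
    have := hK1.mul_const m
    refine this.congr fun K => by ring
  have hK3 : Tendsto (fun K : ℕ => t / K * m) atTop (𝓝 0) :=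
    ProbabilityTheory.tendsto_zero_of_tendsto_mul_atTop hK2
  refine tendsto_tsum_of_dominated_convergence (bound := fun n => (t * m) ^ n / n.factorial)
    (Real.summable_pow_div_factorial _) ?_ ?_
  · intro n
    refine Tendsto.mul (Tendsto.mul ?_ ?_) tendsto_const_nhds
    · exact ProbabilityTheory.tendsto_choose_mul_pow_atTop n hK1
    · have hEq : (fun K : ℕ => (1 - t / K * m) ^ (K - n)) =ᶠ[atTop]
          (fun K : ℕ => (1 - t / K * m) ^ K * ((1 - t / K * m) ^ n)⁻¹) := by
        have hlt : ∀ᶠ K : ℕ in atTop, t / K * m < 1 / 2 :=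
          hK3.eventually (Iio_mem_nhds (by norm_num))
        filter_upwards [eventually_ge_atTop n, hlt] with K hn hne
        have hne' : (1 - t / K * m) ≠ 0 := by
          have : 0 < 1 - t / K * m := by linarith
          exact this.ne'
        rw [pow_sub₀ _ hne' hn]
      refine Tendsto.congr' hEq.symm ?_
      have : Real.exp (-(t * m)) = Real.exp (-(t * m)) * (1 ^ n)⁻¹ := by simp
      rw [this]
      refine Tendsto.mul ?_ ?_
      · have h3 := Real.tendsto_one_add_pow_exp_of_tendsto (g := fun K : ℕ => -(t / K * m))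
          (t := -(t * m)) (by
            refine (hK2.neg).congr fun K => by ring)
        refine h3.congr fun K => by rw [sub_eq_add_neg]
      refine Tendsto.inv₀ (.pow ?_ n) (by simp)
      · simpa using tendsto_const_nhds.sub hK3
  · have hlt : ∀ᶠ K : ℕ in atTop, t / K * m < 1 / 2 :=
      hK3.eventually (Iio_mem_nhds (by norm_num))
    filter_upwards [eventually_ge_atTop 1, hlt] with K hK hKm n
    have hK0 : (0 : ℝ) < K := by exact_mod_cast hK
    have h3 : 0 ≤ t / K * m := by positivity
    have h4 : 0 ≤ 1 - t / K * m := by linarith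
    have h5 := TT_pow_nonneg G n g
    have h6 := TT_pow_le G n g
    have h7 : (K.choose n : ℝ) * (t / K) ^ n ≤ t ^ n / n.factorial := by
      have h8 := Nat.choose_le_pow_div (α := ℝ) n K
      calc (K.choose n : ℝ) * (t / K) ^ n ≤ (K : ℝ) ^ n / n.factorial * (t / K) ^ n :=
            mul_le_mul_of_nonneg_right h8 (by positivity)
        _ = t ^ n / n.factorial := by
            rw [div_pow]; field_simp
    rw [Real.norm_of_nonneg (by positivity)]
    calc (K.choose n : ℝ) * (t / K) ^ n * (1 - t / K * m) ^ (K - n) * (TT (gRate G) ^ n) g 1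
        ≤ (t ^ n / n.factorial) * 1 * m ^ n := by
          refine mul_le_mul (mul_le_mul h7 (pow_le_one₀ h4 (by linarith)) (by positivity)
            (by positivity)) h6 h5 (by positivity)
      _ = (t * m) ^ n / n.factorial := by rw [mul_pow]; ring

theorem exp_tendsto (G : SimpleGraph V) {t : ℝ} (ht : 0 ≤ t) (F : Perm V → ℝ) :
    Tendsto (fun K : ℕ => Ex K (t / K) (gS G) (fun η => F (P K η K)))
      atTop (𝓝 (stirExp (gRate G) t F)) := by
  unfold stirExp
  have h1 : ∀ K : ℕ, Ex K (t / K) (gS G) (fun η => F (P K η K)) =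
      ∑ g, Ex K (t / K) (gS G) (fun η => if P K η K = g then (1 : ℝ) else 0) * F g := by
    intro K
    have h2 : ∀ g, Ex K (t / K) (gS G) (fun η => if P K η K = g then (1 : ℝ) else 0) * F g =
        Ex K (t / K) (gS G) (fun η => F g * (if P K η K = g then (1 : ℝ) else 0)) := by
      intro g
      rw [Ex_mul, mul_comm]
    rw [sum_congr rfl fun g _ => h2 g, ← Ex_sum]
    congr 1
    funext η
    simp
  refine Tendsto.congr (fun K => (h1 K).symm) ?_
  exact tendsto_finset_sum _ fun g _ => (law_tendsto G ht g).mul_const _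

theorem cycleLen_eq (g : Perm V) (v : V) : cycleLen g v = Function.minimalPeriod g v := by
  classical
  have h1 := MulAction.minimalPeriod_eq_card (a := g) (b := v)
  have h2 : Function.minimalPeriod (g • · : V → V) v = Function.minimalPeriod g v := rfl
  rw [← h2, h1, ← Nat.card_eq_fintype_card]
  unfold cycleLen
  apply Nat.card_congr
  refine Equiv.subtypeEquivRight fun w => ?_
  rw [MulAction.mem_orbit_iff]
  constructor
  · rintro ⟨i, hi⟩
    exact ⟨⟨g ^ i, i, rfl⟩, hi⟩
  · rintro ⟨⟨_, i, rfl⟩, hi⟩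
    exact ⟨i, hi⟩

theorem mC_tendsto (G : SimpleGraph V) {t : ℝ} (ht : 0 ≤ t) (o : V) :
    Tendsto (fun K : ℕ => mC K (t / K) (gS G) o) atTop
      (𝓝 (stirExp (gRate G) t fun g => (cycleLen g o : ℝ))) := by
  have h1 := exp_tendsto G ht (fun g => (cycleLen g o : ℝ))
  refine h1.congr fun K => ?_
  unfold mC Cn
  congr 1
  funext η
  rw [cycleLen_eq]

end Pool.Agent.H961.T1
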