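import Pool.Agent.H961.T1.A15

/-!
# The critical time of random stirring on graphs of bounded degree
-/

set_option autoImplicit false
set_option linter.unusedSectionVars false

namespace Pool.Agent.H961.T1

open Finset Equiv Filter Topology
open Pool.Agent.Y998.ST (stirLaw stirExp totalRate TT TT_words cycleLen)

variable {V : Type} [Fintype V] [DecidableEq V]

theorem ad_gS (G : SimpleGraph V) (x z : V) : Ad (gS G) x z ↔ G.Adj x z := by
  unfold Ad
  constructor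
  · rintro ⟨h1, h2⟩; exact (mem_gS h1).1 h2
  · intro h; exact ⟨h.ne, (mem_gS h.ne).2 h⟩

/-- the function `c` -/
noncomputable def cc (Δ a μ s : ℝ) : ℝ :=
  1 - s * Δ + s - s * (1 + 2 * (s * Δ)) / (4 * a) + s * μ

theorem limit_step (G : SimpleGraph V) {Δ : ℕ} (hdeg : ∀ x, Nat.card {z : V // G.Adj x z} ≤ Δ)
    {t a μ : ℝ} (ht : 0 ≤ t) (ha : 0 < a) (hμ0 : 0 ≤ μ)
    (h1 : ∀ᶠ s in 𝓝 t, 0 ≤ s → μ * (1 + 2 * s * (1 + s * Δ)) ≤ 1)
    (h2 : ∀ᶠ s in 𝓝 t, 0 ≤ s → μ * (1 + 2 * s) ≤ s * Δ - s * (1 + a))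
    (hc : 0 < cc Δ a μ t) (o : V) :
    stirExp (gRate G) t (fun g => (cycleLen g o : ℝ)) * cc Δ a μ t ≤ cc Δ a μ t + t * Δ := by
  set m : ℝ := ((gS G).card : ℝ) with hm
  have hm0 : 0 ≤ m := Nat.cast_nonneg _
  have hinv : Tendsto (fun K : ℕ => ((K : ℝ))⁻¹) atTop (𝓝 0) := tendsto_inv_atTop_nhds_zero_nat
  have htK : Tendsto (fun K : ℕ => t / K * m) atTop (𝓝 0) := by
    have := (hinv.const_mul t).mul_const m
    simp only [mul_zero, zero_mul] at this
    refine this.congr fun K => by rw [div_eq_mul_inv]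
  have hden : Tendsto (fun K : ℕ => 1 - t / K * m) atTop (𝓝 1) := by
    simpa using (tendsto_const_nhds (x := (1 : ℝ))).sub htK
  have hτ : Tendsto (fun K : ℕ => t / K * K / (1 - t / K * m)) atTop (𝓝 t) := by
    have h3 : Tendsto (fun K : ℕ => t / (1 - t / K * m)) atTop (𝓝 t) := by
      have h4 := (tendsto_const_nhds (x := t)).div hden one_ne_zero
      rw [div_one] at h4
      exact h4
    refine h3.congr' ?_
    filter_upwards [eventually_ge_atTop 1] with K hK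
    have : (K : ℝ) ≠ 0 := by positivity
    rw [div_mul_cancel₀ _ this]
  have hcc : Continuous (cc Δ a μ) := by
    unfold cc
    fun_prop
  have hcK : Tendsto (fun K : ℕ => cc Δ a μ (t / K * K / (1 - t / K * m))) atTop
      (𝓝 (cc Δ a μ t)) := (hcc.tendsto t).comp hτ
  -- the error
  set eK : ℕ → ℝ := fun K => (Fintype.card V : ℝ) / 2 * ((K : ℝ))⁻¹ +
    (1 + t / K * K / (1 - t / K * m)) * ((Fintype.card V : ℝ) ^ 2 * (t / K * m)) with heK
  have heK0 : Tendsto eK atTop (𝓝 0) := by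
    have h3 := (hinv.const_mul ((Fintype.card V : ℝ) / 2)).add
      (((tendsto_const_nhds (x := (1 : ℝ))).add hτ).mul (htK.const_mul ((Fintype.card V : ℝ) ^ 2)))
    simp only [mul_zero, add_zero] at h3
    exact h3
  have hrhs : Tendsto (fun K : ℕ => cc Δ a μ (t / K * K / (1 - t / K * m)) +
      (t / K * K / (1 - t / K * m)) * Δ + 2 * (t / K * K / (1 - t / K * m)) * μ * eK K) atTop
      (𝓝 (cc Δ a μ t + t * Δ)) := by
    have h3 := (hcK.add (hτ.mul_const (Δ : ℝ))).add (((hτ.const_mul 2).mul_const μ).mul heK0)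
    simpa using h3
  have hlhs := (mC_tendsto G ht o).mul hcK
  refine le_of_tendsto_of_tendsto hlhs hrhs ?_
  filter_upwards [eventually_ge_atTop 1, htK.eventually (Iio_mem_nhds (by norm_num : (0 : ℝ) < 1)),
    hτ.eventually h1, hτ.eventually h2, hcK.eventually (Ioi_mem_nhds hc)] with K hK hKm h1 h2 hc
  have hK0 : 0 < K := hK
  have hKR : (0 : ℝ) < K := by exact_mod_cast hK0
  have hδ : 0 ≤ t / K := by positivity
  have hδ1 : t / K * (gS G).card < 1 := hKm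
  have hSS := swS_gS G
  have hdeg' : ∀ x : V, Nat.card {z : V // Ad (gS G) x z} ≤ Δ := by
    intro x
    have h3 : {z : V // Ad (gS G) x z} = {z : V // G.Adj x z} := by
      simp only [ad_gS]
    rw [h3]; exact hdeg x
  set τ : ℝ := t / K * K / (1 - t / K * m) with hτd
  have hτ0 : 0 ≤ τ := tau_nonneg hK0 hδ hδ1 hSS hdeg' hτd
  have e1 := first_ineq (o := o) hK0 hδ hδ1 hSS hdeg' hτd ha
  have e2 := mC_eq (o := o) hK0 hδ hδ1 hSS
  have e3 := mX_eq (o := o) hK0 hδ hδ1 hSS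
  have e4 := mSM (o := o) hK0 hδ hδ1 hSS
  have e5 := third_ineq (o := o) hK0 hδ hδ1 hSS hdeg' hτd
  have hB0 := mB_nonneg (o := o) hK0 hδ hδ1 hSS
  have hS0 := mS_nonneg (o := o) hK0 hδ hδ1 hSS
  have hM0 := mM_nonneg (o := o) hK0 hδ hδ1 hSS
  have hD0 := mD_nonneg (o := o) hK0 hδ hδ1 hSS
  have hBV := mB_le (o := o) hK0 hδ hδ1 hSS
  have hX0 : 0 ≤ mX K (t / K) (gS G) o := by rw [e3]; linarith
  have e6 := alg hτ0 (Nat.cast_nonneg Δ) hX0 hD0 e1 e2 e3 e4 e5 hμ0 (h1 hτ0) (h2 hτ0)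
  have he : mB K (t / K) (gS G) o / (2 * K) +
      (1 + τ) * ((Fintype.card V : ℝ) ^ 2 * (t / K * (gS G).card)) ≤ eK K := by
    rw [heK]
    show _ ≤ (Fintype.card V : ℝ) / 2 * ((K : ℝ))⁻¹ +
      (1 + τ) * ((Fintype.card V : ℝ) ^ 2 * (t / K * m))
    have h4 : mB K (t / K) (gS G) o / (2 * K) ≤ (Fintype.card V : ℝ) / 2 * ((K : ℝ))⁻¹ := by
      rw [div_mul_eq_div_div, ← div_eq_mul_inv]
      exact div_le_div_of_nonneg_right (div_le_div_of_nonneg_right hBV (by norm_num)) hKR.le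
    linarith
  have e7 : mB K (t / K) (gS G) o * cc Δ a μ τ ≤ τ * Δ + 2 * τ * μ * eK K := by
    have h5 : 2 * τ * μ * (mB K (t / K) (gS G) o / (2 * K) +
      (1 + τ) * ((Fintype.card V : ℝ) ^ 2 * (t / K * (gS G).card))) ≤ 2 * τ * μ * eK K :=
      mul_le_mul_of_nonneg_left he (by positivity)
    unfold cc
    linarith
  have e8 : mC K (t / K) (gS G) o ≤ 1 + mB K (t / K) (gS G) o := by rw [e2]; linarith
  calc mC K (t / K) (gS G) o * cc Δ a μ τ ≤ (1 + mB K (t / K) (gS G) o) * cc Δ a μ τ :=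
        mul_le_mul_of_nonneg_right e8 (le_of_lt hc)
    _ ≤ cc Δ a μ τ + τ * Δ + 2 * τ * μ * eK K := by linarith

/-- **Bounded cycles up to the second order of the critical time.** -/
theorem critical (G : SimpleGraph V) {Δ : ℕ} (hdeg : ∀ x, Nat.card {z : V // G.Adj x z} ≤ Δ)
    {ε t : ℝ} (hε0 : 0 < ε) (hε1 : ε ≤ 1) (hΔ : 64 / ε ^ 2 ≤ Δ) (ht0 : 0 ≤ t)
    (ht : t * (Δ - 2 + ε) ≤ 1) (o : V) :
    stirExp (gRate G) t (fun g => (cycleLen g o : ℝ)) ≤ 4 * Δ / ε := by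
  have hΔ64 : (64 : ℝ) ≤ Δ := by
    refine le_trans ?_ hΔ
    rw [le_div_iff₀ (by positivity)]
    nlinarith
  by_cases hy : 3 / 4 ≤ t * Δ
  · obtain ⟨a, μ, ha, hμ0, hμ1, h1, h2, h3, htpos, h4⟩ := params hε0 hε1 hΔ ht0 ht hy
    have hc : 0 < cc Δ a μ t := lt_of_lt_of_le (by positivity) h3
    have h5 : ∀ᶠ s in 𝓝 t, 0 ≤ s → μ * (1 + 2 * s * (1 + s * Δ)) ≤ 1 := by
      have hcont : Continuous fun s : ℝ => μ * (1 + 2 * s * (1 + s * Δ)) := by fun_prop
      filter_upwards [(hcont.tendsto t).eventually (Iio_mem_nhds h1)] with s hs _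
      exact le_of_lt hs
    have h6 : ∀ᶠ s in 𝓝 t, 0 ≤ s → μ * (1 + 2 * s) ≤ s * Δ - s * (1 + a) := by
      have hcont : Continuous fun s : ℝ => s * Δ - s * (1 + a) - μ * (1 + 2 * s) := by fun_prop
      have h7 : 0 < t * Δ - t * (1 + a) - μ * (1 + 2 * t) := by linarith
      filter_upwards [(hcont.tendsto t).eventually (Ioi_mem_nhds h7)] with s hs _
      have : 0 < s * Δ - s * (1 + a) - μ * (1 + 2 * s) := hs
      linarith
    have h8 := limit_step G hdeg ht0 ha hμ0 h5 h6 hc o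
    have h9 : cc Δ a μ t + t * Δ ≤ 1 + 2 * t := by
      unfold cc
      have h10 : 0 ≤ t * (1 + 2 * (t * Δ)) / (4 * a) := by positivity
      nlinarith
    have h11 : stirExp (gRate G) t (fun g => (cycleLen g o : ℝ)) * (t * ε / 2) ≤ 1 + 2 * t := by
      refine le_trans (mul_le_mul_of_nonneg_left h3 ?_) (h8.trans h9)
      exact Pool.Agent.Y998.ST.exp_nonneg (gRate_nonneg G) ht0 fun g => Nat.cast_nonneg _
    refine le_trans ?_ h4
    rw [le_div_iff₀ (by positivity)]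
    linarith
  · push Not at hy
    have hc' : 1 / 4 ≤ cc Δ 1 0 t := by
      unfold cc
      nlinarith
    have hc : 0 < cc Δ 1 0 t := by linarith
    have h5 : ∀ᶠ s in 𝓝 t, 0 ≤ s → (0 : ℝ) * (1 + 2 * s * (1 + s * Δ)) ≤ 1 :=
      Eventually.of_forall fun s _ => by rw [zero_mul]; exact zero_le_one
    have h6 : ∀ᶠ s in 𝓝 t, 0 ≤ s → (0 : ℝ) * (1 + 2 * s) ≤ s * Δ - s * (1 + 1) :=
      Eventually.of_forall fun s hs => by nlinarith
    have h8 := limit_step G hdeg ht0 one_pos le_rfl h5 h6 hc o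
    have hnn : 0 ≤ stirExp (gRate G) t (fun g => (cycleLen g o : ℝ)) :=
      Pool.Agent.Y998.ST.exp_nonneg (gRate_nonneg G) ht0 fun g => Nat.cast_nonneg _
    have h9 : cc Δ 1 0 t + t * Δ ≤ 1 + 2 * t := by
      unfold cc
      have h10 : 0 ≤ t * (1 + 2 * (t * Δ)) / (4 * 1) := by positivity
      nlinarith
    have h12 : t ≤ 1 / 64 := by nlinarith
    have h11 : stirExp (gRate G) t (fun g => (cycleLen g o : ℝ)) * (1 / 4) ≤ 1 + 2 * t :=
      (mul_le_mul_of_nonneg_left hc' hnn).trans (h8.trans h9)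
    have h13 : (5 : ℝ) ≤ 4 * Δ / ε := by
      rw [le_div_iff₀ hε0]; nlinarith
    linarith

end Pool.Agent.H961.T1
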