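import Pool.Agent.H961.T1.A16

/-!
# Macroscopic cycles and the torus
-/

set_option autoImplicit false
set_option linter.unusedSectionVars false

namespace Pool.Agent.H961.T1

open Finset Equiv Filter Topology
open Pool.Agent.Y998.ST (stirLaw stirExp totalRate cycleLen nnRate)

section
variable {V : Type} [Fintype V] [DecidableEq V]

theorem parts_cycleLen {g : Perm V} {k : ℕ} (hk : k ∈ g.partition.parts) :
    ∃ v, cycleLen g v = k := by
  rw [Perm.parts_partition, Multiset.mem_add] at hk
  rcases hk with hk | hk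
  · rw [Perm.cycleType_def, Multiset.mem_map] at hk
    obtain ⟨c, hc, rfl⟩ := hk
    have hc' : c ∈ g.cycleFactorsFinset := hc
    have hcy : c.IsCycle := (Perm.mem_cycleFactorsFinset_iff.1 hc').1
    obtain ⟨v, hv⟩ := hcy.nonempty_support
    refine ⟨v, ?_⟩
    have h1 : c = g.cycleOf v := Perm.cycle_is_cycleOf hv hc'
    have h2 : v ∈ g.support := Perm.mem_cycleFactorsFinset_support_le hc' hv
    unfold cycleLen
    rw [Nat.subtype_card c.support]
    · rfl
    · intro w
      rw [h1, Perm.mem_support_cycleOf_iff]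
      exact ⟨fun h => h.1, fun h => ⟨h, h2⟩⟩
  · have h1 := Multiset.eq_of_mem_replicate hk
    subst h1
    have h2 : Fintype.card V - g.support.card ≠ 0 := by
      intro h3
      rw [h3] at hk
      simp at hk
    have h3 : ∃ v, v ∉ g.support := by
      by_contra h4
      push Not at h4
      have h5 : g.support = univ := by ext v; simp [h4 v]
      rw [h5, card_univ] at h2
      exact h2 (Nat.sub_self _)
    obtain ⟨v, hv⟩ := h3
    refine ⟨v, ?_⟩
    rw [cycleLen_eq, Function.minimalPeriod_eq_one_iff_isFixedPt]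
    rwa [Perm.mem_support, not_not] at hv

theorem cycleLen_congr {g : Perm V} {v w : V} (h : g.SameCycle v w) :
    cycleLen g w = cycleLen g v := by
  unfold cycleLen
  apply Nat.card_congr
  exact Equiv.subtypeEquivRight fun z => ⟨fun h1 => h.trans h1, fun h1 => h.symm.trans h1⟩

theorem sum_cycleLen (g : Perm V) (v : V) : (cycleLen g v : ℝ) ^ 2 ≤ ∑ w, (cycleLen g w : ℝ) := by
  classical
  have h1 : ∑ w ∈ univ.filter (fun w => g.SameCycle v w), (cycleLen g w : ℝ) =
      (cycleLen g v : ℝ) ^ 2 := by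
    rw [sum_congr rfl fun w hw => by rw [cycleLen_congr (mem_filter.1 hw).2], sum_const,
      nsmul_eq_mul, sq]
    congr 2
    unfold cycleLen
    rw [Nat.subtype_card (univ.filter (fun w => g.SameCycle v w))]
    intro w; simp
  rw [← h1]
  exact sum_le_sum_of_subset_of_nonneg (subset_univ _) fun _ _ _ => Nat.cast_nonneg _

/-- The event that there are at least `i` cycles with at least `a * |V|` points. -/
def ManyLong (i : ℕ) (a : ℝ) (g : Perm V) : Prop :=
  i ≤ Multiset.card (g.partition.parts.filter fun k : ℕ => a * Fintype.card V ≤ (k : ℝ))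

open Classical in
theorem manyLong_le {i : ℕ} (hi : 1 ≤ i) {a : ℝ} (ha : 0 < a) (g : Perm V) :
    (if ManyLong i a g then (1 : ℝ) else 0) ≤
      (1 / (a * Fintype.card V) ^ 2) * ∑ w, (cycleLen g w : ℝ) := by
  have h0 : 0 ≤ (1 / (a * (Fintype.card V : ℝ)) ^ 2) * ∑ w, (cycleLen g w : ℝ) :=
    mul_nonneg (by positivity) (sum_nonneg fun _ _ => Nat.cast_nonneg _)
  split_ifs with h
  · unfold ManyLong at h
    have h1 : 0 < Multiset.card
        (g.partition.parts.filter fun k : ℕ => a * Fintype.card V ≤ (k : ℝ)) := by omega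
    obtain ⟨k, hk⟩ := Multiset.card_pos_iff_exists_mem.1 h1
    obtain ⟨hk1, hk2⟩ := Multiset.mem_filter.1 hk
    obtain ⟨v, hv⟩ := parts_cycleLen hk1
    have hpos : (0 : ℝ) < Fintype.card V := by
      exact_mod_cast Fintype.card_pos_iff.2 ⟨v⟩
    have h2 := sum_cycleLen g v
    rw [hv] at h2
    have h3 : (a * (Fintype.card V : ℝ)) ^ 2 ≤ (k : ℝ) ^ 2 := by
      apply pow_le_pow_left₀ (by positivity) hk2
    rw [one_div, inv_mul_eq_div, le_div_iff₀ (by positivity)]
    linarith
  · exact h0

open Classical in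
theorem manyLong_bound {J : V → V → ℝ} (hJ : ∀ x y, 0 ≤ J x y) {t : ℝ} (ht : 0 ≤ t) {M : ℝ}
    (hM : ∀ v, stirExp J t (fun g => (cycleLen g v : ℝ)) ≤ M) {i : ℕ} (hi : 1 ≤ i) {a : ℝ}
    (ha : 0 < a) (hV : 0 < Fintype.card V) :
    stirExp J t (fun g => if ManyLong i a g then (1 : ℝ) else 0) ≤
      M / (a ^ 2 * Fintype.card V) := by
  have hpos : (0 : ℝ) < Fintype.card V := by exact_mod_cast hV
  have h1 := Pool.Agent.Y998.ST.exp_mono hJ ht (fun g => manyLong_le hi ha g)
  refine h1.trans ?_
  have h2 : stirExp J t (fun g => (1 / (a * (Fintype.card V : ℝ)) ^ 2) *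
      ∑ w, (cycleLen g w : ℝ)) = (1 / (a * (Fintype.card V : ℝ)) ^ 2) *
      ∑ w, stirExp J t (fun g => (cycleLen g w : ℝ)) := by
    rw [Pool.Agent.Y998.ST.exp_sum]
    unfold stirExp
    rw [mul_sum]
    refine sum_congr rfl fun g _ => by ring
  rw [h2]
  have h3 : ∑ w, stirExp J t (fun g => (cycleLen g w : ℝ)) ≤ Fintype.card V * M := by
    refine (sum_le_sum fun w _ => hM w).trans (le_of_eq ?_)
    rw [sum_const, card_univ, nsmul_eq_mul]
  calc (1 / (a * (Fintype.card V : ℝ)) ^ 2) * ∑ w, stirExp J t (fun g => (cycleLen g w : ℝ))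
      ≤ (1 / (a * (Fintype.card V : ℝ)) ^ 2) * (Fintype.card V * M) :=
        mul_le_mul_of_nonneg_left h3 (by positivity)
    _ = M / (a ^ 2 * Fintype.card V) := by field_simp

end

/-- The nearest neighbour graph of the torus. -/
def torusG (d L : ℕ) : SimpleGraph (Fin d → ZMod L) where
  Adj x y := x ≠ y ∧ ∃ a, y = Function.update x a (x a + 1) ∨ x = Function.update y a (y a + 1)
  symm := ⟨by
    rintro x y ⟨h1, a, h2⟩
    exact ⟨h1.symm, a, h2.symm⟩⟩
  loopless := ⟨fun x h => h.1 rfl⟩

theorem nnRate_eq (d : ℕ) {L : ℕ} (hL : 2 ≤ L) : nnRate d L = gRate (torusG d L) := by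
  classical
  funext x y
  unfold nnRate gRate
  have h1 : (∃ a, y = Function.update x a (x a + 1) ∨ x = Function.update y a (y a + 1)) ↔
      (torusG d L).Adj x y := by
    constructor
    · rintro ⟨a, h⟩
      refine ⟨?_, a, h⟩
      have : Fact (1 < L) := ⟨hL⟩
      rintro rfl
      have h2 : x = Function.update x a (x a + 1) := by tauto
      have h3 := congrFun h2 a
      rw [Function.update_self] at h3
      have h4 : (1 : ZMod L) = 0 := by
        have : x a + 0 = x a + 1 := by rw [add_zero]; exact h3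
        exact (add_left_cancel this).symm
      exact one_ne_zero h4
    · rintro ⟨_, h⟩; exact h
  simp only [h1]

theorem torus_degree (d : ℕ) (L : ℕ) [NeZero L] (x : Fin d → ZMod L) :
    Nat.card {z // (torusG d L).Adj x z} ≤ 2 * d := by
  classical
  have h1 : Nat.card (Fin d × Bool) = 2 * d := by
    simp [mul_comm]
  rw [← h1]
  let q : Fin d × Bool → (Fin d → ZMod L) := fun p =>
    if p.2 then Function.update x p.1 (x p.1 + 1) else Function.update x p.1 (x p.1 - 1)
  have h3 : ∀ z, (torusG d L).Adj x z → ∃ p, q p = z := by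
    rintro z ⟨_, a, h | h⟩
    · exact ⟨(a, true), by simp [q, h]⟩
    · have h2 : z = Function.update x a (x a - 1) := by
        rw [h]
        funext b
        by_cases hb : b = a
        · subst hb; simp
        · simp [hb]
      exact ⟨(a, false), by simp [q, ← h2]⟩
  have h4 : Function.Surjective (fun p : {p : Fin d × Bool // (torusG d L).Adj x (q p)} =>
      (⟨q p.1, p.2⟩ : {z // (torusG d L).Adj x z})) := by
    rintro ⟨z, hz⟩
    obtain ⟨p, rfl⟩ := h3 z hz
    exact ⟨⟨p, hz⟩, rfl⟩
  exact (Nat.card_le_card_of_surjective _ h4).trans (Finite.card_subtype_le _)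

end Pool.Agent.H961.T1
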