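import Pool.Agent.H961.T1.A17

/-!
# The torus: no long cycles before the critical time
-/

set_option autoImplicit false

namespace Pool.Agent.H961.T1

open Finset Equiv Filter Topology
open Pool.Agent.Y998.ST (stirLaw stirExp totalRate cycleLen nnRate)

open Classical in
theorem torus_bound {d : ℕ} {ε t : ℝ} (hε0 : 0 < ε) (hε1 : ε ≤ 1) (hd : 64 / ε ^ 2 ≤ 2 * d)
    (ht0 : 0 ≤ t) (ht : t * (2 * d - 2 + ε) ≤ 1) {L : ℕ} (hL : 3 ≤ L) {i : ℕ} (hi : 1 ≤ i) {a : ℝ}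
    (ha : 0 < a) : haveI : NeZero L := ⟨by omega⟩
    stirExp (nnRate d L) t (fun g => if ManyLong i a g then (1 : ℝ) else 0) ≤
      8 * d / (ε * a ^ 2 * (L : ℝ) ^ d) := by
  haveI : NeZero L := ⟨by omega⟩
  rw [nnRate_eq d (by omega : 2 ≤ L)]
  have hΔ : 64 / ε ^ 2 ≤ ((2 * d : ℕ) : ℝ) := by push_cast; exact hd
  have ht' : t * (((2 * d : ℕ) : ℝ) - 2 + ε) ≤ 1 := by push_cast; exact ht
  have h1 := fun v => critical (torusG d L) (torus_degree d L) hε0 hε1 hΔ ht0 ht' v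
  have hV : 0 < Fintype.card (Fin d → ZMod L) := Fintype.card_pos
  have h2 := manyLong_bound (gRate_nonneg (torusG d L)) ht0 h1 hi ha hV
  refine h2.trans (le_of_eq ?_)
  have h3 : ((Fintype.card (Fin d → ZMod L) : ℕ) : ℝ) = (L : ℝ) ^ d := by
    rw [Fintype.card_fun, ZMod.card, Fintype.card_fin]; push_cast; rfl
  have hLpos : (0 : ℝ) < (L : ℝ) := by exact_mod_cast (by omega : 0 < L)
  rw [h3]
  push_cast
  field_simp
  ring

end Pool.Agent.H961.T1
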