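import Pool.Agent.H961.T1.A1

/-!
# Number of cycles and transpositions
-/

set_option autoImplicit false
set_option linter.unusedSectionVars false

namespace Pool.Agent.H961.T1

open Finset Equiv

variable {V : Type} [Fintype V] [DecidableEq V]

/-- number of cycles, fixed points included -/
noncomputable def nc (g : Perm V) : ℕ := Nat.card (Quotient (Perm.SameCycle.setoid g))

theorem nc_one : nc (1 : Perm V) = Fintype.card V := by
  unfold nc
  rw [← Nat.card_eq_fintype_card]
  refine (Nat.card_congr (Equiv.ofBijective (fun v : V =>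
    (Quotient.mk (Perm.SameCycle.setoid (1 : Perm V)) v)) ⟨?_, ?_⟩)).symm
  · intro a b h
    have h2 : (1 : Perm V).SameCycle a b := Quotient.exact h
    obtain ⟨i, hi⟩ := h2
    simpa using hi
  · intro q
    obtain ⟨a, rfl⟩ := Quotient.exists_rep q
    exact ⟨a, rfl⟩

theorem sameCycle_of_inv {α : Type} (g : Perm V) (φ : V → α) (h : ∀ x, φ (g x) = φ x) {x y : V}
    (hxy : g.SameCycle x y) : φ x = φ y := by
  obtain ⟨n, _, hn⟩ := hxy.exists_pow_eq' 
  rw [← hn]
  clear hn
  induction n with
  | zero => simp
  | succ n ih =>
    rw [pow_succ', Perm.mul_apply, h]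
    exact ih (by omega)

/-- a transposition merges at most two cycles -/
theorem nc_le (g : Perm V) (a b : V) : nc g ≤ nc (g * swap a b) + 1 := by
  classical
  unfold nc
  rw [Nat.card_eq_fintype_card, Nat.card_eq_fintype_card, ← Fintype.card_option]
  set Qa : Quotient (Perm.SameCycle.setoid g) := Quotient.mk _ a with hQa
  set Qb : Quotient (Perm.SameCycle.setoid g) := Quotient.mk _ b with hQb
  let φ : V → Quotient (Perm.SameCycle.setoid g) := fun x =>
    if Quotient.mk (Perm.SameCycle.setoid g) x = Qa then Qb else Quotient.mk _ x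
  have hφg : ∀ x, φ (g x) = φ x := by
    intro x
    have : Quotient.mk (Perm.SameCycle.setoid g) (g x) = Quotient.mk _ x := by
      apply Quotient.sound
      exact (Perm.sameCycle_apply_left).2 (Perm.SameCycle.refl g x)
    simp only [φ, this]
  have hφab : φ a = φ b := by
    simp only [φ]
    rw [if_pos hQa.symm]
    split_ifs with h
    · rfl
    · rfl
  have hφ : ∀ x, φ ((g * swap a b) x) = φ x := by
    intro x
    rw [Perm.mul_apply, hφg]
    by_cases hxa : x = a
    · rw [hxa, swap_apply_left, hφab]
    · by_cases hxb : x = b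
      · rw [hxb, swap_apply_right, hφab]
      · rw [swap_apply_of_ne_of_ne hxa hxb]
  let ψ : Quotient (Perm.SameCycle.setoid g) →
      Option (Quotient (Perm.SameCycle.setoid (g * swap a b))) := fun q =>
    if q = Qa then none else some (Quotient.mk _ q.out)
  refine Fintype.card_le_of_injective ψ ?_
  intro q q' h
  simp only [ψ] at h
  split_ifs at h with h1 h2 h2
  · rw [h1, h2]
  · have h3 := Option.some_injective _ h
    have h4 : (g * swap a b).SameCycle q.out q'.out := Quotient.exact h3
    have h5 := sameCycle_of_inv _ φ hφ h4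
    simp only [φ, Quotient.out_eq] at h5
    rwa [if_neg h1, if_neg h2] at h5

/-- a transposition of two points of one cycle splits it -/
theorem not_sameCycle_mul_swap (g : Perm V) {a b : V} (hab : a ≠ b) (h : g.SameCycle a b) :
    ¬ (g * swap a b).SameCycle a b := by
  classical
  -- minimal n > 0 with g^n b = a
  have hex : ∃ n : ℕ, 0 < n ∧ (g ^ n) b = a := by
    obtain ⟨n, hn0, _, hn⟩ := h.symm.exists_pow_eq
    exact ⟨n, hn0, hn⟩
  let n := Nat.find hex
  obtain ⟨hn0, hn⟩ := Nat.find_spec hex
  have hmin : ∀ m, 0 < m → m < n → (g ^ m) b ≠ a := fun m h0 hm he =>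
    Nat.find_min hex hm ⟨h0, he⟩
  have hb : ∀ m, 0 < m → m < n → (g ^ m) b ≠ b := by
    intro m h0 hm he
    have h1 : (g ^ (n - m)) b = a := by
      have : (g ^ n) b = (g ^ (n - m)) ((g ^ m) b) := by
        rw [← Perm.mul_apply, ← pow_add, Nat.sub_add_cancel hm.le]
      rw [← hn, this, he]
    exact hmin (n - m) (by omega) (by omega) h1
  have hpow : ∀ m, m < n → ((g * swap a b) ^ (m + 1)) a = (g ^ (m + 1)) b := by
    intro m
    induction m with
    | zero => intro _; simp
    | succ m ih =>
      intro hm
      rw [pow_succ', Perm.mul_apply, ih (by omega), Perm.mul_apply,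
        swap_apply_of_ne_of_ne (hmin _ (by omega) (by omega)) (hb _ (by omega) (by omega)),
        pow_succ' g (m + 1), Perm.mul_apply]
  have hper : ((g * swap a b) ^ n) a = a := by
    have := hpow (n - 1) (by omega)
    rw [Nat.sub_add_cancel hn0] at this
    rw [this]; exact hn
  -- orbit of a
  intro hs
  obtain ⟨k, _, hk⟩ := hs.exists_pow_eq'
  have hk2 : ((g * swap a b) ^ (k % n)) a = b := by
    have : ((g * swap a b) ^ (n * (k / n))) a = a := by
      rw [pow_mul]
      generalize k / n = q
      induction q with
      | zero => simp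
      | succ q ih => rw [pow_succ, Perm.mul_apply, hper, ih]
    have h2 : ((g * swap a b) ^ k) a = ((g * swap a b) ^ (k % n)) a := by
      conv_lhs => rw [← Nat.mod_add_div k n, pow_add, Perm.mul_apply, this]
    rw [← h2, hk]
  rcases Nat.eq_zero_or_pos (k % n) with h0 | h0
  · rw [h0] at hk2
    exact hab (by simpa using hk2)
  · have hlt : k % n < n := Nat.mod_lt _ hn0
    have := hpow (k % n - 1) (by omega)
    rw [Nat.sub_add_cancel h0] at this
    rw [this] at hk2
    exact hb _ h0 hlt hk2

theorem nc_split (g : Perm V) {a b : V} (hab : a ≠ b) (h : g.SameCycle a b) :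
    nc g + 1 ≤ nc (g * swap a b) := by
  classical
  unfold nc
  rw [Nat.card_eq_fintype_card, Nat.card_eq_fintype_card]
  have hinv : ∀ x, Quotient.mk (Perm.SameCycle.setoid g) ((g * swap a b) x) =
      Quotient.mk (Perm.SameCycle.setoid g) x := by
    intro x
    apply Quotient.sound
    change g.SameCycle _ _
    rw [Perm.mul_apply, Perm.sameCycle_apply_left]
    by_cases hxa : x = a
    · rw [hxa, swap_apply_left]; exact h.symm
    · by_cases hxb : x = b
      · rw [hxb, swap_apply_right]; exact h
      · rw [swap_apply_of_ne_of_ne hxa hxb]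
  let f : Quotient (Perm.SameCycle.setoid (g * swap a b)) →
      Quotient (Perm.SameCycle.setoid g) := fun q =>
    Quotient.liftOn q (fun x => Quotient.mk (Perm.SameCycle.setoid g) x) (by
      intro x y hxy
      exact sameCycle_of_inv (g * swap a b) _ hinv hxy)
  have hf : Function.Surjective f := by
    intro q
    obtain ⟨x, rfl⟩ := Quotient.exists_rep q
    exact ⟨Quotient.mk _ x, rfl⟩
  have hni : ¬ Function.Injective f := by
    intro hi
    have h1 : f (Quotient.mk _ a) = f (Quotient.mk _ b) := Quotient.sound h
    have h2 := hi h1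
    exact not_sameCycle_mul_swap g hab h (Quotient.exact h2)
  exact Fintype.card_lt_of_surjective_not_injective f hf hni

/-- there are at most `|V| + 1 - c` cycles if there is one with `c` points -/
theorem nc_le_card (g : Perm V) (o : V) (A : Finset V) (hA : ∀ x ∈ A, g.SameCycle o x) :
    nc g + A.card ≤ Fintype.card V + 1 := by
  classical
  unfold nc
  rw [Nat.card_eq_fintype_card]
  rw [← Finset.card_univ, ← Finset.card_univ (α := V)]
  -- map quotient minus class of o injectively into V \ A
  have h1 : (univ.erase (Quotient.mk (Perm.SameCycle.setoid g) o)).card ≤ (univ \ A).card := by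
    refine Finset.card_le_card_of_injOn (fun q => q.out) ?_ ?_
    · intro q hq
      simp only [coe_erase, coe_univ, Set.mem_sdiff, Set.mem_univ, Set.mem_singleton_iff,
        true_and] at hq
      simp only [coe_sdiff, coe_univ, Set.mem_sdiff, Set.mem_univ, mem_coe, true_and]
      intro hqA
      apply hq
      have := hA _ hqA
      rw [← Quotient.out_eq q]
      exact (Quotient.sound this).symm
    · intro q _ q' _ h
      have : q.out = q'.out := h
      rw [← Quotient.out_eq q, ← Quotient.out_eq q', this]
  rw [Finset.card_erase_of_mem (mem_univ _), Finset.card_sdiff_of_subset (subset_univ A)] at h1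
  have h2 : A.card ≤ (univ : Finset V).card := card_le_univ A
  have h3 : 0 < (univ : Finset (Quotient (Perm.SameCycle.setoid g))).card :=
    Finset.card_pos.2 ⟨Quotient.mk _ o, mem_univ _⟩
  omega

end Pool.Agent.H961.T1
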