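import Pool.Agent.H961.T1.A2

/-!
# Revealed bars, births and other jumps
-/

set_option autoImplicit false
set_option linter.unusedSectionVars false

namespace Pool.Agent.H961.T1

open Finset Equiv

variable {V : Type} [Fintype V] [DecidableEq V]

/-- every slice is trivial or a transposition -/
def Sw (K : ℕ) (η : ℕ → Perm V) : Prop :=
  ∀ k < K, η k = 1 ∨ ∃ a b, a ≠ b ∧ η k = swap a b

open Classical in
/-- the bars which have been met before time `j` -/
noncomputable def cfg (K : ℕ) (η : ℕ → Perm V) (o : V) (j k : ℕ) : Perm V :=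
  if ∃ i < j, i % K = k ∧ ps K η o (i + 1) ≠ ps K η o i then η k else 1

/-- a jump across a bar which has not been met before -/
def FJ (K : ℕ) (η : ℕ → Perm V) (o : V) (j : ℕ) : Prop :=
  ps K η o (j + 1) ≠ ps K η o j ∧ ¬ Vs K η o j (ps K η o (j + 1)) (j % K)

/-- a jump to a new vertex -/
def Bi (K : ℕ) (η : ℕ → Perm V) (o : V) (j : ℕ) : Prop :=
  ∀ i ≤ j, ps K η o i ≠ ps K η o (j + 1)

/-- a jump to an old vertex across a new bar -/
def Ol (K : ℕ) (η : ℕ → Perm V) (o : V) (j : ℕ) : Prop :=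
  FJ K η o j ∧ ∃ i ≤ j, ps K η o i = ps K η o (j + 1)

theorem Bi.fj {K : ℕ} {η : ℕ → Perm V} {o : V} {j : ℕ} (h : Bi K η o j) : FJ K η o j := by
  refine ⟨fun he => h j le_rfl he.symm, ?_⟩
  rintro ⟨i, hi, _, he⟩
  exact h i hi.le he

theorem fj_iff {K : ℕ} {η : ℕ → Perm V} {o : V} {j : ℕ} :
    FJ K η o j ↔ Bi K η o j ∨ Ol K η o j := by
  constructor
  · intro h
    by_cases hb : Bi K η o j
    · exact Or.inl hb
    · right
      refine ⟨h, ?_⟩
      unfold Bi at hb
      push Not at hb
      exact hb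
  · rintro (h | h)
    · exact h.fj
    · exact h.1

theorem Sw.swap_of_ne {K : ℕ} {η : ℕ → Perm V} (hS : Sw K η) {k : ℕ} (hk : k < K) {v : V}
    (hv : η k v ≠ v) : η k = swap v (η k v) := by
  rcases hS k hk with h | ⟨a, b, hab, h⟩
  · exact absurd (by rw [h]; rfl) hv
  · rw [h] at hv ⊢
    by_cases h1 : v = a
    · rw [h1, swap_apply_left]
    · by_cases h2 : v = b
      · rw [h2, swap_apply_right, swap_comm]
      · exact absurd (swap_apply_of_ne_of_ne h1 h2) hv

section
variable {K : ℕ} {η : ℕ → Perm V} {o : V}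

theorem jump_swap (hK : 0 < K) (hS : Sw K η) {j : ℕ} (h : ps K η o (j + 1) ≠ ps K η o j) :
    η (j % K) = swap (ps K η o j) (ps K η o (j + 1)) := by
  rw [ps_succ] at h ⊢
  exact hS.swap_of_ne (Nat.mod_lt _ hK) h

theorem cfg_zero (k : ℕ) : cfg K η o 0 k = 1 := by
  unfold cfg
  rw [if_neg]
  rintro ⟨i, hi, _⟩
  omega

theorem cfg_eq_or (j k : ℕ) : cfg K η o j k = η k ∨ cfg K η o j k = 1 := by
  unfold cfg
  split_ifs
  · exact Or.inl rfl
  · exact Or.inr rfl

theorem cfg_succ_of_ne {j k : ℕ} (h : k ≠ j % K) : cfg K η o (j + 1) k = cfg K η o j k := by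
  unfold cfg
  congr 1
  apply propext
  constructor
  · rintro ⟨i, hi, h1, h2⟩
    rcases Nat.lt_succ_iff_lt_or_eq.1 hi with h3 | h3
    · exact ⟨i, h3, h1, h2⟩
    · subst h3; exact absurd h1.symm h
  · rintro ⟨i, hi, h1, h2⟩
    exact ⟨i, by omega, h1, h2⟩

/-- no new bar is met at time `j` -/
theorem cfg_succ_same (hK : 0 < K) (hS : Sw K η) {j : ℕ} (h : ¬ FJ K η o j) :
    cfg K η o (j + 1) = cfg K η o j := by
  funext k
  by_cases hk : k = j % K
  · subst hk
    unfold cfg
    congr 1
    apply propext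
    constructor
    · rintro ⟨i, hi, h1, h2⟩
      rcases Nat.lt_succ_iff_lt_or_eq.1 hi with h3 | h3
      · exact ⟨i, h3, h1, h2⟩
      · subst h3
        -- jump at i, not fresh
        unfold FJ at h
        push Not at h
        obtain ⟨i', hi', hk', he⟩ := h h2
        refine ⟨i', hi', hk', ?_⟩
        rw [ps_succ K η o i', hk', he, jump_swap hK hS h2, swap_apply_right]
        exact h2.symm
    · rintro ⟨i, hi, h1, h2⟩
      exact ⟨i, by omega, h1, h2⟩
  · exact cfg_succ_of_ne hk

theorem cfg_head_one (hK : 0 < K) (hS : Sw K η) {j : ℕ} (ha : Al K η o j) (h : FJ K η o j) :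
    cfg K η o j (j % K) = 1 := by
  unfold cfg
  rw [if_neg]
  rintro ⟨i, hi, hk, h2⟩
  have h3 : η (j % K) = swap (ps K η o j) (ps K η o (j + 1)) := jump_swap hK hS h.1
  have h4 : η (j % K) = swap (ps K η o i) (ps K η o (i + 1)) := by
    rw [← hk]; exact jump_swap hK hS h2
  have h5 : η (j % K) (ps K η o i) ≠ ps K η o i := by
    rw [h4, swap_apply_left]; exact h2
  rw [h3] at h5
  by_cases h6 : ps K η o i = ps K η o j
  · exact ha.ne hi le_rfl hk h6
  · by_cases h7 : ps K η o i = ps K η o (j + 1)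
    · exact h.2 ⟨i, hi, hk, h7⟩
    · exact h5 (swap_apply_of_ne_of_ne h6 h7)

theorem cfg_succ_fresh (hK : 0 < K) (hS : Sw K η) {j : ℕ} (h : FJ K η o j) :
    cfg K η o (j + 1) = Function.update (cfg K η o j) (j % K)
      (swap (ps K η o j) (ps K η o (j + 1))) := by
  funext k
  by_cases hk : k = j % K
  · subst hk
    rw [Function.update_self]
    unfold cfg
    rw [if_pos ⟨j, by omega, rfl, h.1⟩]
    exact jump_swap hK hS h.1
  · rw [Function.update_of_ne hk]
    exact cfg_succ_of_ne hk

/-- the head follows the revealed bars unless it jumps across a new bar -/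
theorem cfg_step {j : ℕ} (h : ¬ FJ K η o j) (hK : 0 < K) (hS : Sw K η) :
    cfg K η o j (j % K) (ps K η o j) = ps K η o (j + 1) := by
  by_cases h1 : ps K η o (j + 1) = ps K η o j
  · rcases cfg_eq_or (K := K) (η := η) (o := o) j (j % K) with h2 | h2
    · rw [h2, ps_succ]
    · rw [h2, h1]; rfl
  · have h2 := cfg_succ_same hK hS h
    have h3 : cfg K η o (j + 1) (j % K) = η (j % K) := by
      unfold cfg
      rw [if_pos ⟨j, by omega, rfl, h1⟩]
    rw [← h2, h3, ps_succ]

theorem cfg_step_past {i j : ℕ} (hij : i < j) :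
    cfg K η o j (i % K) (ps K η o i) = ps K η o (i + 1) := by
  by_cases h1 : ps K η o (i + 1) = ps K η o i
  · rcases cfg_eq_or (K := K) (η := η) (o := o) j (i % K) with h2 | h2
    · rw [h2, ps_succ]
    · rw [h2, h1]; rfl
  · have h3 : cfg K η o j (i % K) = η (i % K) := by
      unfold cfg
      rw [if_pos ⟨i, hij, rfl, h1⟩]
    rw [h3, ps_succ]

theorem P_cfg {i j : ℕ} (hij : i ≤ j) : P K (cfg K η o j) i o = ps K η o i := by
  induction i with
  | zero => rfl
  | succ i ih =>
    rw [P_succ, Perm.mul_apply, ih (by omega)]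
    exact cfg_step_past (by omega)

/-- new vertices are isolated in the revealed configuration -/
theorem cfg_isolated (hK : 0 < K) (hS : Sw K η) {j : ℕ} (h : Bi K η o j) {k : ℕ} :
    cfg K η o j k (ps K η o (j + 1)) = ps K η o (j + 1) := by
  unfold cfg
  split_ifs with h1
  · obtain ⟨i, hi, hk, h2⟩ := h1
    rw [← hk, jump_swap hK hS h2]
    exact swap_apply_of_ne_of_ne (h i hi.le).symm (h (i + 1) (by omega)).symm
  · rfl

end

theorem P_update (K : ℕ) (ζ : ℕ → Perm V) (k : ℕ) (s : Perm V) (hk : k < K) (h1 : ζ k = 1) :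
    (∀ i ≤ k, P K (Function.update ζ k s) i = P K ζ i) ∧
    ∀ i, k < i → i ≤ K → P K (Function.update ζ k s) i = P K ζ i * ((P K ζ k)⁻¹ * s * P K ζ k) := by
  have hA : ∀ i ≤ k, P K (Function.update ζ k s) i = P K ζ i := by
    intro i
    induction i with
    | zero => intro _; rfl
    | succ i ih =>
      intro hi
      rw [P_succ, P_succ, ih (by omega), Nat.mod_eq_of_lt (by omega : i < K),
        Function.update_of_ne (by omega)]
  refine ⟨hA, ?_⟩
  intro i hi
  induction i with
  | zero => omega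
  | succ i ih =>
    intro hiK
    rcases Nat.lt_or_ge k i with h | h
    · rw [P_succ, P_succ, ih h (by omega), Nat.mod_eq_of_lt (by omega : i < K),
        Function.update_of_ne (by omega)]
      simp only [mul_assoc]
    · have : i = k := by omega
      subst this
      rw [P_succ, P_succ, hA i le_rfl, Nat.mod_eq_of_lt (by omega : i < K),
        Function.update_self, h1]
      simp [mul_assoc]

theorem conj_swap (h : Perm V) (a b : V) : h⁻¹ * swap a b * h = swap (h⁻¹ a) (h⁻¹ b) := by
  rw [mul_assoc, swap_mul_eq_mul_swap, ← mul_assoc, inv_mul_cancel, one_mul]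

/-- the return permutation of the revealed configuration -/
noncomputable def Rt (K : ℕ) (η : ℕ → Perm V) (o : V) (j : ℕ) : Perm V := P K (cfg K η o j) K

/-- the point `z` at the slice of the time `j` is on the loop of the head (revealed bars) -/
noncomputable def Pe (K : ℕ) (η : ℕ → Perm V) (o : V) (j : ℕ) (z : V) : Prop :=
  (Rt K η o j).SameCycle ((P K (cfg K η o j) (j % K))⁻¹ (ps K η o j))
    ((P K (cfg K η o j) (j % K))⁻¹ z)

theorem Rt_succ {K : ℕ} {η : ℕ → Perm V} {o : V} (hK : 0 < K) (hS : Sw K η) {j : ℕ}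
    (ha : Al K η o j) (h : FJ K η o j) :
    Rt K η o (j + 1) = Rt K η o j *
      swap ((P K (cfg K η o j) (j % K))⁻¹ (ps K η o j))
        ((P K (cfg K η o j) (j % K))⁻¹ (ps K η o (j + 1))) := by
  unfold Rt
  rw [cfg_succ_fresh hK hS h,
    (P_update K (cfg K η o j) (j % K) _ (Nat.mod_lt _ hK) (cfg_head_one hK hS ha h)).2 K
      (Nat.mod_lt _ hK) le_rfl, conj_swap]

end Pool.Agent.H961.T1
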