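import Pool.Agent.H961.T1.A3

/-!
# Balance of splits and merges, number of visited vertices
-/

set_option autoImplicit false
set_option linter.unusedSectionVars false

namespace Pool.Agent.H961.T1

open Finset Equiv

variable {V : Type} [Fintype V] [DecidableEq V]

open Classical in
/-- the births before time `n` -/
noncomputable def JB (K : ℕ) (η : ℕ → Perm V) (o : V) (n : ℕ) : Finset ℕ :=
  (range n).filter fun j => Bi K η o j

open Classical in
/-- the jumps to old vertices across new bars before time `n` -/
noncomputable def JO (K : ℕ) (η : ℕ → Perm V) (o : V) (n : ℕ) : Finset ℕ :=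
  (range n).filter fun j => Ol K η o j

open Classical in
/-- the splits before time `n` -/
noncomputable def JS (K : ℕ) (η : ℕ → Perm V) (o : V) (n : ℕ) : Finset ℕ :=
  (range n).filter fun j => Ol K η o j ∧ Pe K η o j (ps K η o (j + 1))

open Classical in
/-- the merges with old vertices before time `n` -/
noncomputable def JM (K : ℕ) (η : ℕ → Perm V) (o : V) (n : ℕ) : Finset ℕ :=
  (range n).filter fun j => Ol K η o j ∧ ¬ Pe K η o j (ps K η o (j + 1))

theorem JS_add_JM (K : ℕ) (η : ℕ → Perm V) (o : V) (n : ℕ) :
    (JS K η o n).card + (JM K η o n).card = (JO K η o n).card := by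
  classical
  unfold JS JM JO
  rw [← Finset.card_filter_add_card_filter_not
    (s := (range n).filter fun j => Ol K η o j) (fun j => Pe K η o j (ps K η o (j + 1))),
    Finset.filter_filter, Finset.filter_filter]

theorem not_bi_of_ol {K : ℕ} {η : ℕ → Perm V} {o : V} {j : ℕ} (h : Ol K η o j) :
    ¬ Bi K η o j := by
  intro hb
  obtain ⟨i, hi, he⟩ := h.2
  exact hb i hi he

theorem card_filter_succ (n : ℕ) (p : ℕ → Prop) [DecidablePred p] :
    ((range (n + 1)).filter p).card = ((range n).filter p).card + if p n then 1 else 0 := by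
  rw [range_add_one, filter_insert]
  split_ifs with h
  · rw [card_insert_of_notMem (by simp)]
  · rfl

theorem balance_aux {K : ℕ} {η : ℕ → Perm V} {o : V} (hK : 0 < K) (hS : Sw K η) {T : ℕ}
    (hT : IsT K η o T) : ∀ n ≤ T, Fintype.card V + (JS K η o n).card ≤
      nc (Rt K η o n) + (JB K η o n).card + (JM K η o n).card := by
  classical
  intro n
  induction n with
  | zero =>
    intro _
    have h0 : Rt K η o 0 = 1 := by
      unfold Rt
      have : ∀ i, P K (cfg K η o 0) i = 1 := by
        intro i
        induction i with
        | zero => rfl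
        | succ i ih => rw [P_succ, ih, cfg_zero]; rfl
      exact this K
    rw [h0, nc_one]
    simp [JS, JB, JM]
  | succ n ih =>
    intro hn
    have ih' := ih (by omega)
    have ha : Al K η o n := hT.alive (by omega)
    have e1 : (JS K η o (n + 1)).card = (JS K η o n).card +
        if Ol K η o n ∧ Pe K η o n (ps K η o (n + 1)) then 1 else 0 := card_filter_succ n _
    have e2 : (JB K η o (n + 1)).card = (JB K η o n).card + if Bi K η o n then 1 else 0 :=
      card_filter_succ n _
    have e3 : (JM K η o (n + 1)).card = (JM K η o n).card +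
        if Ol K η o n ∧ ¬ Pe K η o n (ps K η o (n + 1)) then 1 else 0 := card_filter_succ n _
    rw [e1, e2, e3]
    by_cases hf : FJ K η o n
    · have hR := Rt_succ hK hS ha hf
      have hne : (P K (cfg K η o n) (n % K))⁻¹ (ps K η o n) ≠
          (P K (cfg K η o n) (n % K))⁻¹ (ps K η o (n + 1)) := by
        intro he
        exact hf.1 ((P K (cfg K η o n) (n % K))⁻¹.injective he).symm
      have hle := nc_le (Rt K η o n) ((P K (cfg K η o n) (n % K))⁻¹ (ps K η o n))
        ((P K (cfg K η o n) (n % K))⁻¹ (ps K η o (n + 1)))
      rw [← hR] at hle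
      rcases fj_iff.1 hf with hb | hol
      · have h1 : ¬ Ol K η o n := fun h => not_bi_of_ol h hb
        rw [if_neg (fun h => h1 h.1), if_pos hb, if_neg (fun h => h1 h.1)]
        omega
      · have h1 : ¬ Bi K η o n := not_bi_of_ol hol
        by_cases hp : Pe K η o n (ps K η o (n + 1))
        · have hsp := nc_split (Rt K η o n) hne hp
          rw [← hR] at hsp
          rw [if_pos ⟨hol, hp⟩, if_neg h1, if_neg (fun h => h.2 hp)]
          omega
        · rw [if_neg (fun h => hp h.2), if_neg h1, if_pos ⟨hol, hp⟩]
          omega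
    · have hR : Rt K η o (n + 1) = Rt K η o n := by
        unfold Rt; rw [cfg_succ_same hK hS hf]
      rw [hR, if_neg (fun h => hf h.1.1), if_neg (fun h => hf h.fj), if_neg (fun h => hf h.1.1)]
      omega

/-- Splits minus merges, in terms of the cycle length `c`. -/
theorem balance {K : ℕ} {η : ℕ → Perm V} {o : V} (hK : 0 < K) (hS : Sw K η) {T c : ℕ}
    (hT : IsT K η o T) (hc : T = c * K) :
    (JS K η o T).card + c ≤ 1 + (JB K η o T).card + (JM K η o T).card := by
  classical
  have h1 := balance_aux hK hS hT T le_rfl
  have hcpos : 0 < c := by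
    rcases Nat.eq_zero_or_pos c with h | h
    · rw [h, zero_mul] at hc; have := hT.pos; omega
    · exact h
  have h2 : nc (Rt K η o T) + ((range c).image fun i => ps K η o (i * K)).card ≤
      Fintype.card V + 1 := by
    apply nc_le_card _ o
    intro x hx
    rw [mem_image] at hx
    obtain ⟨i, hi, rfl⟩ := hx
    rw [mem_range] at hi
    have h3 : ps K η o (i * K) = (Rt K η o T ^ i) o := by
      rw [← P_cfg (K := K) (η := η) (o := o) (i := i * K) (j := T)
        (by rw [hc]; exact Nat.mul_le_mul_right K hi.le), P_mul]
      rfl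
    rw [h3]
    exact (Perm.SameCycle.refl _ o).pow_right
  have h4 : ((range c).image fun i => ps K η o (i * K)).card = c := by
    rw [card_image_of_injOn, card_range]
    intro i hi i' hi' he
    rw [coe_range, Set.mem_Iio] at hi hi'
    have h5 : i * K = i' * K := by
      apply hT.ne _ _ _ he
      · rw [hc]; exact Nat.mul_lt_mul_of_pos_right hi hK
      · rw [hc]; exact Nat.mul_lt_mul_of_pos_right hi' hK
      · simp
    exact Nat.eq_of_mul_eq_mul_right hK h5
  omega

/-- number of visited vertices -/
def NV (K : ℕ) (η : ℕ → Perm V) (o : V) (n : ℕ) : Finset V := (range n).image (ps K η o)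

theorem NV_card_succ (K : ℕ) (η : ℕ → Perm V) (o : V) (n : ℕ) :
    (NV K η o (n + 1)).card = 1 + (JB K η o n).card := by
  classical
  induction n with
  | zero => simp [NV, JB]
  | succ n ih =>
    have e2 : (JB K η o (n + 1)).card = (JB K η o n).card + if Bi K η o n then 1 else 0 :=
      card_filter_succ n _
    have e1 : NV K η o (n + 1 + 1) = insert (ps K η o (n + 1)) (NV K η o (n + 1)) := by
      unfold NV
      rw [range_add_one, image_insert]
    rw [e1, e2]
    by_cases hb : Bi K η o n
    · rw [if_pos hb, card_insert_of_notMem, ih]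
      · omega
      · unfold NV
        rw [mem_image]
        rintro ⟨i, hi, he⟩
        exact hb i (by rw [mem_range] at hi; omega) he
    · rw [if_neg hb, insert_eq_of_mem, ih]
      · omega
      · unfold NV
        rw [mem_image]
        unfold Bi at hb
        push Not at hb
        obtain ⟨i, hi, he⟩ := hb
        exact ⟨i, by rw [mem_range]; omega, he⟩

theorem NV_card {K : ℕ} {η : ℕ → Perm V} {o : V} {T : ℕ} (hT : IsT K η o T) :
    (NV K η o T).card = 1 + (JB K η o T).card := by
  classical
  obtain ⟨n, rfl⟩ : ∃ n, T = n + 1 := ⟨T - 1, by have := hT.pos; omega⟩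
  rw [NV_card_succ]
  have e2 : (JB K η o (n + 1)).card = (JB K η o n).card + if Bi K η o n then 1 else 0 :=
    card_filter_succ n _
  rw [e2, if_neg, add_zero]
  intro hb
  exact hb 0 (by omega) (by rw [hT.close]; rfl)

end Pool.Agent.H961.T1
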