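import Pool.Agent.H961.T1.A4

/-!
# Links between a new vertex and its parent
-/

set_option autoImplicit false
set_option linter.unusedSectionVars false

namespace Pool.Agent.H961.T1

open Finset Equiv

variable {V : Type} [Fintype V] [DecidableEq V]
variable {K : ℕ} {η : ℕ → Perm V} {o : V}

/-- no jump across a new bar has entered the vertex of the head before time `b`, except its birth -/
def Un (K : ℕ) (η : ℕ → Perm V) (o : V) (b : ℕ) : Prop :=
  ∀ l < b, Ol K η o l → ps K η o (l + 1) ≠ ps K η o b

theorem mod_succ_eq {K a b : ℕ} (h : a % K = b % K) : (a + 1) % K = (b + 1) % K :=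
  Nat.ModEq.add_right 1 h

theorem next_visit {b : ℕ} (ha : Al K η o b) (hun : Un K η o b) :
    ∀ i, i < b → ps K η o i = ps K η o b → ∃ i', i < i' ∧ i' ≤ b ∧ ps K η o i' = ps K η o b ∧
      (∀ l, i < l → l < i' → ps K η o l ≠ ps K η o b) ∧ i' % K = (i + 1) % K := by
  classical
  intro i
  induction i using Nat.strong_induction_on with
  | _ i ih =>
    intro hib hpi
    have hex : ∃ l, i < l ∧ ps K η o l = ps K η o b := ⟨b, hib, rfl⟩
    let i' := Nat.find hex
    obtain ⟨h1, h2⟩ := Nat.find_spec hex
    have hmin : ∀ l, i < l → l < i' → ps K η o l ≠ ps K η o b := fun l hl hl' he =>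
      Nat.find_min hex hl' ⟨hl, he⟩
    have hle : i' ≤ b := Nat.find_min' hex ⟨hib, rfl⟩
    refine ⟨i', h1, hle, h2, hmin, ?_⟩
    change i < i' at h1
    change ps K η o i' = ps K η o b at h2
    rcases Nat.lt_or_ge (i + 1) i' with hlt | hge
    · -- the landing at i'
      obtain ⟨l, hl⟩ : ∃ l, i' = l + 1 := ⟨i' - 1, by omega⟩
      have hl1 : ps K η o l ≠ ps K η o b := hmin l (by omega) (by omega)
      have hl2 : ps K η o (l + 1) = ps K η o b := by rw [← hl]; exact h2
      have hne : ps K η o (l + 1) ≠ ps K η o l := by rw [hl2]; exact hl1.symm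
      have hnf : ¬ FJ K η o l := by
        intro hf
        rcases fj_iff.1 hf with hb | hol
        · exact hb i (by omega) (by rw [hl2]; exact hpi)
        · exact hun l (by omega) hol hl2
      have hv : Vs K η o l (ps K η o (l + 1)) (l % K) := by
        by_contra hc
        exact hnf ⟨hne, hc⟩
      obtain ⟨i2, hi2, hk2, he2⟩ := hv
      rw [hl2] at he2
      have hi2i : i2 ≤ i := by
        by_contra hc
        push Not at hc
        exact hmin i2 hc (by omega) he2
      rcases Nat.lt_or_ge i2 i with hlt2 | hge2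
      · obtain ⟨i3, h31, h32, h33, h34, h35⟩ := ih i2 hlt2 (by omega) he2
        have h36 : i3 ≤ i := by
          by_contra hc
          push Not at hc
          exact h34 i hlt2 hc hpi
        exfalso
        have h37 : i3 % K = i' % K := by
          rw [h35, hl]; exact mod_succ_eq hk2
        exact ha.ne (show i3 < i' by omega) hle h37 (by rw [h33, h2])
      · have : i2 = i := by omega
        rw [hl, ← this]; exact (mod_succ_eq hk2).symm
    · have : i' = i + 1 := by omega
      rw [this]

theorem add_mod_ne {K b a : ℕ} (h0 : 0 < a) (h1 : a < K) : (b + a) % K ≠ b % K := by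
  intro h
  have h2 : (b + a) ≡ b + 0 [MOD K] := by simpa [Nat.ModEq] using h
  have h3 : a ≡ 0 [MOD K] := Nat.ModEq.add_left_cancel' b h2
  have h4 : K ∣ a := (Nat.modEq_zero_iff_dvd).1 h3
  exact absurd (Nat.le_of_dvd h0 h4) (by omega)

theorem arc_unvisited {b : ℕ} (ha : Al K η o b) (hun : Un K η o b) {a : ℕ}
    (ha1 : a < K) (hk : ¬ Vs K η o (b + 1) (ps K η o b) ((b + a) % K)) :
    ∀ a', 0 < a' → a' ≤ a → ¬ Vs K η o (b + 1) (ps K η o b) ((b + a') % K) := by
  intro a' h0 hle hv
  apply hk
  have key : ∀ r, a' + r < K → Vs K η o (b + 1) (ps K η o b) ((b + (a' + r)) % K) := by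
    intro r
    induction r with
    | zero => intro _; simpa using hv
    | succ r ih =>
      intro hr
      obtain ⟨i, hi, hki, hpi⟩ := ih (by omega)
      have hib : i < b := by
        rcases Nat.lt_succ_iff_lt_or_eq.1 hi with h | h
        · exact h
        · subst h
          exact absurd hki.symm (add_mod_ne (by omega) (by omega))
      obtain ⟨i', h1, h2, h3, _, h5⟩ := next_visit ha hun i hib hpi
      refine ⟨i', by omega, ?_, h3⟩
      rw [h5]
      exact mod_succ_eq hki
  have := key (a - a') (by omega)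
  rwa [Nat.add_sub_cancel' hle] at this

theorem arc_clean (hK : 0 < K) (hS : Sw K η) {b : ℕ} (hb : Bi K η o b) {a : ℕ}
    (hunv : ∀ a', 0 < a' → a' ≤ a → ¬ Vs K η o (b + 1) (ps K η o b) ((b + a') % K)) :
    ∀ a', 0 < a' → a' < a →
      cfg K η o (b + 1) ((b + a') % K) (ps K η o b) = ps K η o b := by
  intro a' h0 hlt
  unfold cfg
  split_ifs with h
  · obtain ⟨i, hi, hki, hne⟩ := h
    have hsw := jump_swap hK hS hne
    rw [hki] at hsw
    rw [hsw]
    have h1 : ps K η o b ≠ ps K η o i := by
      intro he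
      exact hunv a' h0 hlt.le ⟨i, hi, hki, he.symm⟩
    have h2 : ps K η o b ≠ ps K η o (i + 1) := by
      intro he
      rcases Nat.lt_succ_iff_lt_or_eq.1 hi with h3 | h3
      · refine hunv (a' + 1) (by omega) (by omega) ⟨i + 1, by omega, ?_, he.symm⟩
        exact mod_succ_eq hki
      · subst h3
        exact hb i le_rfl he
    exact swap_apply_of_ne_of_ne h1 h2
  · rfl

/-- The link from the vertex born at time `b` to its parent, at slice `k`, at time `j`. -/
structure Inv (K : ℕ) (η : ℕ → Perm V) (o : V) (b k j : ℕ) : Prop where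
  ret : wk K (cfg K η o j) (ps K η o (b + 1)) k K = ps K η o b
  unv : ∀ i ≤ K, ¬ Vs K η o j (wk K (cfg K η o j) (ps K η o (b + 1)) k i) ((k + i) % K)
  head : ∀ i, 0 < i → i ≤ K →
    ¬ (wk K (cfg K η o j) (ps K η o (b + 1)) k i = ps K η o j ∧ (k + i) % K = j % K)

theorem not_vs_new {b : ℕ} (hb : Bi K η o b) (k : ℕ) :
    ¬ Vs K η o (b + 1) (ps K η o (b + 1)) k := by
  rintro ⟨i, hi, _, he⟩
  exact hb i (by omega) he

theorem inv_init (hK : 0 < K) (hS : Sw K η) {b : ℕ} (ha : Al K η o b) (hb : Bi K η o b)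
    (hun : Un K η o b) {a : ℕ} (ha0 : 0 < a) (ha1 : a < K)
    (hk : ¬ Vs K η o (b + 1) (ps K η o b) ((b + a) % K)) :
    Inv K η o b ((b + a) % K) (b + 1) := by
  have hunv := arc_unvisited ha hun ha1 hk
  have hcl := arc_clean hK hS hb hunv
  have hfresh : cfg K η o (b + 1) (b % K) = swap (ps K η o b) (ps K η o (b + 1)) := by
    rw [cfg_succ_fresh hK hS hb.fj, Function.update_self]
  have hiso : ∀ κ, κ ≠ b % K →
      cfg K η o (b + 1) κ (ps K η o (b + 1)) = ps K η o (b + 1) := by
    intro κ hκ
    rw [cfg_succ_of_ne hκ]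
    exact cfg_isolated hK hS hb
  -- the first part of the walk
  have w1 : ∀ i, i ≤ K - a →
      wk K (cfg K η o (b + 1)) (ps K η o (b + 1)) ((b + a) % K) i = ps K η o (b + 1) := by
    intro i
    induction i with
    | zero => intro _; rfl
    | succ i ih =>
      intro hi
      rw [wk, ih (by omega), Nat.mod_add_mod]
      apply hiso
      rw [show b + a + i = b + (a + i) by ring]
      exact add_mod_ne (by omega) (by omega)
  have w2 : ∀ r, r < a →
      wk K (cfg K η o (b + 1)) (ps K η o (b + 1)) ((b + a) % K) (K - a + 1 + r) =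
        ps K η o b := by
    intro r
    induction r with
    | zero =>
      intro _
      rw [add_zero, wk, w1 _ le_rfl, Nat.mod_add_mod,
        show b + a + (K - a) = b + K by omega, Nat.add_mod_right, hfresh, swap_apply_right]
    | succ r ih =>
      intro hr
      rw [show K - a + 1 + (r + 1) = (K - a + 1 + r) + 1 by ring, wk, ih (by omega),
        Nat.mod_add_mod, show b + a + (K - a + 1 + r) = (b + (r + 1)) + K by omega,
        Nat.add_mod_right]
      exact hcl (r + 1) (by omega) (by omega)
  have w3 : ∀ i ≤ K, (wk K (cfg K η o (b + 1)) (ps K η o (b + 1)) ((b + a) % K) i =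
      ps K η o (b + 1) ∧ i ≤ K - a) ∨
      (wk K (cfg K η o (b + 1)) (ps K η o (b + 1)) ((b + a) % K) i = ps K η o b ∧
        ∃ r, r < a ∧ i = K - a + 1 + r) := by
    intro i hi
    rcases Nat.lt_or_ge (K - a) i with h | h
    · right
      have h2 := w2 (i - (K - a + 1)) (by omega)
      rw [show K - a + 1 + (i - (K - a + 1)) = i by omega] at h2
      exact ⟨h2, i - (K - a + 1), by omega, by omega⟩
    · left; exact ⟨w1 i h, h⟩
  refine ⟨?_, ?_, ?_⟩
  · have := w2 (a - 1) (by omega)
    rwa [show K - a + 1 + (a - 1) = K by omega] at this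
  · intro i hi
    rcases w3 i hi with ⟨h, _⟩ | ⟨h, r, hr, hri⟩
    · rw [h]; exact not_vs_new hb _
    · rw [h, Nat.mod_add_mod, show b + a + i = (b + (r + 1)) + K by omega, Nat.add_mod_right]
      exact hunv (r + 1) (by omega) (by omega)
  · intro i hi0 hi
    rcases w3 i hi with ⟨h, h2⟩ | ⟨h, r, hr, hri⟩
    · rintro ⟨_, h3⟩
      rw [Nat.mod_add_mod] at h3
      have h4 : (b + 1 + (a + i - 1)) % K = (b + 1) % K := by
        rw [← h3]; congr 1; omega
      rcases Nat.lt_or_ge (a + i - 1) K with h5 | h5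
      · exact add_mod_ne (by omega) h5 h4
      · omega
    · rintro ⟨h3, _⟩
      rw [h] at h3
      exact hb b le_rfl h3

end Pool.Agent.H961.T1
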