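import Pool.Agent.H961.T1.A5

/-!
# Links are kept until they are charged to a jump to an old vertex
-/

set_option autoImplicit false
set_option linter.unusedSectionVars false

namespace Pool.Agent.H961.T1

open Finset Equiv

variable {V : Type} [Fintype V] [DecidableEq V]
variable {K : ℕ} {η : ℕ → Perm V} {o : V}

/-- The link is charged to the jump at time `j`. -/
def Ch (K : ℕ) (η : ℕ → Perm V) (o : V) (b k j : ℕ) : Prop :=
  Ol K η o j ∧ ∃ i < K, (k + i) % K = j % K ∧
    wk K (cfg K η o j) (ps K η o (b + 1)) k i = ps K η o (j + 1)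

theorem pred_mod {K i j k : ℕ} (h : (k + (i + 1)) % K = (j + 1) % K) :
    (k + i) % K = j % K := by
  have h2 : (k + i) + 1 ≡ j + 1 [MOD K] := h
  exact Nat.ModEq.add_right_cancel' 1 h2

theorem isolated_walk (hK : 0 < K) (hS : Sw K η) {b j : ℕ} (hbj : b < j) (hb : Bi K η o j)
    (k i : ℕ) : wk K (cfg K η o j) (ps K η o (b + 1)) k i ≠ ps K η o (j + 1) := by
  induction i with
  | zero =>
    intro h
    exact hb (b + 1) (by omega) h
  | succ i ih =>
    intro h
    rw [wk] at h
    have h2 := cfg_isolated hK hS hb (k := (k + i) % K)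
    rw [← h2] at h
    exact ih ((cfg K η o j ((k + i) % K)).injective h)

theorem inv_step (hK : 0 < K) (hS : Sw K η) {b k j : ℕ} (hk : k < K) (ha : Al K η o j)
    (hbj : b < j) (hI : Inv K η o b k j) (hh : ¬ (ps K η o j = ps K η o (b + 1) ∧ j % K = k))
    (hc : ¬ Ch K η o b k j) : Inv K η o b k (j + 1) := by
  have hnot : ∀ i ≤ K, ¬ (wk K (cfg K η o j) (ps K η o (b + 1)) k i = ps K η o j ∧
      (k + i) % K = j % K) := by
    intro i hi
    rcases Nat.eq_zero_or_pos i with h | h
    · subst h
      rintro ⟨h1, h2⟩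
      rw [add_zero, Nat.mod_eq_of_lt hk] at h2
      exact hh ⟨h1.symm, h2.symm⟩
    · exact hI.head i h hi
  have hvs : ∀ v κ, Vs K η o (j + 1) v κ → Vs K η o j v κ ∨ (ps K η o j = v ∧ j % K = κ) := by
    rintro v κ ⟨i, hi, h1, h2⟩
    rcases Nat.lt_succ_iff_lt_or_eq.1 hi with h | h
    · exact Or.inl ⟨i, h, h1, h2⟩
    · subst h; exact Or.inr ⟨h2, h1⟩
  by_cases hf : FJ K η o j
  · have hone := cfg_head_one hK hS ha hf
    have hno : ∀ i < K, (k + i) % K = j % K →
        wk K (cfg K η o j) (ps K η o (b + 1)) k i ≠ ps K η o (j + 1) := by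
      intro i hi hki he
      rcases fj_iff.1 hf with hb | hol
      · exact isolated_walk hK hS hbj hb k i he
      · exact hc ⟨hol, i, hi, hki, he⟩
    have hsame : ∀ i ≤ K, wk K (cfg K η o (j + 1)) (ps K η o (b + 1)) k i =
        wk K (cfg K η o j) (ps K η o (b + 1)) k i := by
      intro i
      induction i with
      | zero => intro _; rfl
      | succ i ih =>
        intro hi
        rw [wk, wk, ih (by omega)]
        by_cases hki : (k + i) % K = j % K
        · rw [hki, cfg_succ_fresh hK hS hf, Function.update_self, hone]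
          exact swap_apply_of_ne_of_ne (fun he => hnot i (by omega) ⟨he, hki⟩)
            (hno i (by omega) hki)
        · rw [cfg_succ_of_ne hki]
    refine ⟨?_, ?_, ?_⟩
    · rw [hsame K le_rfl]; exact hI.ret
    · intro i hi hv
      rw [hsame i hi] at hv
      rcases hvs _ _ hv with h | ⟨h1, h2⟩
      · exact hI.unv i hi h
      · exact hnot i hi ⟨h1.symm, h2.symm⟩
    · intro i hi0 hi
      rw [hsame i hi]
      rintro ⟨h1, h2⟩
      obtain ⟨i', rfl⟩ : ∃ i', i = i' + 1 := ⟨i - 1, by omega⟩
      have h3 := pred_mod h2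
      rw [wk, h3, hone] at h1
      exact hno i' (by omega) h3 h1
  · have hcfg := cfg_succ_same hK hS hf
    have hst := cfg_step hf hK hS
    refine ⟨?_, ?_, ?_⟩
    · rw [hcfg]; exact hI.ret
    · intro i hi hv
      rw [hcfg] at hv
      rcases hvs _ _ hv with h | ⟨h1, h2⟩
      · exact hI.unv i hi h
      · exact hnot i hi ⟨h1.symm, h2.symm⟩
    · intro i hi0 hi
      rw [hcfg]
      rintro ⟨h1, h2⟩
      obtain ⟨i', rfl⟩ : ∃ i', i = i' + 1 := ⟨i - 1, by omega⟩
      have h3 := pred_mod h2
      rw [wk, h3, ← hst] at h1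
      exact hnot i' (by omega) ⟨(cfg K η o j (j % K)).injective h1, h3⟩

/-- Trichotomy for the link from the vertex born at time `b` at slice `b + a`. -/
theorem trichotomy (hK : 0 < K) (hS : Sw K η) {T : ℕ} (hT : IsT K η o T) {b : ℕ} (hbT : b < T)
    (hb : Bi K η o b) (hun : Un K η o b) {a : ℕ} (ha0 : 0 < a) (ha1 : a < K)
    (hk : ¬ Vs K η o (b + 1) (ps K η o b) ((b + a) % K)) :
    (∃ j, b < j ∧ j < T ∧ ps K η o j = ps K η o (b + 1) ∧ j % K = (b + a) % K ∧
      ¬ Vs K η o j (ps K η o b) (j % K) ∧ Pe K η o j (ps K η o b)) ∨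
    ¬ Vs K η o T (ps K η o (b + 1)) ((b + a) % K) ∨
    ∃ j, b < j ∧ j < T ∧ Ch K η o b ((b + a) % K) j := by
  classical
  by_contra hcon
  push Not at hcon
  obtain ⟨h1, h2, h3⟩ := hcon
  have hkK : (b + a) % K < K := Nat.mod_lt _ hK
  have hend : ∀ j, Inv K η o b ((b + a) % K) j →
      ¬ Vs K η o j (ps K η o (b + 1)) ((b + a) % K) := by
    intro j hj
    have := hj.unv 0 (by omega)
    rwa [wk, add_zero, Nat.mod_mod] at this
  have key : ∀ r, b + 1 + r ≤ T → Inv K η o b ((b + a) % K) (b + 1 + r) := by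
    intro r
    induction r with
    | zero => intro _; exact inv_init hK hS (hT.alive hbT) hb hun ha0 ha1 hk
    | succ r ih =>
      intro hr
      have hI := ih (by omega)
      change Inv K η o b ((b + a) % K) ((b + 1 + r) + 1)
      generalize hj : b + 1 + r = j at *
      have hbj : b < j := by omega
      have hjT : j < T := by omega
      refine inv_step hK hS hkK (hT.alive hjT) hbj hI ?_ (h3 _ hbj hjT)
      rintro ⟨h4, h5⟩
      have h6 := h1 j hbj hjT h4 h5
      have hret := hI.ret
      refine h6 ?_ ?_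
      · have := hI.unv K le_rfl
        rwa [hret, Nat.add_mod_right, Nat.mod_mod, ← h5] at this
      · unfold Pe Rt
        rw [h4, ← hret, ← h5, wk_K]
        exact Perm.sameCycle_apply_right.2 (Perm.SameCycle.refl _ _)
  have hle : b + 1 ≤ T := hbT
  have hI := key (T - (b + 1)) (by omega)
  rw [show b + 1 + (T - (b + 1)) = T by omega] at hI
  exact hend T hI h2

end Pool.Agent.H961.T1
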