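import Pool.Agent.H961.T1.A6

/-!
# Counting on one configuration
-/

set_option autoImplicit false
set_option linter.unusedSectionVars false

namespace Pool.Agent.H961.T1

open Finset Equiv

variable {V : Type} [Fintype V] [DecidableEq V]
variable {K : ℕ} {η : ℕ → Perm V} {o : V}

/-- adjacency -/
def Ad (S : Finset (Perm V)) (x z : V) : Prop := x ≠ z ∧ swap x z ∈ S

theorem Ad.symm {S : Finset (Perm V)} {x z : V} (h : Ad S x z) : Ad S z x :=
  ⟨h.1.symm, by rw [swap_comm]; exact h.2⟩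

open Classical in
/-- fresh neighbours of the head -/
noncomputable def FRs (S : Finset (Perm V)) (K : ℕ) (η : ℕ → Perm V) (o : V) (j : ℕ) : Finset V :=
  univ.filter fun z => Ad S (ps K η o j) z ∧ ¬ Vs K η o j z (j % K)

open Classical in
/-- neighbours of the head which have been visited at this slice -/
noncomputable def NVs (S : Finset (Perm V)) (K : ℕ) (η : ℕ → Perm V) (o : V) (j : ℕ) : Finset V :=
  univ.filter fun z => Ad S (ps K η o j) z ∧ Vs K η o j z (j % K)

open Classical in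
/-- old fresh neighbours on the loop of the head -/
noncomputable def PDs (S : Finset (Perm V)) (K : ℕ) (η : ℕ → Perm V) (o : V) (j : ℕ) : Finset V :=
  univ.filter fun z => Ad S (ps K η o j) z ∧ ¬ Vs K η o j z (j % K) ∧
    (∃ i ≤ j, ps K η o i = z) ∧ Pe K η o j z

open Classical in
/-- new neighbours -/
noncomputable def NWs (S : Finset (Perm V)) (K : ℕ) (η : ℕ → Perm V) (o : V) (j : ℕ) : Finset V :=
  univ.filter fun z => Ad S (ps K η o j) z ∧ ∀ i ≤ j, ps K η o i ≠ z

open Classical in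
/-- the number of slices at which `v` has not been visited before time `j` -/
noncomputable def Uv (K : ℕ) (η : ℕ → Perm V) (o : V) (j : ℕ) (v : V) : ℕ :=
  ((range K).filter fun k => ¬ Vs K η o j v k).card

open Classical in
/-- allowed slices -/
def Okη (S : Finset (Perm V)) (K : ℕ) (η : ℕ → Perm V) : Prop :=
  ∀ k < K, η k = 1 ∨ η k ∈ S

/-- `S` consists of transpositions -/
def SwS (S : Finset (Perm V)) : Prop := ∀ s ∈ S, ∃ a b : V, a ≠ b ∧ s = swap a b

theorem Okη.sw {S : Finset (Perm V)} (hS : SwS S) (h : Okη S K η) : Sw K η := by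
  intro k hk
  rcases h k hk with h1 | h1
  · exact Or.inl h1
  · obtain ⟨a, b, hab, he⟩ := hS _ h1
    exact Or.inr ⟨a, b, hab, he⟩

theorem ad_of_jump {S : Finset (Perm V)} (hK : 0 < K) (hSS : SwS S) (hOk : Okη S K η) {j : ℕ}
    (h : ps K η o (j + 1) ≠ ps K η o j) : Ad S (ps K η o j) (ps K η o (j + 1)) := by
  refine ⟨h.symm, ?_⟩
  rw [← jump_swap hK (hOk.sw hSS) h]
  rcases hOk (j % K) (Nat.mod_lt _ hK) with h1 | h1
  · exfalso
    rw [ps_succ, h1] at h
    exact h rfl
  · exact h1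

theorem birth_unique {b b' : ℕ} (hb : Bi K η o b) (hb' : Bi K η o b')
    (h : ps K η o (b + 1) = ps K η o (b' + 1)) : b = b' := by
  rcases lt_trichotomy b b' with h1 | h1 | h1
  · exact absurd h (hb' (b + 1) (by omega))
  · exact h1
  · exact absurd h.symm (hb (b' + 1) (by omega))

/-- visited and unvisited points -/
theorem card_unvisited (hK : 0 < K) {T : ℕ} (hT : IsT K η o T) :
    ∑ v ∈ NV K η o T, Uv K η o T v + T = K * (NV K η o T).card := by
  classical
  have h1 : ∑ v ∈ NV K η o T, ((range K).filter fun k => Vs K η o T v k).card = T := by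
    rw [← Finset.card_sigma]
    rw [← card_range T]
    symm
    rw [card_range T]
    conv_lhs => rw [← card_range T]
    refine Finset.card_bij (fun j _ => (⟨ps K η o j, j % K⟩ : Σ _ : V, ℕ)) ?_ ?_ ?_
    · intro j hj
      rw [mem_range] at hj
      simp only [mem_sigma, mem_filter, mem_range]
      exact ⟨mem_image_of_mem _ (mem_range.2 hj), Nat.mod_lt _ hK, j, hj, rfl, rfl⟩
    · intro j hj j' hj' h
      rw [mem_range] at hj hj'
      simp only [Sigma.mk.injEq, heq_eq_eq] at h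
      exact hT.ne hj hj' h.2 h.1
    · rintro ⟨v, k⟩ h
      simp only [mem_sigma, mem_filter, mem_range] at h
      obtain ⟨_, _, j, hj, hk, hv⟩ := h
      exact ⟨j, mem_range.2 hj, by rw [hk, hv]⟩
  have h2 : ∀ v, ((range K).filter fun k => Vs K η o T v k).card + Uv K η o T v = K := by
    intro v
    unfold Uv
    rw [card_filter_add_card_filter_not, card_range]
  calc ∑ v ∈ NV K η o T, Uv K η o T v + T
      = ∑ v ∈ NV K η o T, Uv K η o T v +
        ∑ v ∈ NV K η o T, ((range K).filter fun k => Vs K η o T v k).card := by rw [h1]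
    _ = ∑ v ∈ NV K η o T, (((range K).filter fun k => Vs K η o T v k).card + Uv K η o T v) := by
        rw [sum_add_distrib, add_comm]
    _ = ∑ v ∈ NV K η o T, K := sum_congr rfl fun v _ => h2 v
    _ = K * (NV K η o T).card := by rw [sum_const, smul_eq_mul, mul_comm]

theorem visits_le (hK : 0 < K) {T : ℕ} (hT : IsT K η o T) (v : V) :
    ((range T).filter fun j => ps K η o j = v).card ≤ K := by
  classical
  rw [← card_range K]
  rw [card_range K]
  conv_rhs => rw [← card_range K]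
  refine card_le_card_of_injOn (fun j => j % K) ?_ ?_
  · intro j _
    simp only [coe_range, Set.mem_Iio]
    exact Nat.mod_lt _ hK
  · intro j hj j' hj' h
    simp only [coe_filter, mem_range, Set.mem_setOf_eq] at hj hj'
    exact hT.ne hj.1 hj'.1 h (by rw [hj.2, hj'.2])

/-- (E): links -/
theorem links (S : Finset (Perm V)) (hK : 0 < K) (hSS : SwS S) (hOk : Okη S K η) {T : ℕ}
    (hT : IsT K η o T) (p : ℕ → Prop) [DecidablePred p] (hp : ∀ b, p b → Un K η o b) :
    ∑ b ∈ (JB K η o T).filter p, Uv K η o (b + 1) (ps K η o b) ≤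
      ∑ j ∈ range T, (PDs S K η o j).card + ∑ v ∈ NV K η o T, Uv K η o T v +
        (JO K η o T).card * K := by
  classical
  have hSw := hOk.sw hSS
  set Z : Finset (Σ _ : ℕ, ℕ) := ((JB K η o T).filter p).sigma fun b =>
    (range K).filter fun k => ¬ Vs K η o (b + 1) (ps K η o b) k with hZ
  have hZc : ∑ b ∈ (JB K η o T).filter p, Uv K η o (b + 1) (ps K η o b) = Z.card := by
    rw [hZ, card_sigma]
    rfl
  rw [hZc]
  have hmem : ∀ z ∈ Z, z.1 < T ∧ Bi K η o z.1 ∧ Un K η o z.1 ∧ z.2 < K ∧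
      ¬ Vs K η o (z.1 + 1) (ps K η o z.1) z.2 := by
    intro z hz
    rw [hZ] at hz
    simp only [mem_sigma, mem_filter, mem_range, JB] at hz
    exact ⟨hz.1.1.1, hz.1.1.2, hp _ hz.1.2, hz.2.1, hz.2.2⟩
  let q1 : (Σ _ : ℕ, ℕ) → Prop := fun z => ∃ j, z.1 < j ∧ j < T ∧
    ps K η o j = ps K η o (z.1 + 1) ∧ j % K = z.2 ∧ ¬ Vs K η o j (ps K η o z.1) (j % K) ∧
    Pe K η o j (ps K η o z.1)
  let q2 : (Σ _ : ℕ, ℕ) → Prop := fun z => ¬ Vs K η o T (ps K η o (z.1 + 1)) z.2
  let q3 : (Σ _ : ℕ, ℕ) → Prop := fun z => ∃ j, z.1 < j ∧ j < T ∧ Ch K η o z.1 z.2 j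
  have htri : ∀ z ∈ Z, q1 z ∨ q2 z ∨ q3 z := by
    intro z hz
    obtain ⟨hbT, hb, hun, hkK, hnv⟩ := hmem z hz
    -- z.2 = (b + a) % K
    obtain ⟨a, ha0, ha1, hak⟩ : ∃ a, 0 < a ∧ a < K ∧ (z.1 + a) % K = z.2 := by
      have hne : z.2 ≠ z.1 % K := by
        intro he
        exact hnv ⟨z.1, by omega, he.symm, rfl⟩
      have hb' : z.1 % K < K := Nat.mod_lt _ hK
      rcases Nat.lt_or_ge (z.1 % K) z.2 with h | h
      · refine ⟨z.2 - z.1 % K, by omega, by omega, ?_⟩
        rw [Nat.add_mod, Nat.mod_eq_of_lt (show z.2 - z.1 % K < K by omega),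
          show z.1 % K + (z.2 - z.1 % K) = z.2 by omega, Nat.mod_eq_of_lt hkK]
      · refine ⟨K + z.2 - z.1 % K, by omega, by omega, ?_⟩
        rw [Nat.add_mod, Nat.mod_eq_of_lt (show K + z.2 - z.1 % K < K by omega),
          show z.1 % K + (K + z.2 - z.1 % K) = z.2 + K by omega, Nat.add_mod_right,
          Nat.mod_eq_of_lt hkK]
    have := trichotomy hK hSw hT hbT hb hun ha0 ha1 (by rw [hak]; exact hnv)
    rw [hak] at this
    exact this
  have hsub : Z ⊆ (Z.filter q1) ∪ ((Z.filter q2) ∪ (Z.filter q3)) := by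
    intro z hz
    rcases htri z hz with h | h | h
    · exact mem_union_left _ (mem_filter.2 ⟨hz, h⟩)
    · exact mem_union_right _ (mem_union_left _ (mem_filter.2 ⟨hz, h⟩))
    · exact mem_union_right _ (mem_union_right _ (mem_filter.2 ⟨hz, h⟩))
  have hb_of : ∀ z ∈ Z, ∀ z' ∈ Z, ps K η o (z.1 + 1) = ps K η o (z'.1 + 1) → z.2 = z'.2 →
      z = z' := by
    rintro ⟨b, k⟩ hz ⟨b', k'⟩ hz' h1 h2
    have h3 := birth_unique (hmem _ hz).2.1 (hmem _ hz').2.1 h1
    simp only at h2 h3
    rw [h3, h2]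
  have c1 : (Z.filter q1).card ≤ ∑ j ∈ range T, (PDs S K η o j).card := by
    rw [← card_sigma]
    refine card_le_card_of_injOn (fun z => if h : q1 z then
      (⟨h.choose, ps K η o z.1⟩ : Σ _ : ℕ, V) else ⟨0, o⟩) ?_ ?_
    · intro z hz
      rw [mem_coe, mem_filter] at hz
      obtain ⟨hzZ, hq⟩ := hz
      obtain ⟨hbT, hb, hun, hkK, hnv⟩ := hmem z hzZ
      rw [mem_coe]
      simp only [dif_pos hq]
      obtain ⟨h1, h2, h3, h4, h5, h6⟩ := hq.choose_spec
      rw [mem_sigma]
      refine ⟨mem_range.2 h2, ?_⟩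
      simp only [PDs, mem_filter, mem_univ, true_and]
      refine ⟨?_, h5, ⟨z.1, h1.le, rfl⟩, h6⟩
      rw [h3]
      exact (ad_of_jump hK hSS hOk (hb z.1 le_rfl).symm).symm
    · intro z hz z' hz' he
      rw [mem_coe, mem_filter] at hz hz'
      obtain ⟨hzZ, hq⟩ := hz
      obtain ⟨hzZ', hq'⟩ := hz'
      simp only [dif_pos hq, dif_pos hq'] at he
      obtain ⟨h1, h2, h3, h4, h5, h6⟩ := hq.choose_spec
      obtain ⟨h1', h2', h3', h4', h5', h6'⟩ := hq'.choose_spec
      have he1 : hq.choose = hq'.choose := by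
        have := congrArg Sigma.fst he
        exact this
      apply hb_of z hzZ z' hzZ'
      · rw [← h3, ← h3', he1]
      · rw [← h4, ← h4', he1]
  have c2 : (Z.filter q2).card ≤ ∑ v ∈ NV K η o T, Uv K η o T v := by
    unfold Uv
    rw [← card_sigma]
    refine card_le_card_of_injOn (fun z => (⟨ps K η o (z.1 + 1), z.2⟩ : Σ _ : V, ℕ)) ?_ ?_
    · intro z hz
      rw [mem_coe, mem_filter] at hz
      obtain ⟨hzZ, hq⟩ := hz
      obtain ⟨hbT, hb, hun, hkK, hnv⟩ := hmem z hzZ
      rw [mem_coe, mem_sigma]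
      refine ⟨?_, mem_filter.2 ⟨mem_range.2 hkK, hq⟩⟩
      rcases Nat.lt_or_ge (z.1 + 1) T with h | h
      · exact mem_image_of_mem _ (mem_range.2 h)
      · exfalso
        have h7 : z.1 + 1 = T := by omega
        apply hb 0 (by omega)
        rw [h7, hT.close]; rfl
    · intro z hz z' hz' he
      rw [mem_coe, mem_filter] at hz hz'
      simp only [Sigma.mk.injEq, heq_eq_eq] at he
      exact hb_of z hz.1 z' hz'.1 he.1 he.2
  have c3 : (Z.filter q3).card ≤ (JO K η o T).card * K := by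
    rw [← card_range K, ← card_product]
    rw [card_range K]
    refine card_le_card_of_injOn (fun z => if h : q3 z then (h.choose, z.2) else (0, 0)) ?_ ?_
    · intro z hz
      rw [mem_coe, mem_filter] at hz
      obtain ⟨hzZ, hq⟩ := hz
      obtain ⟨hbT, hb, hun, hkK, hnv⟩ := hmem z hzZ
      rw [mem_coe]
      simp only [dif_pos hq]
      obtain ⟨h1, h2, h3⟩ := hq.choose_spec
      rw [mem_product]
      refine ⟨?_, mem_range.2 hkK⟩
      unfold JO
      rw [mem_filter, mem_range]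
      exact ⟨h2, h3.1⟩
    · intro z hz z' hz' he
      rw [mem_coe, mem_filter] at hz hz'
      obtain ⟨hzZ, hq⟩ := hz
      obtain ⟨hzZ', hq'⟩ := hz'
      simp only [dif_pos hq, dif_pos hq', Prod.mk.injEq] at he
      obtain ⟨h1, h2, h3⟩ := hq.choose_spec
      obtain ⟨h1', h2', h3'⟩ := hq'.choose_spec
      obtain ⟨_, i, hi, hki, hw⟩ := h3
      obtain ⟨_, i', hi', hki', hw'⟩ := h3'
      rw [he.1, he.2] at hki hw
      have hii : i = i' := by
        have h4 : (z'.2 + i) ≡ (z'.2 + i') [MOD K] := by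
          rw [Nat.ModEq, hki, hki']
        have h5 : i ≡ i' [MOD K] := Nat.ModEq.add_left_cancel' _ h4
        rwa [Nat.ModEq, Nat.mod_eq_of_lt hi, Nat.mod_eq_of_lt hi'] at h5
      rw [← hii, ← hw] at hw'
      exact hb_of z hzZ z' hzZ' (wk_inj _ _ _ _ _ _ hw').symm he.2
  calc Z.card ≤ ((Z.filter q1) ∪ ((Z.filter q2) ∪ (Z.filter q3))).card := card_le_card hsub
    _ ≤ (Z.filter q1).card + ((Z.filter q2) ∪ (Z.filter q3)).card := card_union_le _ _
    _ ≤ (Z.filter q1).card + ((Z.filter q2).card + (Z.filter q3).card) := by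
        have := card_union_le (Z.filter q2) (Z.filter q3)
        omega
    _ ≤ _ := by omega

end Pool.Agent.H961.T1
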