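import Pool.Agent.H961.T1.A7

/-!
# Counting on one configuration, second part
-/

set_option autoImplicit false
set_option linter.unusedSectionVars false

namespace Pool.Agent.H961.T1

open Finset Equiv

variable {V : Type} [Fintype V] [DecidableEq V]
variable {K : ℕ} {η : ℕ → Perm V} {o : V}

theorem mem_JB {T b : ℕ} : b ∈ JB K η o T ↔ b < T ∧ Bi K η o b := by
  classical
  unfold JB
  rw [mem_filter, mem_range]

/-- (B): visited neighbours -/
theorem visited_neighbours (S : Finset (Perm V)) (hK : 0 < K) (hSS : SwS S) (hOk : Okη S K η)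
    {T : ℕ} (hT : IsT K η o T) :
    K * (JB K η o T).card ≤ ∑ j ∈ range T, (NVs S K η o j).card +
      ∑ v ∈ NV K η o T, Uv K η o T v + ∑ b ∈ JB K η o T, Uv K η o T (ps K η o b) := by
  classical
  -- both visited
  have h1 : ∑ b ∈ JB K η o T, ((range K).filter fun k =>
      Vs K η o T (ps K η o b) k ∧ Vs K η o T (ps K η o (b + 1)) k).card ≤
      ∑ j ∈ range T, (NVs S K η o j).card := by
    rw [← card_sigma, ← card_sigma]
    let q : (Σ _ : ℕ, ℕ) → (Σ _ : ℕ, V) → Prop := fun z w =>
      w.1 < T ∧ w.1 % K = z.2 ∧ Vs K η o w.1 w.2 (w.1 % K) ∧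
        ((ps K η o w.1 = ps K η o (z.1 + 1) ∧ w.2 = ps K η o z.1) ∨
          (ps K η o w.1 = ps K η o z.1 ∧ w.2 = ps K η o (z.1 + 1)))
    have hex : ∀ z ∈ (JB K η o T).sigma (fun b => (range K).filter fun k =>
        Vs K η o T (ps K η o b) k ∧ Vs K η o T (ps K η o (b + 1)) k), ∃ w, q z w := by
      rintro ⟨b, k⟩ hz
      simp only [mem_sigma, mem_filter, mem_range, mem_JB] at hz
      obtain ⟨⟨hbT, hb⟩, hkK, ⟨i, hi, hik, hpi⟩, ⟨i', hi', hik', hpi'⟩⟩ := hz
      have hne : i ≠ i' := by
        intro he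
        rw [he, hpi'] at hpi
        exact hb b le_rfl hpi.symm
      rcases Nat.lt_or_ge i i' with h | h
      · exact ⟨⟨i', ps K η o b⟩, hi', hik', ⟨i, h, by rw [hik]; exact hik'.symm, hpi⟩,
          Or.inl ⟨hpi', rfl⟩⟩
      · exact ⟨⟨i, ps K η o (b + 1)⟩, hi, hik,
          ⟨i', lt_of_le_of_ne h hne.symm, by rw [hik']; exact hik.symm, hpi'⟩,
          Or.inr ⟨hpi, rfl⟩⟩
    refine card_le_card_of_injOn (fun z => if h : ∃ w, q z w then h.choose else ⟨0, o⟩) ?_ ?_
    · intro z hz
      rw [mem_coe] at hz ⊢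
      have hq := hex z hz
      simp only [dif_pos hq]
      obtain ⟨h1, h2, h3, h4⟩ := hq.choose_spec
      rw [mem_sigma]
      refine ⟨mem_range.2 h1, ?_⟩
      simp only [NVs, mem_filter, mem_univ, true_and]
      simp only [mem_sigma, mem_JB] at hz
      have had := ad_of_jump hK hSS hOk (hz.1.2 z.1 le_rfl).symm
      refine ⟨?_, h3⟩
      rcases h4 with ⟨h5, h6⟩ | ⟨h5, h6⟩
      · rw [h5, h6]; exact had.symm
      · rw [h5, h6]; exact had
    · intro z hz z' hz' he
      rw [mem_coe] at hz hz'
      have hq := hex z hz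
      have hq' := hex z' hz'
      simp only [dif_pos hq, dif_pos hq'] at he
      obtain ⟨h1, h2, h3, h4⟩ := hq.choose_spec
      obtain ⟨h1', h2', h3', h4'⟩ := hq'.choose_spec
      simp only [mem_sigma, mem_JB] at hz hz'
      have hb := hz.1.2
      have hb' := hz'.1.2
      rw [← he] at h2' h4'
      have hk : z.2 = z'.2 := by rw [← h2, ← h2']
      have hbb : z.1 = z'.1 := by
        rcases h4 with ⟨h5, h6⟩ | ⟨h5, h6⟩ <;> rcases h4' with ⟨h5', h6'⟩ | ⟨h5', h6'⟩
        · exact birth_unique hb hb' (by rw [← h5, ← h5'])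
        · exfalso
          -- ps(z+1) = ps z', ps z = ps (z'+1)
          have e1 : ps K η o (z.1 + 1) = ps K η o z'.1 := by rw [← h5, ← h5']
          have e2 : ps K η o z.1 = ps K η o (z'.1 + 1) := by rw [← h6, ← h6']
          have g1 : z.1 < z'.1 := by
            by_contra hc
            exact hb z'.1 (by omega) e1.symm
          exact hb' z.1 g1.le e2
        · exfalso
          have e1 : ps K η o z.1 = ps K η o (z'.1 + 1) := by rw [← h5, ← h5']
          have e2 : ps K η o (z.1 + 1) = ps K η o z'.1 := by rw [← h6, ← h6']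
          have g1 : z.1 < z'.1 := by
            by_contra hc
            exact hb z'.1 (by omega) e2.symm
          exact hb' z.1 g1.le e1
        · exact birth_unique hb hb' (by rw [← h6, ← h6'])
      exact Sigma.ext hbb (heq_of_eq hk)
  have h2 : ∀ b, K ≤ ((range K).filter fun k =>
      Vs K η o T (ps K η o b) k ∧ Vs K η o T (ps K η o (b + 1)) k).card +
      (Uv K η o T (ps K η o (b + 1)) + Uv K η o T (ps K η o b)) := by
    intro b
    unfold Uv
    calc K = (range K).card := (card_range K).symm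
      _ ≤ (((range K).filter fun k =>
          Vs K η o T (ps K η o b) k ∧ Vs K η o T (ps K η o (b + 1)) k) ∪
          (((range K).filter fun k => ¬ Vs K η o T (ps K η o (b + 1)) k) ∪
          ((range K).filter fun k => ¬ Vs K η o T (ps K η o b) k))).card := by
          apply card_le_card
          intro k hk
          simp only [mem_union, mem_filter]
          tauto
      _ ≤ _ := by
          refine (card_union_le _ _).trans ?_
          have := card_union_le ((range K).filter fun k => ¬ Vs K η o T (ps K η o (b + 1)) k)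
            ((range K).filter fun k => ¬ Vs K η o T (ps K η o b) k)
          omega
  have h3 : ∑ b ∈ JB K η o T, Uv K η o T (ps K η o (b + 1)) ≤
      ∑ v ∈ NV K η o T, Uv K η o T v := by
    rw [← sum_image (f := fun v => Uv K η o T v) (g := fun b => ps K η o (b + 1))
      (s := JB K η o T)]
    · apply sum_le_sum_of_subset
      intro v hv
      rw [mem_image] at hv
      obtain ⟨b, hb, rfl⟩ := hv
      rw [mem_JB] at hb
      rcases Nat.lt_or_ge (b + 1) T with h | h
      · exact mem_image_of_mem _ (mem_range.2 h)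
      · exfalso
        have h7 : b + 1 = T := by omega
        apply hb.2 0 (by omega)
        rw [h7, hT.close]; rfl
    · intro b hb b' hb' he
      rw [mem_coe, mem_JB] at hb hb'
      exact birth_unique hb.2 hb'.2 he
  calc K * (JB K η o T).card = ∑ b ∈ JB K η o T, K := by
        rw [sum_const, smul_eq_mul, mul_comm]
    _ ≤ ∑ b ∈ JB K η o T, (((range K).filter fun k =>
      Vs K η o T (ps K η o b) k ∧ Vs K η o T (ps K η o (b + 1)) k).card +
      (Uv K η o T (ps K η o (b + 1)) + Uv K η o T (ps K η o b))) :=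
        sum_le_sum fun b _ => h2 b
    _ = _ := by rw [sum_add_distrib, sum_add_distrib]
    _ ≤ _ := by omega

/-- (A) fresh and visited neighbours -/
theorem fresh_add_visited (S : Finset (Perm V)) (j Δ : ℕ)
    (hdeg : ∀ x : V, Nat.card {z : V // Ad S x z} ≤ Δ) :
    (FRs S K η o j).card + (NVs S K η o j).card ≤ Δ := by
  classical
  have h1 : (FRs S K η o j).card + (NVs S K η o j).card =
      (univ.filter fun z => Ad S (ps K η o j) z).card := by
    unfold FRs NVs
    rw [← card_filter_add_card_filter_not (s := univ.filter fun z => Ad S (ps K η o j) z)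
      (fun z => ¬ Vs K η o j z (j % K)), filter_filter, filter_filter]
    simp only [not_not]
  rw [h1]
  refine le_trans (le_of_eq ?_) (hdeg (ps K η o j))
  rw [Nat.card_eq_fintype_card, Fintype.card_subtype]

open Classical in
/-- (H) time at cut vertices -/
theorem cut_time (hK : 0 < K) {T : ℕ} (hT : IsT K η o T) :
    ((range T).filter fun j => ¬ Un K η o j).card ≤ (JO K η o T).card * K := by
  let q : ℕ → ℕ → Prop := fun j l => l < j ∧ Ol K η o l ∧ ps K η o (l + 1) = ps K η o j
  have hex : ∀ j, ¬ Un K η o j → ∃ l, q j l := by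
    intro j hj
    unfold Un at hj
    push Not at hj
    obtain ⟨l, h1, h2, h3⟩ := hj
    exact ⟨l, h1, h2, h3⟩
  have hc : (JO K η o T).card * K = (JO K η o T ×ˢ range K).card := by
    rw [card_product, card_range]
  rw [hc]
  refine card_le_card_of_injOn (fun j => if h : ∃ l, q j l then (h.choose, j % K) else (0, 0))
    ?_ ?_
  · intro j hj
    rw [mem_coe, mem_filter, mem_range] at hj
    have hq := hex j hj.2
    rw [mem_coe]
    simp only [dif_pos hq]
    obtain ⟨h1, h2, h3⟩ := hq.choose_spec
    rw [mem_product]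
    refine ⟨?_, mem_range.2 (Nat.mod_lt _ hK)⟩
    unfold JO
    rw [mem_filter, mem_range]
    exact ⟨by omega, h2⟩
  · intro j hj j' hj' he
    rw [mem_coe, mem_filter, mem_range] at hj hj'
    have hq := hex j hj.2
    have hq' := hex j' hj'.2
    simp only [dif_pos hq, dif_pos hq', Prod.mk.injEq] at he
    obtain ⟨h1, h2, h3⟩ := hq.choose_spec
    obtain ⟨h1', h2', h3'⟩ := hq'.choose_spec
    exact hT.ne hj.1 hj'.1 he.2 (by rw [← h3, ← h3', he.1])

theorem rank_sum (s : Finset ℕ) :
    2 * ∑ j ∈ s, (s.filter fun i => i ≤ j).card = s.card * (s.card + 1) := by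
  have h1 : ∑ j ∈ s, (s.filter fun i => i ≤ j).card = ∑ j ∈ s, (s.filter fun i => j ≤ i).card := by
    simp only [card_filter]
    rw [sum_comm]
  have h2 : ∀ j ∈ s, (s.filter fun i => i ≤ j).card + (s.filter fun i => j ≤ i).card =
      s.card + 1 := by
    intro j hj
    have h3 : (s.filter fun i => i ≤ j) ∪ (s.filter fun i => j ≤ i) = s := by
      ext i
      simp only [mem_union, mem_filter]
      constructor
      · rintro (h | h) <;> exact h.1
      · intro h
        rcases le_total i j with h4 | h4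
        · exact Or.inl ⟨h, h4⟩
        · exact Or.inr ⟨h, h4⟩
    have h4 : (s.filter fun i => i ≤ j) ∩ (s.filter fun i => j ≤ i) = {j} := by
      ext i
      simp only [mem_inter, mem_filter, mem_singleton]
      constructor
      · rintro ⟨⟨_, h5⟩, _, h6⟩; omega
      · rintro rfl; exact ⟨⟨hj, le_rfl⟩, hj, le_rfl⟩
    rw [← card_union_add_card_inter, h3, h4, card_singleton]
  calc 2 * ∑ j ∈ s, (s.filter fun i => i ≤ j).card
      = ∑ j ∈ s, (s.filter fun i => i ≤ j).card + ∑ j ∈ s, (s.filter fun i => j ≤ i).card := by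
        rw [← h1]; ring
    _ = ∑ j ∈ s, (s.card + 1) := by rw [← sum_add_distrib]; exact sum_congr rfl h2
    _ = s.card * (s.card + 1) := by rw [sum_const, smul_eq_mul]

open Classical in
theorem uv_add_visits (hK : 0 < K) {j : ℕ} (ha : Al K η o j) (v : V) :
    Uv K η o (j + 1) v + ((range (j + 1)).filter fun i => ps K η o i = v).card = K := by
  have h1 : ((range K).filter fun k => Vs K η o (j + 1) v k).card + Uv K η o (j + 1) v = K := by
    unfold Uv
    rw [card_filter_add_card_filter_not, card_range]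
  have h2 : ((range (j + 1)).filter fun i => ps K η o i = v).card =
      ((range K).filter fun k => Vs K η o (j + 1) v k).card := by
    refine card_bij (fun i _ => i % K) ?_ ?_ ?_
    · intro i hi
      rw [mem_filter, mem_range] at hi ⊢
      exact ⟨Nat.mod_lt _ hK, i, hi.1, rfl, hi.2⟩
    · intro i hi i' hi' he
      rw [mem_filter, mem_range] at hi hi'
      rcases lt_trichotomy i i' with h | h | h
      · exact absurd (by rw [hi.2, hi'.2]) (ha.ne h (by omega) he)
      · exact h
      · exact absurd (by rw [hi.2, hi'.2]) (ha.ne h (by omega) he.symm)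
    · intro k hk
      rw [mem_filter, mem_range] at hk
      obtain ⟨_, i, hi, hik, hpi⟩ := hk
      exact ⟨i, by rw [mem_filter, mem_range]; exact ⟨hi, hpi⟩, hik⟩
  rw [h2]; omega

theorem NWs_anti (S : Finset (Perm V)) {j j' : ℕ} (h : j ≤ j') (he : ps K η o j = ps K η o j') :
    (NWs S K η o j').card ≤ (NWs S K η o j).card := by
  classical
  apply card_le_card
  intro z hz
  simp only [NWs, mem_filter, mem_univ, true_and] at hz ⊢
  rw [he]
  exact ⟨hz.1, fun i hi => hz.2 i (hi.trans h)⟩

/-- (G) Chebyshev's inequality at every vertex -/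
theorem chebyshev (S : Finset (Perm V)) (hK : 0 < K) {T : ℕ} (hT : IsT K η o T) :
    ((K : ℝ) - 1) * ∑ j ∈ range T, ((NWs S K η o j).card : ℝ) ≤
      2 * ∑ j ∈ range T, ((NWs S K η o j).card : ℝ) * (Uv K η o (j + 1) (ps K η o j) : ℝ) := by
  classical
  have hkey : ∀ v : V, 0 ≤ ∑ j ∈ (range T).filter (fun j => ps K η o j = v),
      ((NWs S K η o j).card : ℝ) * (2 * (Uv K η o (j + 1) (ps K η o j) : ℝ) - ((K : ℝ) - 1)) := by
    intro v
    set s := (range T).filter (fun j => ps K η o j = v) with hs
    have hrank : ∀ j ∈ s, (2 * (Uv K η o (j + 1) (ps K η o j) : ℝ) - ((K : ℝ) - 1)) =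
        (K : ℝ) + 1 - 2 * ((s.filter fun i => i ≤ j).card : ℝ) := by
      intro j hj
      rw [hs, mem_filter, mem_range] at hj
      have h1 := uv_add_visits hK (hT.alive hj.1) (ps K η o j)
      have h2 : ((range (j + 1)).filter fun i => ps K η o i = ps K η o j) =
          s.filter fun i => i ≤ j := by
        ext i
        simp only [hs, mem_filter, mem_range]
        constructor
        · rintro ⟨h3, h4⟩; exact ⟨⟨by omega, by rw [h4, hj.2]⟩, by omega⟩
        · rintro ⟨⟨h3, h4⟩, h5⟩; exact ⟨by omega, by rw [h4, hj.2]⟩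
      rw [h2] at h1
      have h3 : (Uv K η o (j + 1) (ps K η o j) : ℝ) + ((s.filter fun i => i ≤ j).card : ℝ) = K := by
        exact_mod_cast h1
      linarith
    rw [sum_congr rfl fun j hj => by rw [hrank j hj]]
    have hmono : MonovaryOn (fun j => ((NWs S K η o j).card : ℝ))
        (fun j => (K : ℝ) + 1 - 2 * ((s.filter fun i => i ≤ j).card : ℝ)) (s : Set ℕ) := by
      apply AntitoneOn.monovaryOn
      · intro j hj j' hj' hjj
        rw [mem_coe, hs, mem_filter, mem_range] at hj hj'
        have h9 : (NWs S K η o j').card ≤ (NWs S K η o j).card :=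
          NWs_anti S hjj (by rw [hj.2, hj'.2])
        simp only
        exact_mod_cast h9
      · intro j hj j' hj' hjj
        have : (s.filter fun i => i ≤ j).card ≤ (s.filter fun i => i ≤ j').card := by
          apply card_le_card
          intro i hi
          rw [mem_filter] at hi ⊢
          exact ⟨hi.1, hi.2.trans hjj⟩
        have h2 : ((s.filter fun i => i ≤ j).card : ℝ) ≤ ((s.filter fun i => i ≤ j').card : ℝ) := by
          exact_mod_cast this
        simp only
        linarith
    have hch := hmono.sum_mul_sum_le_card_mul_sum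
    have hw : ∑ j ∈ s, ((K : ℝ) + 1 - 2 * ((s.filter fun i => i ≤ j).card : ℝ)) =
        (s.card : ℝ) * (K - s.card) := by
      rw [sum_sub_distrib, sum_const, nsmul_eq_mul, ← mul_sum]
      have h1 : (2 : ℝ) * ∑ j ∈ s, ((s.filter fun i => i ≤ j).card : ℝ) =
          s.card * (s.card + 1) := by
        have := rank_sum s
        exact_mod_cast this
      rw [h1]; ring
    rw [hw] at hch
    have hle : (s.card : ℝ) ≤ K := by
      exact_mod_cast visits_le hK hT v
    have h0 : 0 ≤ (∑ j ∈ s, ((NWs S K η o j).card : ℝ)) * ((s.card : ℝ) * (K - s.card)) :=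
      mul_nonneg (sum_nonneg fun j _ => Nat.cast_nonneg _)
        (mul_nonneg (Nat.cast_nonneg _) (by linarith))
    rcases Nat.eq_zero_or_pos s.card with h | h
    · rw [card_eq_zero] at h
      rw [h]; simp
    · have hpos : (0 : ℝ) < s.card := by exact_mod_cast h
      have h1 := h0.trans hch
      exact nonneg_of_mul_nonneg_right h1 hpos
  have htot : 0 ≤ ∑ j ∈ range T,
      ((NWs S K η o j).card : ℝ) * (2 * (Uv K η o (j + 1) (ps K η o j) : ℝ) - ((K : ℝ) - 1)) := by
    rw [← sum_fiberwise (s := range T) (g := fun j => ps K η o j)]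
    exact sum_nonneg fun v _ => hkey v
  have hexp : ∑ j ∈ range T,
      ((NWs S K η o j).card : ℝ) * (2 * (Uv K η o (j + 1) (ps K η o j) : ℝ) - ((K : ℝ) - 1)) =
      2 * ∑ j ∈ range T, ((NWs S K η o j).card : ℝ) * (Uv K η o (j + 1) (ps K η o j) : ℝ) -
      ((K : ℝ) - 1) * ∑ j ∈ range T, ((NWs S K η o j).card : ℝ) := by
    rw [mul_sum, mul_sum, ← sum_sub_distrib]
    exact sum_congr rfl fun j _ => by ring
  rw [hexp] at htot
  linarith

open Classical in
/-- the number of births from the vertex of the head before time `j` -/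
noncomputable def Sb (K : ℕ) (η : ℕ → Perm V) (o : V) (j : ℕ) : ℕ :=
  ((JB K η o j).filter fun b => ps K η o b = ps K η o j).card

theorem sb_sum (hK : 0 < K) {T : ℕ} (hT : IsT K η o T) :
    ∑ j ∈ range T, Sb K η o j ≤ (JB K η o T).card * K := by
  classical
  have h1 : ∀ j ∈ range T, Sb K η o j ≤
      ∑ b ∈ JB K η o T, if ps K η o j = ps K η o b then 1 else 0 := by
    intro j hj
    rw [mem_range] at hj
    unfold Sb
    rw [← card_filter]
    apply card_le_card
    intro b hb
    rw [mem_filter, mem_JB] at hb ⊢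
    exact ⟨⟨by omega, hb.1.2⟩, hb.2.symm⟩
  calc ∑ j ∈ range T, Sb K η o j
      ≤ ∑ j ∈ range T, ∑ b ∈ JB K η o T, (if ps K η o j = ps K η o b then 1 else 0) :=
        sum_le_sum h1
    _ = ∑ b ∈ JB K η o T, ((range T).filter fun j => ps K η o j = ps K η o b).card := by
        rw [sum_comm]
        exact sum_congr rfl fun b _ => by rw [card_filter]
    _ ≤ ∑ b ∈ JB K η o T, K := sum_le_sum fun b _ => visits_le hK hT _
    _ = (JB K η o T).card * K := by rw [sum_const, smul_eq_mul]

/-- parents with many children -/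
theorem parents (T : ℕ) (hTo : ∀ b ∈ JB K η o T, ps K η o b ∈ NV K η o T) {a : ℝ} (ha : 0 < a) :
    ∑ b ∈ JB K η o T, (Uv K η o T (ps K η o b) : ℝ) ≤
      a * ∑ v ∈ NV K η o T, (Uv K η o T v : ℝ) +
      (K / (4 * a)) * ((JB K η o T).card + 2 * ∑ b ∈ JB K η o T, (Sb K η o b : ℝ)) := by
  classical
  set jv : V → ℕ := fun v => ((JB K η o T).filter fun b => ps K η o b = v).card with hjv
  have h1 : ∑ b ∈ JB K η o T, (Uv K η o T (ps K η o b) : ℝ) =
      ∑ v ∈ NV K η o T, (jv v : ℝ) * (Uv K η o T v : ℝ) := by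
    rw [← sum_fiberwise_of_maps_to hTo]
    refine sum_congr rfl fun v _ => ?_
    rw [sum_congr rfl (g := fun _ => (Uv K η o T v : ℝ)) (fun b hb => by
      rw [(mem_filter.1 hb).2]), sum_const, nsmul_eq_mul]
  have h2 : ∀ v, (jv v : ℝ) * (Uv K η o T v : ℝ) ≤ a * (Uv K η o T v : ℝ) +
      (K / (4 * a)) * (jv v : ℝ) ^ 2 := by
    intro v
    have h3 : (Uv K η o T v : ℝ) ≤ K := by
      have : Uv K η o T v ≤ K := by
        unfold Uv
        exact (card_filter_le _ _).trans (by rw [card_range])
      exact_mod_cast this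
    have h4 : (jv v : ℝ) ≤ a + (jv v : ℝ) ^ 2 / (4 * a) := by
      rw [← sub_nonneg]
      have : a + (jv v : ℝ) ^ 2 / (4 * a) - jv v = (2 * a - jv v) ^ 2 / (4 * a) := by
        field_simp
        ring
      rw [this]
      positivity
    have h5 : (0 : ℝ) ≤ (Uv K η o T v : ℝ) := Nat.cast_nonneg _
    calc (jv v : ℝ) * (Uv K η o T v : ℝ)
        ≤ (a + (jv v : ℝ) ^ 2 / (4 * a)) * (Uv K η o T v : ℝ) :=
          mul_le_mul_of_nonneg_right h4 h5
      _ = a * (Uv K η o T v : ℝ) + (jv v : ℝ) ^ 2 / (4 * a) * (Uv K η o T v : ℝ) := by ring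
      _ ≤ a * (Uv K η o T v : ℝ) + (jv v : ℝ) ^ 2 / (4 * a) * K := by
          have : (0 : ℝ) ≤ (jv v : ℝ) ^ 2 / (4 * a) := by positivity
          have := mul_le_mul_of_nonneg_left h3 this
          linarith
      _ = _ := by ring
  have h3 : ∑ v ∈ NV K η o T, (jv v : ℝ) ^ 2 = (JB K η o T).card +
      2 * ∑ b ∈ JB K η o T, (Sb K η o b : ℝ) := by
    have e1 : ∑ v ∈ NV K η o T, (jv v) ^ 2 = ∑ b ∈ JB K η o T, jv (ps K η o b) := by
      rw [← sum_fiberwise_of_maps_to hTo]
      refine sum_congr rfl fun v _ => ?_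
      rw [sum_congr rfl (g := fun _ => jv v) (fun b hb => by
        rw [(mem_filter.1 hb).2]), sum_const, smul_eq_mul, sq]
    have e2 : ∀ b ∈ JB K η o T, jv (ps K η o b) = Sb K η o b + 1 +
        ((JB K η o T).filter fun b' => b < b' ∧ ps K η o b' = ps K η o b).card := by
      intro b hb
      have hbT := (mem_JB.1 hb).1
      have e3 : ((JB K η o T).filter fun b' => ps K η o b' = ps K η o b) =
          ((JB K η o b).filter fun b' => ps K η o b' = ps K η o b) ∪ ({b} ∪
          ((JB K η o T).filter fun b' => b < b' ∧ ps K η o b' = ps K η o b)) := by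
        ext b'
        simp only [mem_union, mem_filter, mem_JB, mem_singleton]
        constructor
        · rintro ⟨⟨h4, h5⟩, h6⟩
          rcases lt_trichotomy b' b with h7 | h7 | h7
          · exact Or.inl ⟨⟨h7, h5⟩, h6⟩
          · exact Or.inr (Or.inl h7)
          · exact Or.inr (Or.inr ⟨⟨h4, h5⟩, h7, h6⟩)
        · rintro (⟨⟨h4, h5⟩, h6⟩ | h7 | ⟨⟨h4, h5⟩, h7, h6⟩)
          · exact ⟨⟨by omega, h5⟩, h6⟩
          · rw [h7]; exact ⟨mem_JB.1 hb, rfl⟩
          · exact ⟨⟨h4, h5⟩, h6⟩
      rw [hjv]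
      simp only
      rw [e3, card_union_of_disjoint, card_union_of_disjoint, card_singleton]
      · unfold Sb; ring
      · rw [disjoint_left]
        intro b' hb'
        rw [mem_singleton] at hb'
        rw [mem_filter]
        rintro ⟨_, h8, _⟩
        omega
      · rw [disjoint_left]
        intro b' hb'
        rw [mem_filter, mem_JB] at hb'
        rw [mem_union, mem_singleton, mem_filter]
        rintro (h8 | ⟨_, h8, _⟩) <;> omega
    have e4 : ∑ b ∈ JB K η o T,
        ((JB K η o T).filter fun b' => b < b' ∧ ps K η o b' = ps K η o b).card =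
        ∑ b ∈ JB K η o T, Sb K η o b := by
      simp only [card_filter]
      rw [sum_comm]
      refine sum_congr rfl fun b hb => ?_
      unfold Sb
      rw [← card_filter]
      congr 1
      ext b'
      simp only [mem_filter, mem_JB]
      have hbT := (mem_JB.1 hb).1
      constructor
      · rintro ⟨⟨h4, h5⟩, h6, h7⟩; exact ⟨⟨h6, h5⟩, h7.symm⟩
      · rintro ⟨⟨h4, h5⟩, h7⟩; exact ⟨⟨by omega, h5⟩, h4, h7.symm⟩
    have e5 : ∑ v ∈ NV K η o T, (jv v) ^ 2 = (JB K η o T).card +
        2 * ∑ b ∈ JB K η o T, Sb K η o b := by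
      rw [e1, sum_congr rfl e2, sum_add_distrib, sum_add_distrib, e4, sum_const, smul_eq_mul]
      ring
    exact_mod_cast e5
  rw [h1]
  calc ∑ v ∈ NV K η o T, (jv v : ℝ) * (Uv K η o T v : ℝ)
      ≤ ∑ v ∈ NV K η o T, (a * (Uv K η o T v : ℝ) + (K / (4 * a)) * (jv v : ℝ) ^ 2) :=
        sum_le_sum fun v _ => h2 v
    _ = _ := by rw [sum_add_distrib, ← mul_sum, ← mul_sum, h3]

theorem JB_parent {T b : ℕ} (hb : b ∈ JB K η o T) : ps K η o b ∈ NV K η o T :=
  mem_image_of_mem _ (mem_range.2 (mem_JB.1 hb).1)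

end Pool.Agent.H961.T1
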