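import Pool.Agent.H961.T1.A8

/-!
# Expectations over the slices
-/

set_option autoImplicit false
set_option linter.unusedSectionVars false

namespace Pool.Agent.H961.T1

open Finset Equiv

variable {V : Type} [Fintype V] [DecidableEq V]

/-- extension of `K` slices by trivial slices -/
def ext (K : ℕ) (f : Fin K → Perm V) : ℕ → Perm V := fun k => if h : k < K then f ⟨k, h⟩ else 1

/-- the law of a slice -/
noncomputable def mu (δ : ℝ) (S : Finset (Perm V)) (g : Perm V) : ℝ :=
  if g = 1 then 1 - δ * S.card else if g ∈ S then δ else 0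

/-- expectation -/
noncomputable def Ex (K : ℕ) (δ : ℝ) (S : Finset (Perm V)) (F : (ℕ → Perm V) → ℝ) : ℝ :=
  ∑ f : Fin K → Perm V, (∏ i, mu δ S (f i)) * F (ext K f)

section
variable {K : ℕ} {δ : ℝ} {S : Finset (Perm V)}

theorem mu_nonneg (hδ : 0 ≤ δ) (hδ1 : δ * S.card ≤ 1) (g : Perm V) : 0 ≤ mu δ S g := by
  unfold mu
  split_ifs <;> linarith

theorem one_notMem (hSS : SwS S) : (1 : Perm V) ∉ S := by
  intro h
  obtain ⟨a, b, hab, he⟩ := hSS 1 h
  exact hab (swap_eq_one_iff.1 he.symm)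

theorem sum_mu (hSS : SwS S) : ∑ g, mu δ S g = 1 := by
  have h1 : ∀ g, mu δ S g = (if g = 1 then 1 - δ * S.card else 0) + (if g ∈ S then δ else 0) := by
    intro g
    unfold mu
    by_cases h : g = 1
    · subst h; simp [one_notMem hSS]
    · simp [h]
  simp only [h1]
  rw [sum_add_distrib, sum_ite_eq' univ (1 : Perm V), if_pos (mem_univ _), sum_ite_mem,
    univ_inter, sum_const, nsmul_eq_mul]
  ring

theorem w_zero {f : Fin K → Perm V} (h : ¬ Okη S K (ext K f)) :
    ∏ i, mu δ S (f i) = 0 := by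
  unfold Okη at h
  push Not at h
  obtain ⟨k, hk, h1, h2⟩ := h
  have he : ext K f k = f ⟨k, hk⟩ := by unfold ext; rw [dif_pos hk]
  rw [he] at h1 h2
  apply prod_eq_zero (mem_univ ⟨k, hk⟩)
  unfold mu
  rw [if_neg h1, if_neg h2]

theorem Ex_mono (hδ : 0 ≤ δ) (hδ1 : δ * S.card ≤ 1) {F G : (ℕ → Perm V) → ℝ}
    (h : ∀ η, Okη S K η → F η ≤ G η) : Ex K δ S F ≤ Ex K δ S G := by
  unfold Ex
  refine sum_le_sum fun f _ => ?_
  by_cases hf : Okη S K (ext K f)
  · exact mul_le_mul_of_nonneg_left (h _ hf) (prod_nonneg fun i _ => mu_nonneg hδ hδ1 _)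
  · rw [w_zero hf, zero_mul, zero_mul]

theorem Ex_congr {F G : (ℕ → Perm V) → ℝ} (h : ∀ η, Okη S K η → F η = G η) :
    Ex K δ S F = Ex K δ S G := by
  unfold Ex
  refine sum_congr rfl fun f _ => ?_
  by_cases hf : Okη S K (ext K f)
  · rw [h _ hf]
  · rw [w_zero hf, zero_mul, zero_mul]

theorem Ex_add (F G : (ℕ → Perm V) → ℝ) :
    Ex K δ S (fun η => F η + G η) = Ex K δ S F + Ex K δ S G := by
  unfold Ex
  rw [← sum_add_distrib]
  exact sum_congr rfl fun f _ => by ring

theorem Ex_sub (F G : (ℕ → Perm V) → ℝ) :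
    Ex K δ S (fun η => F η - G η) = Ex K δ S F - Ex K δ S G := by
  unfold Ex
  rw [← sum_sub_distrib]
  exact sum_congr rfl fun f _ => by ring

theorem Ex_mul (c : ℝ) (F : (ℕ → Perm V) → ℝ) :
    Ex K δ S (fun η => c * F η) = c * Ex K δ S F := by
  unfold Ex
  rw [mul_sum]
  exact sum_congr rfl fun f _ => by ring

theorem Ex_sum {ι : Type} (s : Finset ι) (F : ι → (ℕ → Perm V) → ℝ) :
    Ex K δ S (fun η => ∑ i ∈ s, F i η) = ∑ i ∈ s, Ex K δ S (F i) := by
  unfold Ex
  rw [sum_comm]
  exact sum_congr rfl fun f _ => by rw [mul_sum]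

theorem Ex_const (hSS : SwS S) (c : ℝ) : Ex K δ S (fun _ => c) = c := by
  unfold Ex
  rw [← sum_mul]
  have h : ∑ f : Fin K → Perm V, ∏ i, mu δ S (f i) = (∑ g, mu δ S g) ^ K := by
    rw [Fintype.sum_pow]
  rw [h, sum_mu hSS, one_pow, one_mul]

theorem Ex_nonneg (hδ : 0 ≤ δ) (hδ1 : δ * S.card ≤ 1) {F : (ℕ → Perm V) → ℝ}
    (h : ∀ η, Okη S K η → 0 ≤ F η) : 0 ≤ Ex K δ S F := by
  unfold Ex
  refine sum_nonneg fun f _ => ?_
  by_cases hf : Okη S K (ext K f)
  · exact mul_nonneg (prod_nonneg fun i _ => mu_nonneg hδ hδ1 _) (h _ hf)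
  · rw [w_zero hf, zero_mul]

open Classical in
theorem Ex_slice (hSS : SwS S) {k : ℕ} (hk : k < K) :
    Ex K δ S (fun η => if η k = 1 then 0 else 1) = δ * S.card := by
  have h1 : Ex K δ S (fun η => if η k = 1 then 1 else 0) = 1 - δ * S.card := by
    unfold Ex
    have he : ∀ f : Fin K → Perm V, (∏ i, mu δ S (f i)) * (if ext K f k = 1 then (1 : ℝ) else 0) =
        ∏ i, (mu δ S (f i) * (if i = ⟨k, hk⟩ then (if f i = 1 then 1 else 0) else 1)) := by
      intro f
      rw [prod_mul_distrib]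
      congr 1
      rw [prod_ite_eq' univ (⟨k, hk⟩ : Fin K), if_pos (mem_univ _)]
      have he : ext K f k = f ⟨k, hk⟩ := by unfold ext; rw [dif_pos hk]
      rw [he]
    simp only [he]
    rw [← Fintype.prod_sum (fun (i : Fin K) (g : Perm V) =>
      mu δ S g * (if i = ⟨k, hk⟩ then (if g = 1 then (1 : ℝ) else 0) else 1))]
    rw [← mul_prod_erase univ _ (mem_univ (⟨k, hk⟩ : Fin K))]
    have h2 : ∑ g, mu δ S g * (if (⟨k, hk⟩ : Fin K) = ⟨k, hk⟩ then
        (if g = 1 then (1 : ℝ) else 0) else 1) = 1 - δ * S.card := by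
      simp only [if_true, mul_ite, mul_one, mul_zero]
      rw [sum_ite_eq' univ (1 : Perm V), if_pos (mem_univ _)]
      unfold mu
      rw [if_pos rfl]
    rw [h2]
    have h3 : ∏ i ∈ univ.erase (⟨k, hk⟩ : Fin K), ∑ g, mu δ S g * (if i = ⟨k, hk⟩ then
        (if g = 1 then (1 : ℝ) else 0) else 1) = 1 := by
      apply prod_eq_one
      intro i hi
      simp only [if_neg (ne_of_mem_erase hi), mul_one]
      exact sum_mu hSS
    rw [h3, mul_one]
  have h2 : ∀ η : ℕ → Perm V, (if η k = 1 then (0 : ℝ) else 1) =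
      1 - (if η k = 1 then (1 : ℝ) else 0) := by
    intro η; split_ifs <;> norm_num
  simp only [h2]
  rw [Ex_sub, Ex_const hSS, h1]
  ring

theorem ext_update (f : Fin K → Perm V) {k : ℕ} (hk : k < K) (s : Perm V) :
    ext K (Function.update f ⟨k, hk⟩ s) = Function.update (ext K f) k s := by
  funext i
  unfold ext
  by_cases h : i = k
  · subst h
    rw [Function.update_self, dif_pos hk, Function.update_self]
  · rw [Function.update_of_ne h]
    split_ifs with h2
    · rw [Function.update_of_ne]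
      intro he
      exact h (by simpa using congrArg Fin.val he)
    · rfl

end

/-- the same positions up to time `j` -/
def Sm (K : ℕ) (η η' : ℕ → Perm V) (o : V) (j : ℕ) : Prop := ∀ i ≤ j, ps K η' o i = ps K η o i

theorem sm_update {K : ℕ} {η : ℕ → Perm V} {o : V} {j : ℕ} {s : Perm V}
    (h : ∀ i < j, i % K = j % K → s (ps K η o i) = η (j % K) (ps K η o i)) :
    Sm K η (Function.update η (j % K) s) o j := by
  intro i
  induction i with
  | zero => intro _; rfl
  | succ i ih =>
    intro hi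
    rw [ps_succ, ps_succ, ih (by omega)]
    by_cases hk : i % K = j % K
    · rw [hk, Function.update_self, h i (by omega) hk]
    · rw [Function.update_of_ne hk]

/-- a fresh neighbour of the head of the loop -/
def Fr (S : Finset (Perm V)) (K : ℕ) (η : ℕ → Perm V) (o : V) (j : ℕ) (z : V) : Prop :=
  Al K η o j ∧ Ad S (ps K η o j) z ∧ ¬ Vs K η o j z (j % K)

section
variable {K : ℕ} {η η' : ℕ → Perm V} {o : V} {j : ℕ}

theorem Sm.al (h : Sm K η η' o j) : Al K η' o j ↔ Al K η o j := by
  constructor <;> intro ha i h0 hi hd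
  · rw [← h i hi]; exact ha i h0 hi hd
  · rw [h i hi]; exact ha i h0 hi hd

theorem Sm.vs (h : Sm K η η' o j) {l : ℕ} (hl : l ≤ j + 1) (v : V) (k : ℕ) :
    Vs K η' o l v k ↔ Vs K η o l v k := by
  constructor
  · rintro ⟨i, h1, h2, h3⟩; exact ⟨i, h1, h2, by rw [← h i (by omega)]; exact h3⟩
  · rintro ⟨i, h1, h2, h3⟩; exact ⟨i, h1, h2, by rw [h i (by omega)]; exact h3⟩

theorem Sm.bi (h : Sm K η η' o j) {l : ℕ} (hl : l < j) : Bi K η' o l ↔ Bi K η o l := by
  constructor
  · intro hb i hi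
    rw [← h i (by omega), ← h (l + 1) (by omega)]; exact hb i hi
  · intro hb i hi
    rw [h i (by omega), h (l + 1) (by omega)]; exact hb i hi

theorem Sm.ol (h : Sm K η η' o j) {l : ℕ} (hl : l < j) : Ol K η' o l ↔ Ol K η o l := by
  unfold Ol FJ
  rw [h (l + 1) (by omega), h l (by omega), h.vs (by omega)]
  constructor
  · rintro ⟨h1, i, hi, h2⟩; exact ⟨h1, i, hi, by rw [← h i (by omega)]; exact h2⟩
  · rintro ⟨h1, i, hi, h2⟩; exact ⟨h1, i, hi, by rw [h i (by omega)]; exact h2⟩

theorem Sm.un (h : Sm K η η' o j) : Un K η' o j ↔ Un K η o j := by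
  unfold Un
  constructor
  · intro hu l hl ho
    rw [← h (l + 1) (by omega), ← h j le_rfl]
    exact hu l hl ((h.ol hl).2 ho)
  · intro hu l hl ho
    rw [h (l + 1) (by omega), h j le_rfl]
    exact hu l hl ((h.ol hl).1 ho)

theorem Sm.sb (h : Sm K η η' o j) : Sb K η' o j = Sb K η o j := by
  classical
  unfold Sb
  congr 1
  ext b
  simp only [mem_filter, mem_JB]
  constructor
  · rintro ⟨⟨h1, h2⟩, h3⟩
    exact ⟨⟨h1, (h.bi h1).1 h2⟩, by rw [← h b (by omega), ← h j le_rfl]; exact h3⟩
  · rintro ⟨⟨h1, h2⟩, h3⟩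
    exact ⟨⟨h1, (h.bi h1).2 h2⟩, by rw [h b (by omega), h j le_rfl]; exact h3⟩

theorem Sm.uv (h : Sm K η η' o j) (v : V) : Uv K η' o (j + 1) v = Uv K η o (j + 1) v := by
  classical
  unfold Uv
  congr 1
  ext k
  simp only [mem_filter]
  rw [h.vs le_rfl]

theorem Sm.cfg (h : Sm K η η' o j) (hη : ∀ k, k ≠ j % K → η' k = η k)
    (h1 : η (j % K) = 1) : cfg K η' o j = cfg K η o j := by
  have hc : ∀ k, (∃ i < j, i % K = k ∧ ps K η' o (i + 1) ≠ ps K η' o i) ↔
      (∃ i < j, i % K = k ∧ ps K η o (i + 1) ≠ ps K η o i) := by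
    intro k
    constructor
    · rintro ⟨i, hi, h2, h3⟩
      refine ⟨i, hi, h2, ?_⟩
      rw [← h (i + 1) (by omega), ← h i (by omega)]; exact h3
    · rintro ⟨i, hi, h2, h3⟩
      refine ⟨i, hi, h2, ?_⟩
      rw [h (i + 1) (by omega), h i (by omega)]; exact h3
  funext k
  unfold T1.cfg
  by_cases hk : k = j % K
  · subst hk
    rw [if_neg, if_neg]
    · rintro ⟨i, hi, h2, h3⟩
      apply h3
      rw [ps_succ, h2, h1]; rfl
    · rw [hc]
      rintro ⟨i, hi, h2, h3⟩
      apply h3
      rw [ps_succ, h2, h1]; rfl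
  · rw [hη k hk]
    congr 1
    exact propext (hc k)

theorem Sm.pe (h : Sm K η η' o j) (hη : ∀ k, k ≠ j % K → η' k = η k)
    (h1 : η (j % K) = 1) (z : V) : Pe K η' o j z ↔ Pe K η o j z := by
  unfold Pe Rt
  rw [h.cfg hη h1, h j le_rfl]

end

/-- `F` does not change when the bar from the head to the fresh neighbour `z` is added -/
def Adp (S : Finset (Perm V)) (K : ℕ) (o : V) (F : (ℕ → Perm V) → ℕ → V → ℝ) : Prop :=
  ∀ η j z, Fr S K η o j z → η (j % K) = 1 →
    Sm K η (Function.update η (j % K) (swap (ps K η o j) z)) o j →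
    F (Function.update η (j % K) (swap (ps K η o j) z)) j z = F η j z

open Classical in
/-- Compensation at one time. -/
theorem comp_at {K : ℕ} (hK : 0 < K) {δ : ℝ} {S : Finset (Perm V)} (hSS : SwS S) {o : V}
    {F : (ℕ → Perm V) → ℕ → V → ℝ} (hF : Adp S K o F) (j : ℕ) :
    (1 - δ * S.card) * Ex K δ S (fun η => ∑ z, if Fr S K η o j z ∧
      η (j % K) = swap (ps K η o j) z then F η j z else 0) =
    δ * Ex K δ S (fun η => ∑ z, if Fr S K η o j z ∧ η (j % K) = 1 then F η j z else 0) := by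
  have hk : j % K < K := Nat.mod_lt _ hK
  set k : Fin K := ⟨j % K, hk⟩ with hkdef
  have hext : ∀ f : Fin K → Perm V, ext K f (j % K) = f k := by
    intro f; unfold ext; rw [dif_pos hk]
  -- the two directions of the update
  have up : ∀ (η : ℕ → Perm V) (z : V), Fr S K η o j z → η (j % K) = 1 →
      Sm K η (Function.update η (j % K) (swap (ps K η o j) z)) o j := by
    intro η z hf h1
    apply sm_update
    intro i hi hki
    rw [h1, Perm.one_apply]
    apply swap_apply_of_ne_of_ne
    · exact hf.1.ne hi le_rfl hki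
    · intro he
      exact hf.2.2 ⟨i, hi, hki, he⟩
  have down : ∀ (η : ℕ → Perm V) (z : V), Fr S K η o j z →
      η (j % K) = swap (ps K η o j) z → Sm K η (Function.update η (j % K) 1) o j := by
    intro η z hf h1
    apply sm_update
    intro i hi hki
    rw [h1, Perm.one_apply]
    symm
    apply swap_apply_of_ne_of_ne
    · exact hf.1.ne hi le_rfl hki
    · intro he
      exact hf.2.2 ⟨i, hi, hki, he⟩
  have frsm : ∀ (η η' : ℕ → Perm V) (z : V), Sm K η η' o j → Fr S K η o j z → Fr S K η' o j z := by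
    intro η η' z h hf
    refine ⟨h.al.2 hf.1, ?_, ?_⟩
    · rw [h j le_rfl]; exact hf.2.1
    · rw [h.vs (by omega)]; exact hf.2.2
  unfold Ex
  have e1 : ∀ (p : (Fin K → Perm V) → V → Prop) [∀ f z, Decidable (p f z)],
      ∑ f : Fin K → Perm V, (∏ i, mu δ S (f i)) *
      ∑ z, (if p f z then F (ext K f) j z else 0) =
      ∑ x ∈ (univ ×ˢ univ : Finset ((Fin K → Perm V) × V)).filter (fun x => p x.1 x.2),
        (∏ i, mu δ S (x.1 i)) * F (ext K x.1) j x.2 := by
    intro p _
    rw [sum_filter, sum_product]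
    refine sum_congr rfl fun f _ => ?_
    rw [mul_sum]
    refine sum_congr rfl fun z _ => ?_
    simp only
    split_ifs
    · rfl
    · rw [mul_zero]
  beta_reduce
  rw [e1 (fun f z => Fr S K (ext K f) o j z ∧ ext K f (j % K) = swap (ps K (ext K f) o j) z),
    e1 (fun f z => Fr S K (ext K f) o j z ∧ ext K f (j % K) = 1), mul_sum, mul_sum]
  refine sum_bij' (fun x _ => (Function.update x.1 k 1, x.2))
    (fun x _ => (Function.update x.1 k (swap (ps K (ext K x.1) o j) x.2), x.2)) ?_ ?_ ?_ ?_ ?_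
  · rintro ⟨f, z⟩ hx
    simp only [mem_filter, mem_product, mem_univ, true_and] at hx ⊢
    rw [hkdef, ext_update]
    exact ⟨frsm _ _ _ (down _ _ hx.1 hx.2) hx.1, Function.update_self _ _ _⟩
  · rintro ⟨f, z⟩ hx
    simp only [mem_filter, mem_product, mem_univ, true_and] at hx ⊢
    rw [hkdef, ext_update]
    have h := up _ _ hx.1 hx.2
    refine ⟨frsm _ _ _ h hx.1, ?_⟩
    rw [Function.update_self, h j le_rfl]
  · rintro ⟨f, z⟩ hx
    simp only [mem_filter, mem_product, mem_univ, true_and] at hx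
    have h := down _ _ hx.1 hx.2
    simp only [Prod.mk.injEq, and_true]
    rw [Function.update_idem]
    have e2 : ps K (ext K (Function.update f k 1)) o j = ps K (ext K f) o j := by
      rw [hkdef, ext_update]; exact h j le_rfl
    rw [e2, ← hx.2, hext, Function.update_eq_self]
  · rintro ⟨f, z⟩ hx
    simp only [mem_filter, mem_product, mem_univ, true_and] at hx
    simp only [Prod.mk.injEq, and_true]
    rw [Function.update_idem]
    have : f k = 1 := by rw [← hext f]; exact hx.2
    rw [← this, Function.update_eq_self]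
  · rintro ⟨f, z⟩ hx
    simp only [mem_filter, mem_product, mem_univ, true_and] at hx
    have h := down _ _ hx.1 hx.2
    have hfr := frsm _ _ _ h hx.1
    have hp : ps K (Function.update (ext K f) (j % K) 1) o j = ps K (ext K f) o j := h j le_rfl
    have hF2 : F (ext K (Function.update f k 1)) j z = F (ext K f) j z := by
      rw [hkdef, ext_update]
      have h3 := hF (Function.update (ext K f) (j % K) 1) j z hfr (Function.update_self _ _ _)
        (up _ _ hfr (Function.update_self _ _ _))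
      rw [hp, Function.update_idem] at h3
      rw [← h3, ← hx.2, Function.update_eq_self]
    simp only
    rw [hF2]
    have hw1 : ∏ i, mu δ S (f i) = δ * ∏ i ∈ univ.erase k, mu δ S (f i) := by
      rw [← mul_prod_erase univ _ (mem_univ k)]
      congr 1
      rw [← hext f, hx.2]
      unfold mu
      rw [if_neg, if_pos hx.1.2.1.2]
      intro h5
      exact hx.1.2.1.1 (swap_eq_one_iff.1 h5)
    have hw2 : ∏ i, mu δ S (Function.update f k 1 i) =
        (1 - δ * S.card) * ∏ i ∈ univ.erase k, mu δ S (f i) := by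
      rw [← mul_prod_erase univ _ (mem_univ k), Function.update_self]
      congr 1
      · unfold mu; rw [if_pos rfl]
      · refine prod_congr rfl fun i hi => ?_
        rw [Function.update_of_ne (ne_of_mem_erase hi)]
    rw [hw1, hw2]
    ring

end Pool.Agent.H961.T1
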